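import Pool.Agent.H555Z.Tr.Ineq

set_option autoImplicit false

open Finset

namespace H555Z.Tr

/-- finite support -/
def FS {E : Type*} [Zero E] (c : ℤ → E) : Prop := (Function.support c).Finite

lemma FS.mono {E F : Type*} [Zero E] [Zero F] {c : ℤ → E} {c' : ℤ → F} (h : FS c)
    (hh : ∀ d, c d = 0 → c' d = 0) : FS c' :=
  Set.Finite.subset h (fun d hd h0 => hd (hh d h0))

lemma FS.of_finset {E : Type*} [Zero E] {c : ℤ → E} (s : Finset ℤ) (h : ∀ d, d ∉ s → c d = 0) :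
    FS c := Set.Finite.subset s.finite_toSet (fun d hd => by
      by_contra h1
      exact hd (h d h1))

lemma FS.exists_finset {E : Type*} [Zero E] {c : ℤ → E} (h : FS c) :
    ∃ s : Finset ℤ, ∀ d, d ∉ s → c d = 0 :=
  ⟨Set.Finite.toFinset h, fun d hd => by
    by_contra h1
    exact hd ((Set.Finite.mem_toFinset h).2 h1)⟩

lemma FS.two {E F G : Type*} [Zero E] [Zero F] [Zero G] {c : ℤ → E} {c' : ℤ → F} {c'' : ℤ → G}
    (h : FS c) (h' : FS c') (hh : ∀ d, c d = 0 → c' d = 0 → c'' d = 0) : FS c'' := by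
  obtain ⟨s, hs⟩ := h.exists_finset
  obtain ⟨s', hs'⟩ := h'.exists_finset
  exact FS.of_finset (s ∪ s') (fun d hd => hh d (hs d (fun h => hd (mem_union_left _ h)))
    (hs' d (fun h => hd (mem_union_right _ h))))

lemma FS.shift {E : Type*} [Zero E] {c : ℤ → E} (h : FS c) (a : ℤ) : FS (fun d => c (d + a)) := by
  obtain ⟨s, hs⟩ := h.exists_finset
  refine FS.of_finset (s.image (fun d => d - a)) (fun d hd => hs _ (fun h1 => hd ?_))
  exact mem_image.2 ⟨d + a, h1, by ring⟩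

lemma FS.shift' {E : Type*} [Zero E] {c : ℤ → E} (h : FS c) (a : ℤ) : FS (fun d => c (d - a)) := by
  simpa only [sub_eq_add_neg] using h.shift (-a)

lemma FS.add {E : Type*} [AddMonoid E] {c c' : ℤ → E} (h : FS c) (h' : FS c') :
    FS (fun d => c d + c' d) := h.two h' (fun d h1 h2 => by simp [h1, h2])

lemma FS.sub {E : Type*} [AddGroup E] {c c' : ℤ → E} (h : FS c) (h' : FS c') :
    FS (fun d => c d - c' d) := h.two h' (fun d h1 h2 => by simp [h1, h2])

lemma FS.zero {E : Type*} [Zero E] : FS (fun _ : ℤ => (0 : E)) := FS.of_finset ∅ (fun _ _ => rfl)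

lemma FS.sum {E ι : Type*} [AddCommMonoid E] (s : Finset ι) {c : ι → ℤ → E}
    (h : ∀ i ∈ s, FS (c i)) : FS (fun d => ∑ i ∈ s, c i d) := by
  classical
  induction s using Finset.induction_on with
  | empty => simpa using FS.zero
  | insert a s ha ih =>
    simp only [sum_insert ha]
    exact (h a (mem_insert_self _ _)).add (ih (fun i hi => h i (mem_insert_of_mem hi)))

lemma FS.summable {c : ℤ → ℝ} (h : FS c) : Summable c := by
  obtain ⟨s, hs⟩ := h.exists_finset
  exact summable_of_ne_finset_zero hs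

/-- the unit sequence -/
def dl {E : Type*} [Zero E] [One E] (n : ℤ) : ℤ → E := fun d => if d = n then 1 else 0

lemma FS_dl {E : Type*} [Zero E] [One E] (n : ℤ) : FS (dl n : ℤ → E) :=
  FS.of_finset {n} (fun d hd => by simp [dl, show d ≠ n from by simpa using hd])

/-- the `p`-th power of the `ℓ_p` norm -/
noncomputable def en {E : Type*} [NormedAddCommGroup E] (p : ℝ) (c : ℤ → E) : ℝ :=
  ∑' d, ‖c d‖ ^ p

section en
variable {E F : Type*} [NormedAddCommGroup E] [NormedAddCommGroup F] {p : ℝ}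

lemma FS.pw {c : ℤ → E} (h : FS c) (hp : 0 < p) : FS (fun d => ‖c d‖ ^ p) :=
  h.mono (fun d hd => by simp [hd, Real.zero_rpow hp.ne'])

lemma FS.summable_pw {c : ℤ → E} (h : FS c) (hp : 0 < p) : Summable (fun d => ‖c d‖ ^ p) :=
  (h.pw hp).summable

lemma en_nonneg (c : ℤ → E) : 0 ≤ en p c := tsum_nonneg (fun d => by positivity)

lemma en_le_tsum {c : ℤ → E} (h : FS c) (hp : 0 < p) {v : ℤ → ℝ} (hv : FS v)
    (hh : ∀ d, ‖c d‖ ^ p ≤ v d) : en p c ≤ ∑' d, v d :=
  Summable.tsum_le_tsum hh (h.summable_pw hp) hv.summable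

lemma en_mono {c : ℤ → E} {c' : ℤ → F} (h : FS c') (hp : 0 < p) (hh : ∀ d, ‖c d‖ ≤ ‖c' d‖) :
    en p c ≤ en p c' := by
  have h1 : FS c := h.mono (fun d hd => by
    have := hh d
    rw [hd, norm_zero] at this
    exact norm_le_zero_iff.1 this)
  exact en_le_tsum h1 hp (h.pw hp) (fun d => Real.rpow_le_rpow (norm_nonneg _) (hh d) hp.le)

lemma en_shift (c : ℤ → E) (a : ℤ) : en p (fun d => c (d + a)) = en p c :=
  (Equiv.addRight a).tsum_eq (fun d => ‖c d‖ ^ p)

lemma en_shift' (c : ℤ → E) (a : ℤ) : en p (fun d => c (d - a)) = en p c := by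
  simpa only [sub_eq_add_neg] using en_shift (p := p) c (-a)

lemma en_add_le {c c' : ℤ → E} (h : FS c) (h' : FS c') (hp1 : 1 ≤ p) (hp2 : p ≤ 2) :
    en p (fun d => c d + c' d) ≤ 2 * en p c + 2 * en p c' := by
  have hp : 0 < p := by linarith
  have s1 := (h.summable_pw hp).mul_left 2
  have s2 := (h'.summable_pw hp).mul_left 2
  unfold en
  rw [← tsum_mul_left, ← tsum_mul_left, ← s1.tsum_add s2]
  exact Summable.tsum_le_tsum (fun d => norm_add_rpow_le_two hp1 hp2 _ _)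
    ((h.add h').summable_pw hp) (s1.add s2)

lemma en_sub_le {c c' : ℤ → E} (h : FS c) (h' : FS c') (hp1 : 1 ≤ p) (hp2 : p ≤ 2) :
    en p (fun d => c d - c' d) ≤ 2 * en p c + 2 * en p c' := by
  have h2 : FS (fun d => - c' d) := h'.mono (fun d hd => by simp [hd])
  have := en_add_le h h2 hp1 hp2
  simp only [← sub_eq_add_neg] at this
  have e : en p (fun d => - c' d) = en p c' := by simp [en]
  rwa [e] at this

lemma en_diff_le {c : ℤ → E} (h : FS c) (hp1 : 1 ≤ p) (hp2 : p ≤ 2) (a : ℤ) :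
    en p (fun d => c d - c (d - a)) ≤ 4 * en p c := by
  have := en_sub_le h (h.shift' a) hp1 hp2
  rw [en_shift'] at this
  linarith

lemma en_const_mul (a : ℂ) (c : ℤ → ℂ) : en p (fun d => a * c d) = ‖a‖ ^ p * en p c := by
  unfold en
  rw [← tsum_mul_left]
  congr 1
  ext d
  rw [norm_mul, Real.mul_rpow (norm_nonneg _) (norm_nonneg _)]

lemma en_const_mul_real (a : ℝ) (c : ℤ → ℝ) : en p (fun d => a * c d) = |a| ^ p * en p c := by
  unfold en
  rw [← tsum_mul_left]
  congr 1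
  ext d
  rw [norm_mul, Real.mul_rpow (norm_nonneg _) (norm_nonneg _), Real.norm_eq_abs]

lemma sum_le_en {c : ℤ → E} (h : FS c) (hp : 0 < p) (s : Finset ℤ) :
    ∑ d ∈ s, ‖c d‖ ^ p ≤ en p c :=
  (h.summable_pw hp).sum_le_tsum s (fun d _ => by positivity)

lemma en_eq_sum {c : ℤ → E} (hp : 0 < p) (s : Finset ℤ) (hs : ∀ d, d ∉ s → c d = 0) :
    en p c = ∑ d ∈ s, ‖c d‖ ^ p :=
  tsum_eq_sum (fun d hd => by simp [hs d hd, Real.zero_rpow hp.ne'])

lemma en_dl (hp : 0 < p) (n : ℤ) : en p (dl n : ℤ → ℂ) = 1 := by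
  rw [en_eq_sum hp {n} (fun d hd => by simp [dl, show d ≠ n from by simpa using hd])]
  simp [dl]

end en

/-- the Besov type energy -/
noncomputable def En (p w : ℝ) (b : ℤ → ℝ) : ℝ :=
  ∑' i : ℕ, w ^ i * en p (fun d => b d - b (d - 2 ^ i))

section En
variable {p w : ℝ} {b : ℤ → ℝ}

lemma summable_En (hb : FS b) (hp1 : 1 ≤ p) (hp2 : p ≤ 2) (hw0 : 0 < w) (hw1 : w < 1) :
    Summable (fun i : ℕ => w ^ i * en p (fun d => b d - b (d - 2 ^ i))) := by
  refine Summable.of_nonneg_of_le (fun i => mul_nonneg (by positivity) (en_nonneg _)) (fun i => ?_)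
    ((summable_geometric_of_lt_one hw0.le hw1).mul_right (4 * en p b))
  exact mul_le_mul_of_nonneg_left (en_diff_le hb hp1 hp2 _) (by positivity)

lemma En_nonneg (hw0 : 0 < w) : 0 ≤ En p w b :=
  tsum_nonneg (fun i => mul_nonneg (by positivity) (en_nonneg _))

lemma diff_le_En (hb : FS b) (hp1 : 1 ≤ p) (hp2 : p ≤ 2) (hw0 : 0 < w) (hw1 : w < 1) :
    en p (fun d => b d - b (d - 1)) ≤ En p w b := by
  have := (summable_En hb hp1 hp2 hw0 hw1).sum_le_tsum {0}
    (fun i _ => mul_nonneg (by positivity) (en_nonneg _))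
  simpa [En] using this

/-- local mass to the left of `m` -/
noncomputable def loc (p : ℝ) (b : ℤ → ℝ) (m : ℤ) (i : ℕ) : ℝ :=
  ∑ n ∈ Ioc (m - 2 ^ i) m, |b n| ^ p

lemma loc_nonneg (m : ℤ) (i : ℕ) : 0 ≤ loc p b m i := sum_nonneg (fun n _ => by positivity)

lemma sum_Ioc_shift (f : ℤ → ℝ) (a c h : ℤ) :
    ∑ n ∈ Ioc a c, f (n - h) = ∑ n ∈ Ioc (a - h) (c - h), f n := by
  apply sum_bij (fun n _ => n - h)
  · intro n hn
    rw [mem_Ioc] at hn ⊢
    omega
  · intro n _ n' _ h1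
    omega
  · intro n hn
    rw [mem_Ioc] at hn
    exact ⟨n + h, by rw [mem_Ioc]; omega, by ring⟩
  · intro n _
    rfl

lemma loc_step (hb : FS b) (hp1 : 1 ≤ p) (hp2 : p ≤ 2) {l : ℝ} (hl0 : 0 < l) (hl1 : l < 1)
    (m : ℤ) (i : ℕ) : (1 + l) * loc p b m i ≤ loc p b m (i + 1)
      + (1 / (1 - l)) * en p (fun d => b d - b (d - 2 ^ i)) := by
  have hp : 0 < p := by linarith
  have hl2 : 0 < 1 - l := by linarith
  have h2 : (0:ℤ) < 2 ^ i := by positivity
  have e1 : loc p b m (i + 1) = ∑ n ∈ Ioc (m - 2 ^ i) m, |b (n - 2 ^ i)| ^ p + loc p b m i := by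
    rw [sum_Ioc_shift (fun n => |b n| ^ p)]
    unfold loc
    rw [← sum_union, Ioc_union_Ioc_eq_Ioc (by omega) (by omega)]
    · congr 2
      ring
    · rw [disjoint_left]
      intro n h1 h3
      rw [mem_Ioc] at h1 h3
      omega
  have e2 : loc p b m i ≤ (∑ n ∈ Ioc (m - 2 ^ i) m, |b (n - 2 ^ i)| ^ p) / l
      + (∑ n ∈ Ioc (m - 2 ^ i) m, ‖b n - b (n - 2 ^ i)‖ ^ p) / (1 - l) := by
    unfold loc
    rw [sum_div, sum_div, ← sum_add_distrib]
    apply sum_le_sum
    intro n _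
    refine le_trans ?_ (add_rpow_le hp1 hp2 hl0 hl1 (abs_nonneg _) (norm_nonneg _))
    apply Real.rpow_le_rpow (abs_nonneg _) _ hp.le
    rw [Real.norm_eq_abs]
    have := abs_add_le (b (n - 2 ^ i)) (b n - b (n - 2 ^ i))
    simpa using this
  have e3 := sum_le_en (hb.sub (hb.shift' (2 ^ i))) hp (Ioc (m - 2 ^ i) m)
  set X := ∑ n ∈ Ioc (m - 2 ^ i) m, |b (n - 2 ^ i)| ^ p
  set Y := ∑ n ∈ Ioc (m - 2 ^ i) m, ‖b n - b (n - 2 ^ i)‖ ^ p
  have hY : 0 ≤ Y := sum_nonneg (fun n _ => by positivity)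
  have e4 : l * loc p b m i ≤ X + l * (Y / (1 - l)) := by
    have := mul_le_mul_of_nonneg_left e2 hl0.le
    rwa [mul_add, mul_div_cancel₀ _ hl0.ne'] at this
  have e5 : l * (Y / (1 - l)) ≤ (1 / (1 - l)) * en p (fun d => b d - b (d - 2 ^ i)) := by
    rw [← mul_div_assoc, one_div, inv_mul_eq_div]
    apply div_le_div_of_nonneg_right _ hl2.le
    nlinarith
  rw [e1]
  linarith

/-- the Hardy constant -/
noncomputable def CH (w : ℝ) : ℝ := 1 / (1 - 1 / (2 * w)) ^ 2

lemma CH_ge (hw0 : 1 / 2 < w) : 1 ≤ CH w := by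
  have h1 : 0 < 1 / (2 * w) := by
    have : 0 < w := by linarith
    positivity
  have h2 : 1 / (2 * w) < 1 := by rw [div_lt_one (by linarith)]; linarith
  unfold CH
  rw [le_div_iff₀ (by nlinarith)]
  nlinarith

lemma summable_loc (hb : FS b) (hp1 : 1 ≤ p) (hw0 : 0 < w) (hw1 : w < 1) (m : ℤ) :
    Summable (fun i : ℕ => w ^ i * loc p b m i) := by
  refine Summable.of_nonneg_of_le (fun i => mul_nonneg (by positivity) (loc_nonneg _ _)) (fun i => ?_)
    ((summable_geometric_of_lt_one hw0.le hw1).mul_right (en p b))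
  exact mul_le_mul_of_nonneg_left (sum_le_en hb (by linarith) _) (by positivity)

theorem hardy (hb : FS b) (hp1 : 1 ≤ p) (hp2 : p ≤ 2) (hw0 : 1 / 2 < w) (hw1 : w < 1) (m : ℤ) :
    ∑' i : ℕ, w ^ i * loc p b m i ≤ CH w * En p w b := by
  have hw : 0 < w := by linarith
  set l := 1 / (2 * w) with hl
  have hl0 : 0 < l := by positivity
  have hl1 : l < 1 := by rw [hl, div_lt_one (by linarith)]; linarith
  have hl2 : 0 < 1 - l := by linarith
  have s1 := summable_loc hb hp1 hw hw1 m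
  have s2 := summable_En hb hp1 hp2 hw hw1
  have s3 : Summable (fun i : ℕ => w ^ (i + 1) * loc p b m (i + 1)) :=
    (summable_nat_add_iff (f := fun i => w ^ i * loc p b m i) 1).2 s1
  set S := ∑' i : ℕ, w ^ i * loc p b m i with hS
  have h1 : ∑' i : ℕ, w ^ (i + 1) * loc p b m (i + 1) ≤ S := by
    have := s1.tsum_eq_zero_add
    rw [← hS] at this
    have h0 : 0 ≤ w ^ 0 * loc p b m 0 := mul_nonneg (by positivity) (loc_nonneg _ _)
    linarith
  have h2 : ∑' i : ℕ, (1 + l) * (w ^ i * loc p b m i) ≤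
      ∑' i : ℕ, (w⁻¹ * (w ^ (i + 1) * loc p b m (i + 1))
        + (1 / (1 - l)) * (w ^ i * en p (fun d => b d - b (d - 2 ^ i)))) := by
    refine Summable.tsum_le_tsum (fun i => ?_) (s1.mul_left _) ((s3.mul_left _).add (s2.mul_left _))
    have := mul_le_mul_of_nonneg_left (loc_step hb hp1 hp2 hl0 hl1 m i) (show 0 ≤ w ^ i by positivity)
    have e : w⁻¹ * (w ^ (i + 1) * loc p b m (i + 1)) = w ^ i * loc p b m (i + 1) := by
      field_simp
      ring
    rw [e]
    linarith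
  rw [(s3.mul_left _).tsum_add (s2.mul_left _), tsum_mul_left, tsum_mul_left, tsum_mul_left,
    ← hS] at h2
  have h3 : w⁻¹ * ∑' i : ℕ, w ^ (i + 1) * loc p b m (i + 1) ≤ w⁻¹ * S :=
    mul_le_mul_of_nonneg_left h1 (by positivity)
  have h4 : w⁻¹ = 2 * l := by rw [hl]; field_simp
  have h5 : (1 - l) * S ≤ (1 / (1 - l)) * En p w b := by
    unfold En
    rw [h4] at h2 h3
    linarith
  unfold CH
  rw [← hl]
  have h6 : S ≤ (1 / (1 - l)) * En p w b / (1 - l) := by
    rw [le_div_iff₀ hl2]; linarith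
  calc S ≤ _ := h6
    _ = _ := by field_simp

lemma sup_le_En (hb : FS b) (hp1 : 1 ≤ p) (hp2 : p ≤ 2) (hw0 : 1 / 2 < w) (hw1 : w < 1) (m : ℤ) :
    |b m| ^ p ≤ CH w * En p w b := by
  refine le_trans ?_ (hardy hb hp1 hp2 hw0 hw1 m)
  have hw : 0 < w := by linarith
  have := (summable_loc hb hp1 hw hw1 m).sum_le_tsum {0}
    (fun i _ => mul_nonneg (by positivity) (loc_nonneg _ _))
  refine le_trans (le_of_eq ?_) this
  have e : Ioc (m - 1) m = {m} := by
    ext n
    rw [mem_Ioc, mem_singleton]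
    omega
  simp [loc, e]

/-- truncation -/
def tb (m : ℤ) (b : ℤ → ℝ) : ℤ → ℝ := fun n => if n ≤ m then b n else 0

lemma FS.tb (hb : FS b) (m : ℤ) : FS (tb m b) := hb.mono (fun d hd => by simp [Tr.tb, hd])

theorem En_tb (hb : FS b) (hp1 : 1 ≤ p) (hp2 : p ≤ 2) (hw0 : 1 / 2 < w) (hw1 : w < 1) (m : ℤ) :
    En p w (tb m b) ≤ (1 + CH w) * En p w b := by
  have hw : 0 < w := by linarith
  have hp : 0 < p := by linarith
  have s1 := summable_loc hb hp1 hw hw1 m
  have s2 := summable_En hb hp1 hp2 hw hw1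
  have s3 := summable_En (hb.tb m) hp1 hp2 hw hw1
  have key : ∀ i : ℕ, en p (fun d => tb m b d - tb m b (d - 2 ^ i)) ≤
      en p (fun d => b d - b (d - 2 ^ i)) + loc p b m i := by
    intro i
    have h2 : (0:ℤ) < 2 ^ i := by positivity
    have f1 : FS (fun d => if d ∈ Ioc m (m + 2 ^ i) then |b (d - 2 ^ i)| ^ p else 0) :=
      FS.of_finset (Ioc m (m + 2 ^ i)) (fun d hd => by simp only [hd, if_false])
    have f2 := (hb.sub (hb.shift' (2 ^ i))).pw hp
    have e1 : loc p b m i = ∑' d, if d ∈ Ioc m (m + 2 ^ i) then |b (d - 2 ^ i)| ^ p else 0 := by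
      rw [tsum_eq_sum (s := Ioc m (m + 2 ^ i)) (fun d hd => by simp only [hd, if_false])]
      rw [sum_congr rfl (g := fun d => |b (d - 2 ^ i)| ^ p) (fun d hd => by simp only [hd, if_true])]
      rw [sum_Ioc_shift (fun n => |b n| ^ p)]
      simp [loc]
    rw [e1]
    refine (en_le_tsum ((hb.tb m).sub ((hb.tb m).shift' _)) hp (f2.add f1) (fun d => ?_)).trans
      (le_of_eq (f2.summable.tsum_add f1.summable))
    have n1 : 0 ≤ ‖b d - b (d - 2 ^ i)‖ ^ p := by positivity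
    by_cases h1 : d ≤ m
    · have h3 : d - 2 ^ i ≤ m := by omega
      have h4 : d ∉ Ioc m (m + 2 ^ i) := by rw [mem_Ioc]; omega
      simp only [tb, h1, h3, h4, if_true, if_false, add_zero, le_refl]
    · by_cases h3 : d - 2 ^ i ≤ m
      · have h4 : d ∈ Ioc m (m + 2 ^ i) := by rw [mem_Ioc]; omega
        simp only [tb, h1, h3, h4, if_true, if_false, zero_sub, norm_neg, Real.norm_eq_abs]
        rw [Real.norm_eq_abs] at n1
        linarith
      · have h4 : d ∉ Ioc m (m + 2 ^ i) := by rw [mem_Ioc]; omega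
        simp only [tb, h1, h3, h4, if_false, sub_zero, norm_zero, Real.zero_rpow hp.ne', add_zero]
        exact n1
  have h1 : En p w (tb m b) ≤ ∑' i : ℕ, (w ^ i * en p (fun d => b d - b (d - 2 ^ i))
      + w ^ i * loc p b m i) := by
    refine Summable.tsum_le_tsum (fun i => ?_) s3 (s2.add s1)
    rw [← mul_add]
    exact mul_le_mul_of_nonneg_left (key i) (by positivity)
  rw [s2.tsum_add s1] at h1
  have h2 := hardy hb hp1 hp2 hw0 hw1 m
  unfold En at h1 h2 ⊢
  linarith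

end En

/-- the trapezoid profile -/
noncomputable def tz (N x : ℝ) : ℝ := max 0 (min 1 (min (x / N) (3 - x / N)))

lemma tz_nonneg (N x : ℝ) : 0 ≤ tz N x := le_max_left _ _

lemma tz_le_one (N x : ℝ) : tz N x ≤ 1 := max_le zero_le_one (min_le_left _ _)

lemma tz_zero {N x : ℝ} (hN : 0 < N) (h : x ≤ 0 ∨ 3 * N ≤ x) : tz N x = 0 := by
  unfold tz
  apply max_eq_left
  rcases h with h | h
  · exact (min_le_right _ _).trans ((min_le_left _ _).trans (div_nonpos_of_nonpos_of_nonneg h hN.le))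
  · refine (min_le_right _ _).trans ((min_le_right _ _).trans ?_)
    have : 3 ≤ x / N := by rw [le_div_iff₀ hN]; exact h
    linarith

lemma tz_one {N x : ℝ} (hN : 0 < N) (h1 : N ≤ x) (h2 : x ≤ 2 * N) : tz N x = 1 := by
  unfold tz
  have a1 : 1 ≤ x / N := by rw [le_div_iff₀ hN]; linarith
  have a2 : x / N ≤ 2 := by rw [div_le_iff₀ hN]; linarith
  rw [min_eq_left (le_min a1 (by linarith))]
  simp

lemma tz_lip {N : ℝ} (hN : 0 < N) (x y : ℝ) : |tz N x - tz N y| ≤ |x - y| / N := by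
  unfold tz
  have e : |x - y| / N = |x / N - y / N| := by
    rw [← sub_div, abs_div, abs_of_pos hN]
  rw [e]
  refine (abs_max_sub_max_le_max _ _ _ _).trans (max_le (by simp) ?_)
  refine (abs_min_sub_min_le_max _ _ _ _).trans (max_le (by simp) ?_)
  refine (abs_min_sub_min_le_max _ _ _ _).trans (max_le le_rfl ?_)
  rw [show 3 - x / N - (3 - y / N) = -(x / N - y / N) by ring, abs_neg]

/-- the trapezoid sequence -/
noncomputable def trap (P N : ℕ) : ℤ → ℝ := fun n => tz N ((n : ℝ) - P)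

lemma trap_zero {P N : ℕ} (hN : 0 < N) {n : ℤ} (h : n ∉ Ico (P : ℤ) (P + 3 * N)) :
    trap P N n = 0 := by
  apply tz_zero (by exact_mod_cast hN)
  rw [mem_Ico] at h
  by_cases h1 : (P : ℤ) ≤ n
  · right
    have : (P : ℤ) + 3 * N ≤ n := by omega
    have : ((P : ℤ) : ℝ) + 3 * ((N : ℤ) : ℝ) ≤ n := by exact_mod_cast this
    push_cast at this
    linarith
  · left
    have : n ≤ (P : ℤ) := by omega
    have : (n : ℝ) ≤ ((P : ℤ) : ℝ) := by exact_mod_cast this
    push_cast at this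
    linarith

lemma FS_trap {P N : ℕ} (hN : 0 < N) : FS (trap P N) := FS.of_finset _ (fun _ h => trap_zero hN h)

lemma En_trap {p t : ℝ} (hp1 : 1 ≤ p) (hp2 : p ≤ 2) (ht0 : 0 < t) (ht1 : t ≤ 1 / 2) {P N : ℕ}
    (hN : 0 < N) : En p (2 ^ (t - 1)) (trap P N) ≤ (6 / (1 - 2 ^ (-t))) * (N : ℝ) ^ (2 * t) := by
  have hp : 0 < p := by linarith
  have hN' : (0:ℝ) < N := by exact_mod_cast hN
  have hw0 : (0:ℝ) < 2 ^ (t - 1) := by positivity
  have hw1 : (2:ℝ) ^ (t - 1) < 1 := Real.rpow_lt_one_of_one_lt_of_neg (by norm_num) (by linarith)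
  have hr0 : (0:ℝ) < 2 ^ (-t) := by positivity
  have hr1 : (2:ℝ) ^ (-t) < 1 := Real.rpow_lt_one_of_one_lt_of_neg (by norm_num) (by linarith)
  have key : ∀ i : ℕ, en p (fun d => trap P N d - trap P N (d - 2 ^ i)) ≤
      6 * N * ((2:ℝ) ^ i / N) ^ (1 - 2 * t) := by
    intro i
    set s := Ico (P : ℤ) (P + 3 * N) ∪ Ico ((P : ℤ) + 2 ^ i) (P + 3 * N + 2 ^ i) with hs
    rw [en_eq_sum hp s (fun d hd => by
      rw [hs, mem_union, not_or] at hd
      rw [trap_zero hN hd.1, trap_zero hN (fun h => hd.2 (by rw [mem_Ico] at h ⊢; omega)), sub_zero])]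
    have hc : (s.card : ℝ) ≤ 6 * N := by
      have : s.card ≤ 3 * N + 3 * N := by
        refine (card_union_le _ _).trans ?_
        simp only [Int.card_Ico]
        omega
      have : (s.card : ℝ) ≤ ((3 * N + 3 * N : ℕ) : ℝ) := by exact_mod_cast this
      push_cast at this
      linarith
    have hx : (0:ℝ) < 2 ^ i / N := by positivity
    have hb : ∀ d ∈ s, ‖trap P N d - trap P N (d - 2 ^ i)‖ ^ p ≤ ((2:ℝ) ^ i / N) ^ (1 - 2 * t) := by
      intro d _
      rw [Real.norm_eq_abs]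
      have a1 : |trap P N d - trap P N (d - 2 ^ i)| ≤ 2 ^ i / N := by
        have := tz_lip hN' ((d : ℝ) - P) (((d - 2 ^ i : ℤ) : ℝ) - P)
        refine this.trans (le_of_eq ?_)
        push_cast
        rw [show (d : ℝ) - P - (d - 2 ^ i - P) = 2 ^ i by ring, abs_of_pos (by positivity)]
      have a2 : |trap P N d - trap P N (d - 2 ^ i)| ≤ 1 := by
        rw [abs_le]
        have := tz_nonneg N ((d : ℝ) - P)
        have := tz_le_one N ((d : ℝ) - P)
        have := tz_nonneg N (((d - 2 ^ i : ℤ) : ℝ) - P)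
        have := tz_le_one N (((d - 2 ^ i : ℤ) : ℝ) - P)
        unfold trap
        constructor <;> linarith
      calc _ ≤ |trap P N d - trap P N (d - 2 ^ i)| ^ (1 - 2 * t) :=
            Real.rpow_le_rpow_of_exponent_ge' (abs_nonneg _) a2 (by linarith) (by linarith)
        _ ≤ _ := Real.rpow_le_rpow (abs_nonneg _) a1 (by linarith)
    refine (sum_le_card_nsmul s _ _ hb).trans ?_
    rw [nsmul_eq_mul]
    exact mul_le_mul_of_nonneg_right hc (by positivity)
  have e : ∀ i : ℕ, ((2:ℝ) ^ (t - 1)) ^ i * (6 * N * ((2:ℝ) ^ i / N) ^ (1 - 2 * t))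
      = 6 * (N : ℝ) ^ (2 * t) * ((2:ℝ) ^ (-t)) ^ i := by
    intro i
    rw [Real.div_rpow (by positivity) hN'.le, ← Real.rpow_natCast, ← Real.rpow_natCast,
      ← Real.rpow_natCast, ← Real.rpow_mul (by norm_num), ← Real.rpow_mul (by norm_num),
      ← Real.rpow_mul (by norm_num)]
    have e1 : (2:ℝ) ^ (-t * i) = 2 ^ ((t - 1) * i) * 2 ^ (i * (1 - 2 * t)) := by
      rw [← Real.rpow_add (by norm_num)]
      congr 1
      ring
    have e2 : (N : ℝ) ^ (2 * t) = N / (N : ℝ) ^ (1 - 2 * t) := by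
      rw [Real.rpow_sub hN', Real.rpow_one]
      field_simp
    rw [e1, e2]
    ring
  have s1 := (summable_geometric_of_lt_one hr0.le hr1).mul_left (6 * (N : ℝ) ^ (2 * t))
  calc En p (2 ^ (t - 1)) (trap P N) ≤ ∑' i : ℕ, 6 * (N : ℝ) ^ (2 * t) * ((2:ℝ) ^ (-t)) ^ i := by
        refine Summable.tsum_le_tsum (fun i => ?_) (summable_En (FS_trap hN) hp1 hp2 hw0 hw1) s1
        rw [← e i]
        exact mul_le_mul_of_nonneg_left (key i) (by positivity)
    _ = _ := by
        rw [tsum_mul_left, tsum_geometric_of_lt_one hr0.le hr1]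
        field_simp

end H555Z.Tr
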