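import Pool.Agent.H555Z.Tr.LpApi
import Pool.Agent.H555Z.Tr.Seq

set_option autoImplicit false

open Finset MeasureTheory
open scoped ENNReal

namespace H555Z.Tr

/-- index of the harmonic interval containing the fractional part -/
noncomputable def ix (x : ℝ) : ℕ := ⌊(Int.fract x)⁻¹⌋₊

/-- length of the harmonic intervals -/
noncomputable def mu (i : ℕ) : ℝ := 1 / ((i : ℝ) + 3) - 1 / ((i : ℝ) + 4)

/-- the function realising the Besov type energy -/
noncomputable def BB (q w : ℝ) (b : ℤ → ℝ) (x : ℝ) : ℝ :=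
  if 3 ≤ ix x then (w ^ (ix x - 3) / mu (ix x - 3)) ^ (1 / q) * (b ⌊x⌋ - b (⌊x⌋ - 2 ^ (ix x - 3)))
  else 0

lemma mu_pos (i : ℕ) : 0 < mu i := by
  unfold mu
  have : (0:ℝ) ≤ i := by positivity
  rw [sub_pos]
  exact one_div_lt_one_div_of_lt (by linarith) (by linarith)

lemma meas_ix : Measurable ix := Nat.measurable_floor.comp measurable_fract.inv

lemma ix_int (x : ℝ) (d : ℤ) : ix (x + d) = ix x := by
  unfold ix
  rw [Int.fract_add_intCast]

lemma meas_BB (q w : ℝ) (b : ℤ → ℝ) : Measurable (BB q w b) :=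
  (measurable_of_countable (fun z : ℕ × ℤ => if 3 ≤ z.1 then
    (w ^ (z.1 - 3) / mu (z.1 - 3)) ^ (1 / q) * (b z.2 - b (z.2 - 2 ^ (z.1 - 3))) else 0)).comp
    (meas_ix.prodMk Int.measurable_floor)

lemma ix_meas (i : ℕ) : P01 {x | ix x = i + 3} = ENNReal.ofReal (mu i) := by
  have mA : MeasurableSet {x | ix x = i + 3} := meas_ix (measurableSet_singleton _)
  rw [P01, Measure.restrict_apply mA]
  have hi : (0:ℝ) ≤ i := by positivity
  have e : {x | ix x = i + 3} ∩ Set.Ico 0 1 = Set.Ioc (1 / ((i : ℝ) + 4)) (1 / ((i : ℝ) + 3)) := by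
    ext x
    simp only [Set.mem_inter_iff, Set.mem_ofPred_eq, Set.mem_Ioc, ix]
    constructor
    · rintro ⟨h1, h2⟩
      rw [Int.fract_eq_self.2 h2, Nat.floor_eq_iff' (by omega)] at h1
      push_cast at h1
      have hx : 0 < x := by
        by_contra h
        have : x = 0 := le_antisymm (not_lt.1 h) h2.1
        rw [this, inv_zero] at h1
        linarith
      rw [one_div, one_div, inv_lt_comm₀ (by linarith) hx, le_inv_comm₀ hx (by linarith)]
      constructor <;> linarith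
    · rintro ⟨h1, h2⟩
      have hx : 0 < x := lt_trans (by positivity) h1
      have hx1 : x < 1 := lt_of_le_of_lt h2 (by rw [div_lt_one (by linarith)]; linarith)
      rw [Int.fract_eq_self.2 ⟨hx.le, hx1⟩, Nat.floor_eq_iff' (by omega)]
      rw [one_div, inv_lt_comm₀ (by linarith) hx] at h1
      rw [one_div, le_inv_comm₀ hx (by linarith)] at h2
      push_cast
      exact ⟨⟨h2, by linarith⟩, hx.le, hx1⟩
  rw [e, Real.volume_Ioc, mu]

lemma ofReal_en {E : Type*} [NormedAddCommGroup E] {q : ℝ} (hq : 0 < q) {c : ℤ → E} (hc : FS c) :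
    ∑' d, ENNReal.ofReal (‖c d‖ ^ q) = ENNReal.ofReal (en q c) :=
  (ENNReal.ofReal_tsum_of_nonneg (fun _ => by positivity) (hc.summable_pw hq)).symm

lemma lint_ind {A : Set ℝ} (hA : MeasurableSet A) (μ : Measure ℝ) :
    ∫⁻ x, A.indicator (fun _ => (1 : ℝ≥0∞)) x ∂μ = μ A := by
  rw [lintegral_indicator_const hA, one_mul]

lemma II_BB {q w : ℝ} (hq1 : 1 ≤ q) (hq2 : q ≤ 2) (hw0 : 0 < w) (hw1 : w < 1) {b : ℤ → ℝ}
    (hb : FS b) : II q volume (BB q w b) = ENNReal.ofReal (En q w b) := by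
  have hq : 0 < q := by linarith
  have mA : ∀ i : ℕ, MeasurableSet {x | ix x = i + 3} := fun i => meas_ix (measurableSet_singleton _)
  set V : ℕ → ℤ → ℝ≥0∞ := fun i d => ENNReal.ofReal (w ^ i / mu i) *
    ENNReal.ofReal (‖b d - b (d - 2 ^ i)‖ ^ q) with hV
  have e : ∀ x, ENNReal.ofReal (|BB q w b x| ^ q) =
      ∑' i : ℕ, {x | ix x = i + 3}.indicator (fun _ => (1 : ℝ≥0∞)) x * V i ⌊x⌋ := by
    intro x
    by_cases h : 3 ≤ ix x
    · rw [tsum_eq_single (ix x - 3)]
      · have h1 : x ∈ {y | ix y = ix x - 3 + 3} := by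
          simp only [Set.mem_ofPred_eq]
          omega
        have h2 : 0 < w ^ (ix x - 3) / mu (ix x - 3) := by
          have := mu_pos (ix x - 3)
          positivity
        rw [Set.indicator_of_mem h1, one_mul, hV, BB, if_pos h]
        beta_reduce
        rw [← ENNReal.ofReal_mul h2.le, abs_mul, Real.mul_rpow (abs_nonneg _) (abs_nonneg _),
          abs_of_nonneg (by positivity), ← Real.rpow_mul h2.le, one_div, inv_mul_cancel₀ hq.ne',
          Real.rpow_one, Real.norm_eq_abs]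
      · intro i hi
        have h1 : x ∉ {y | ix y = i + 3} := by
          simp only [Set.mem_ofPred_eq]
          omega
        rw [Set.indicator_of_notMem h1, zero_mul]
    · have : ∀ i : ℕ, {x | ix x = i + 3}.indicator (fun _ => (1 : ℝ≥0∞)) x * V i ⌊x⌋ = 0 := by
        intro i
        have h1 : x ∉ {y | ix y = i + 3} := by
          simp only [Set.mem_ofPred_eq]
          omega
        rw [Set.indicator_of_notMem h1, zero_mul]
      simp [this, BB, h, Real.zero_rpow hq.ne']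
  unfold II
  simp only [e]
  rw [lintegral_tsum (f := fun (i : ℕ) (x : ℝ) =>
    {x | ix x = i + 3}.indicator (fun _ => (1 : ℝ≥0∞)) x * V i ⌊x⌋)
    (fun i => ((measurable_const.indicator (mA i)).mul
    ((measurable_of_countable (V i)).comp Int.measurable_floor)).aemeasurable)]
  rw [En, ENNReal.ofReal_tsum_of_nonneg (fun i => mul_nonneg (by positivity) (en_nonneg _))
    (summable_En hb hq1 hq2 hw0 hw1)]
  congr 1
  ext i
  rw [tensor _ (measurable_const.indicator (mA i)) (fun x d => by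
    simp only [Set.indicator, Set.mem_ofPred_eq, ix_int]), lint_ind (mA i), ix_meas, hV]
  beta_reduce
  rw [ENNReal.tsum_mul_left, ofReal_en hq (hb.sub (hb.shift' _)), ← mul_assoc,
    ← ENNReal.ofReal_mul (mu_pos i).le, mul_div_cancel₀ _ (mu_pos i).ne',
    ← ENNReal.ofReal_mul (by positivity)]

lemma BB_lin {ι : Type*} (q w : ℝ) (s : Finset ι) (a : ι → ℝ) (b : ι → ℤ → ℝ) (x : ℝ) :
    BB q w (fun d => ∑ i ∈ s, a i * b i d) x = ∑ i ∈ s, a i * BB q w (b i) x := by
  unfold BB
  split_ifs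
  · rw [← sum_sub_distrib, mul_sum]
    apply sum_congr rfl
    intro i _
    ring
  · simp

lemma BB_shift (q w : ℝ) (n : ℤ) (x : ℝ) : BB q w (dl 0) (x - n) = BB q w (dl n) x := by
  unfold BB
  have e : ix (x - n) = ix x := by
    rw [← ix_int (x - n) n, sub_add_cancel]
  have e2 : ∀ d : ℤ, (dl 0 (d - n) : ℝ) = dl n d := by
    intro d
    simp only [dl, sub_eq_zero]
  rw [e, Int.floor_sub_intCast, e2, sub_right_comm, e2]

lemma BB_half (q w : ℝ) (b : ℤ → ℝ) {x : ℝ} (h : dg 1 2 x = 1) : BB q w b x = 0 := by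
  unfold BB
  rw [if_neg]
  intro h3
  rw [← dg_int 1 2 ⌊x⌋ x, Int.self_sub_floor] at h
  have h0 := Int.fract_nonneg x
  unfold ix at h3
  rw [Nat.le_floor_iff (by positivity)] at h3
  push_cast at h3
  have hx : 0 < Int.fract x := by
    by_contra h5
    have : Int.fract x = 0 := le_antisymm (not_lt.1 h5) h0
    rw [this, inv_zero] at h3
    linarith
  rw [le_inv_comm₀ (by norm_num) hx] at h3
  have : ⌊((2 * 1 : ℕ) : ℝ) * Int.fract x⌋ = 0 := by
    rw [Int.floor_eq_zero_iff]
    push_cast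
    constructor <;> linarith
  unfold dg at h
  rw [this] at h
  simp at h

lemma le_of_rpow_le {x y c q : ℝ} (hq : 1 ≤ q) (hc : 1 ≤ c) (hx : 0 ≤ x) (hy : 0 ≤ y)
    (h : x ^ q ≤ c * y ^ q) : x ≤ c * y := by
  rw [← Real.rpow_le_rpow_iff hx (by positivity) (show 0 < q by linarith),
    Real.mul_rpow (by linarith) hy]
  refine h.trans (mul_le_mul_of_nonneg_right ?_ (by positivity))
  calc c = c ^ (1:ℝ) := (Real.rpow_one c).symm
    _ ≤ _ := Real.rpow_le_rpow_of_exponent_le hc hq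

lemma le_of_rpow_le_sq {x y c q : ℝ} (hq : 1 ≤ q) (hq2 : q ≤ 2) (hc0 : 0 < c) (hc : c ≤ 1)
    (hx : 0 ≤ x) (hy : 0 ≤ y) (h : x ^ q ≤ c ^ 2 * y ^ q) : x ≤ c * y := by
  rw [← Real.rpow_le_rpow_iff hx (by positivity) (show 0 < q by linarith),
    Real.mul_rpow hc0.le hy]
  refine h.trans (mul_le_mul_of_nonneg_right ?_ (by positivity))
  rw [← Real.rpow_two]
  exact Real.rpow_le_rpow_of_exponent_ge hc0 hc hq2

end H555Z.Tr
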