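import Pool.Agent.H555Z.Tr.Chirp

set_option autoImplicit false

open Finset Real

namespace H555Z.Tr

/-- the twisted coefficient sequence -/
noncomputable def tw (L : ℕ) (m : ℤ) (b : ℤ → ℝ) (n : ℤ) : ℂ :=
  if m ≤ n ∧ n < m + L then (b n : ℂ) * (starRingEnd ℂ) (ch L (n - m)) else (b n : ℂ)

/-- difference of the chirp correlation -/
noncomputable def ker (L : ℕ) (m : ℤ) (g : ℤ → ℂ) (d : ℤ) : ℂ := conv L m g d - conv L m g (d - 1)

lemma FS_ker (L : ℕ) (m : ℤ) {g : ℤ → ℂ} (hg : FS g) : FS (ker L m g) :=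
  (FS_conv L m hg).sub ((FS_conv L m hg).shift' 1)

lemma FS_tw (L : ℕ) (m : ℤ) {b : ℤ → ℝ} (hb : FS b) : FS (tw L m b) :=
  hb.mono (fun d hd => by unfold tw; split_ifs <;> simp [hd])

lemma conv_sum (L : ℕ) (m : ℤ) {g : ℤ → ℂ} (s : Finset ℤ) (hs : ∀ d, d ∉ s → g d = 0) (d : ℤ) :
    ∑ n ∈ s, g n * conv L m (dl 0) (d - n) = conv L m g d := by
  unfold conv
  simp only [mul_sum]
  rw [sum_comm]
  apply sum_congr rfl
  intro t _
  rw [sum_eq_single (d + m + t)]
  · have : d - (d + m + t) + m + t = 0 := by ring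
    simp only [dl, this, if_true]
    ring
  · intro n _ hn
    have : d - n + m + t ≠ 0 := by omega
    simp [dl, this]
  · intro h
    simp [hs _ h]

lemma ker_sum (L : ℕ) (m : ℤ) {g : ℤ → ℂ} (s : Finset ℤ) (hs : ∀ d, d ∉ s → g d = 0) (d : ℤ) :
    ∑ n ∈ s, g n * ker L m (dl 0) (d - n) = ker L m g d := by
  unfold ker
  simp only [mul_sub, sum_sub_distrib]
  rw [conv_sum L m s hs, ← conv_sum L m s hs (d - 1)]
  congr 1
  apply sum_congr rfl
  intro n _
  rw [show d - n - 1 = d - 1 - n by ring]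

lemma en_ofReal {p : ℝ} (b : ℤ → ℝ) : en p (fun d => (b d : ℂ)) = en p b := by
  simp [en]

lemma poincare {p : ℝ} (hp1 : 1 ≤ p) (hp2 : p ≤ 2) (b : ℤ → ℝ) (L : ℕ) (m : ℤ) :
    ∑ n ∈ Ico m (m + L), |b n - b m| ^ p ≤
      (L : ℝ) ^ 2 * ∑ n ∈ Ico m (m + L), |b n - b (n - 1)| ^ p := by
  have hp : 0 < p := by linarith
  set S := ∑ n ∈ Ico m (m + L), |b n - b (n - 1)| with hS
  have h1 : ∀ j : ℕ, |b (m + j) - b m| ≤ ∑ n ∈ Ioc m (m + j), |b n - b (n - 1)| := by
    intro j
    induction j with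
    | zero => simp
    | succ j ih =>
      have e : Ioc m (m + ((j + 1 : ℕ) : ℤ)) = insert (m + j + 1) (Ioc m (m + j)) := by
        ext n
        simp only [mem_Ioc, mem_insert]
        push_cast
        omega
      rw [e, sum_insert (by rw [mem_Ioc]; omega)]
      have := abs_add_le (b (m + j + 1) - b (m + j + 1 - 1)) (b (m + j) - b m)
      have e2 : m + (j : ℤ) + 1 - 1 = m + j := by ring
      rw [e2] at this ⊢
      push_cast
      rw [← add_assoc]
      have e3 : b (m + j + 1) - b (m + j) + (b (m + j) - b m) = b (m + j + 1) - b m := by ring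
      rw [e3] at this
      linarith
  have h2 : ∀ n ∈ Ico m (m + L), |b n - b m| ^ p ≤ S ^ p := by
    intro n hn
    rw [mem_Ico] at hn
    apply Real.rpow_le_rpow (abs_nonneg _) _ hp.le
    have := h1 (n - m).toNat
    have e : m + ((n - m).toNat : ℤ) = n := by omega
    rw [e] at this
    refine this.trans (sum_le_sum_of_subset_of_nonneg ?_ (fun _ _ _ => abs_nonneg _))
    intro k hk
    rw [mem_Ioc] at hk
    rw [mem_Ico]
    omega
  have h3 : S ^ p ≤ (L : ℝ) ^ (p - 1) * ∑ n ∈ Ico m (m + L), |b n - b (n - 1)| ^ p := by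
    have := Real.rpow_sum_le_const_mul_sum_rpow_of_nonneg (s := Ico m (m + L))
      (f := fun n => |b n - b (n - 1)|) hp1 (fun _ _ => abs_nonneg _)
    simpa using this
  have h4 := sum_le_card_nsmul _ _ _ h2
  rw [nsmul_eq_mul] at h4
  have h5 : ((Ico m (m + L)).card : ℝ) = L := by simp
  rw [h5] at h4
  have hT : 0 ≤ ∑ n ∈ Ico m (m + L), |b n - b (n - 1)| ^ p := sum_nonneg (fun _ _ => by positivity)
  rcases Nat.eq_zero_or_pos L with h0 | h0
  · subst h0
    simp
  have hL : (1:ℝ) ≤ L := by exact_mod_cast h0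
  have h6 : (L : ℝ) ^ (p - 1) ≤ L := by
    calc _ ≤ (L : ℝ) ^ (1:ℝ) := Real.rpow_le_rpow_of_exponent_le hL (by linarith)
      _ = L := Real.rpow_one _
  calc _ ≤ L * S ^ p := h4
    _ ≤ L * (L * ∑ n ∈ Ico m (m + L), |b n - b (n - 1)| ^ p) := by
        apply mul_le_mul_of_nonneg_left _ (by linarith)
        exact h3.trans (mul_le_mul_of_nonneg_right h6 hT)
    _ = _ := by ring

/-- the error sequence of one block -/
noncomputable def berr (L : ℕ) (m : ℤ) (b : ℤ → ℝ) (d : ℤ) : ℂ :=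
  ker L m (tw L m b) d - (b m : ℂ) * (dl 0 d - dl 1 d)

lemma FS_berr (L : ℕ) (m : ℤ) {b : ℤ → ℝ} (hb : FS b) : FS (berr L m b) :=
  (FS_ker L m (FS_tw L m hb)).sub (((FS_dl (E := ℂ) 0).sub (FS_dl 1)).mono
    (fun d hd => by rw [hd, mul_zero]))

lemma block_one {p w C s : ℝ} (hp1 : 1 ≤ p) (hp2 : p ≤ 2) (hw0 : 1 / 2 < w) (hw1 : w < 1)
    (hs : 0 < s) (hC : 1 ≤ C) {L : ℕ} (hL : 0 < L)
    (h1 : en p (fun d => ac L d - dl 0 d) ≤ C * (L : ℝ) ^ (-s))
    (h2 : ∀ (m : ℤ) (g : ℤ → ℂ), FS g → en p (conv L m g) ≤ C * (L : ℝ) ^ (-s) * en p g)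
    {b : ℤ → ℝ} (hb : FS b) (m : ℤ) :
    en p (berr L m b) ≤ 22 * C * CH w * (L : ℝ) ^ (-s) * En p w b
      + 16 * C * (L : ℝ) ^ 2 * ∑ n ∈ Ico m (m + L), |b n - b (n - 1)| ^ p := by
  have hp : 0 < p := by linarith
  have hw : 0 < w := by linarith
  set g1 : ℤ → ℂ := fun n => if m ≤ n ∧ n < m + L then 0 else (b n : ℂ) with hg1
  set g2 : ℤ → ℂ := fun n => ((b n - b m : ℝ) : ℂ) * (starRingEnd ℂ) (kap L (n - m)) with hg2
  have f1 : FS g1 := hb.mono (fun d hd => by simp [hg1, hd])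
  have f2 : FS g2 := ((FS_kap L).shift' m).mono (fun d hd => by simp [hg2, hd])
  have f3 : FS (fun d => ac L d - dl 0 d) := (FS_ac L).sub (FS_dl 0)
  have etw : ∀ n, tw L m b n = g1 n + g2 n + (b m : ℂ) * (starRingEnd ℂ) (kap L (n - m)) := by
    intro n
    by_cases h : m ≤ n ∧ n < m + L
    · have h' : 0 ≤ n - m ∧ n - m < L := by omega
      simp only [tw, hg1, hg2, kap, h, h', and_self, if_true]
      push_cast
      ring
    · have h' : ¬ (0 ≤ n - m ∧ n - m < L) := by omega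
      simp only [tw, hg1, hg2, kap, h, h', if_false]
      simp
  have econv : ∀ d, conv L m (tw L m b) d = conv L m g1 d + conv L m g2 d + (b m : ℂ) * ac L d := by
    intro d
    unfold conv ac
    simp only [etw, add_mul, sum_add_distrib, mul_add, mul_sum]
    congr 1
    apply sum_congr rfl
    intro t _
    rw [show d + m + t - m = d + t by ring]
    ring
  have e : berr L m b = fun d => conv L m (fun n => g1 n - g1 (n - 1)) d +
      ((conv L m g2 d - conv L m g2 (d - 1)) + (b m : ℂ) * ((ac L d - dl 0 d) -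
        (ac L (d - 1) - dl 0 (d - 1)))) := by
    ext d
    have e1 : conv L m (fun n => g1 n - g1 (n - 1)) d = conv L m g1 d - conv L m g1 (d - 1) := by
      unfold conv
      rw [← mul_sub, ← sum_sub_distrib]
      congr 1
      apply sum_congr rfl
      intro t _
      beta_reduce
      rw [show d + m + t - 1 = d - 1 + m + t by ring]
      ring
    have e2 : (dl 0 (d - 1) : ℂ) = dl 1 d := by
      unfold dl
      by_cases h : d = 1
      · simp [h]
      · have : d - 1 ≠ 0 := by omega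
        simp [h, this]
    rw [e1, e2, berr, ker, econv, econv]
    ring
  have f1' : FS (fun n => g1 n - g1 (n - 1)) := f1.sub (f1.shift' 1)
  have f4 : FS (fun d => conv L m g2 d - conv L m g2 (d - 1)) :=
    (FS_conv L m f2).sub ((FS_conv L m f2).shift' 1)
  have f5 : FS (fun d => (b m : ℂ) * ((ac L d - dl 0 d) - (ac L (d - 1) - dl 0 (d - 1)))) :=
    (f3.sub (f3.shift' 1)).mono (fun d hd => by rw [hd, mul_zero])
  have hLs : 0 ≤ (L : ℝ) ^ (-s) := by positivity
  have hLs1 : (L : ℝ) ^ (-s) ≤ 1 :=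
    Real.rpow_le_one_of_one_le_of_nonpos (by exact_mod_cast hL) (by linarith)
  have hE : 0 ≤ En p w b := En_nonneg hw
  have hCH := CH_ge hw0
  have hsup := sup_le_En hb hp1 hp2 hw0 hw1
  have hdiff := diff_le_En hb hp1 hp2 hw hw1
  have a1 : en p (fun n => g1 n - g1 (n - 1)) ≤ 3 * CH w * En p w b := by
    have k1 := (hb.sub (hb.shift' 1)).pw hp
    have k2 : FS (fun d => if d = m then |b (m - 1)| ^ p else 0) :=
      FS.of_finset {m} (fun d hd => by simp [show d ≠ m from by simpa using hd])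
    have k3 : FS (fun d => if d = m + L then |b (m + L)| ^ p else 0) :=
      FS.of_finset {m + L} (fun d hd => by simp [show d ≠ m + L from by simpa using hd])
    refine (en_le_tsum f1' hp ((k1.add k2).add k3) (fun d => ?_)).trans ?_
    · have n1 : 0 ≤ ‖b d - b (d - 1)‖ ^ p := by positivity
      have n2 : 0 ≤ (if d = m then |b (m - 1)| ^ p else 0) := by split_ifs <;> positivity
      have n3 : 0 ≤ (if d = m + L then |b (m + L)| ^ p else 0) := by split_ifs <;> positivity
      by_cases c1 : m ≤ d ∧ d < m + L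
      · by_cases c2 : m ≤ d - 1 ∧ d - 1 < m + L
        · simp only [hg1, c1, c2, and_self, if_true, sub_zero, norm_zero, Real.zero_rpow hp.ne']
          linarith
        · have c3 : d = m := by omega
          simp only [hg1, c1, c2, and_self, if_true, if_false, zero_sub, norm_neg,
            Complex.norm_real, Real.norm_eq_abs] at n1 ⊢
          rw [if_pos c3] at n2 ⊢
          rw [c3] at n1 n3 ⊢
          linarith
      · by_cases c2 : m ≤ d - 1 ∧ d - 1 < m + L
        · have c3 : d = m + L := by omega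
          simp only [hg1, c1, c2, and_self, if_true, if_false, sub_zero,
            Complex.norm_real, Real.norm_eq_abs] at n1 ⊢
          rw [if_pos c3] at n3 ⊢
          rw [c3] at n1 n2 ⊢
          linarith
        · simp only [hg1, c1, c2, if_false]
          rw [← Complex.ofReal_sub, Complex.norm_real]
          linarith
    · rw [(k1.add k2).summable.tsum_add k3.summable, k1.summable.tsum_add k2.summable]
      rw [tsum_ite_eq, tsum_ite_eq]
      have := hsup (m - 1)
      have := hsup (m + L)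
      unfold en at hdiff
      nlinarith
  have a2 : en p g2 = ∑ n ∈ Ico m (m + L), |b n - b m| ^ p := by
    rw [en_eq_sum hp (Ico m (m + L)) (fun d hd => by
      rw [mem_Ico] at hd
      have h' : ¬ (0 ≤ d - m ∧ d - m < L) := by omega
      simp only [hg2, kap, h', if_false]
      simp)]
    apply sum_congr rfl
    intro n hn
    rw [mem_Ico] at hn
    have h' : 0 ≤ n - m ∧ n - m < L := by omega
    simp only [hg2, kap, h', and_self, if_true, norm_mul, Complex.norm_real, Complex.norm_conj,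
      norm_ch, mul_one, Real.norm_eq_abs]
  have a3 := poincare hp1 hp2 b L m
  set T := ∑ n ∈ Ico m (m + L), |b n - b (n - 1)| ^ p with hT
  have hT0 : 0 ≤ T := sum_nonneg (fun _ _ => by positivity)
  have b1 : en p (conv L m (fun n => g1 n - g1 (n - 1))) ≤
      C * (L : ℝ) ^ (-s) * (3 * CH w * En p w b) :=
    (h2 m _ f1').trans (mul_le_mul_of_nonneg_left a1 (by positivity))
  have b2 : en p (fun d => conv L m g2 d - conv L m g2 (d - 1)) ≤ 4 * (C * ((L : ℝ) ^ 2 * T)) := by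
    refine (en_diff_le (FS_conv L m f2) hp1 hp2 1).trans ?_
    apply mul_le_mul_of_nonneg_left _ (by norm_num)
    refine (h2 m _ f2).trans ?_
    rw [a2, mul_assoc]
    apply mul_le_mul_of_nonneg_left _ (by linarith)
    have : 0 ≤ ∑ n ∈ Ico m (m + L), |b n - b m| ^ p := sum_nonneg (fun _ _ => by positivity)
    nlinarith
  have b3 : en p (fun d => (b m : ℂ) * ((ac L d - dl 0 d) - (ac L (d - 1) - dl 0 (d - 1)))) ≤
      (CH w * En p w b) * (4 * (C * (L : ℝ) ^ (-s))) := by
    rw [en_const_mul, Complex.norm_real, Real.norm_eq_abs]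
    apply mul_le_mul (hsup m) _ (en_nonneg _) (by positivity)
    exact (en_diff_le f3 hp1 hp2 1).trans (by linarith)
  rw [e]
  have c1 := en_add_le (FS_conv L m f1') (f4.add f5) hp1 hp2
  have c2 := en_add_le f4 f5 hp1 hp2
  have c3 : 22 * C * CH w * (L : ℝ) ^ (-s) * En p w b + 16 * C * (L : ℝ) ^ 2 * T =
      2 * (C * (L : ℝ) ^ (-s) * (3 * CH w * En p w b)) + 2 * (2 * (4 * (C * ((L : ℝ) ^ 2 * T)))
        + 2 * ((CH w * En p w b) * (4 * (C * (L : ℝ) ^ (-s))))) := by ring
  rw [c3]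
  linarith

theorem block_avg {p w C s : ℝ} (hp1 : 1 ≤ p) (hp2 : p ≤ 2) (hw0 : 1 / 2 < w) (hw1 : w < 1)
    (hs : 0 < s) (hs1 : s ≤ 1) (hC : 1 ≤ C) {L : ℕ} (hL : 0 < L)
    (h1 : en p (fun d => ac L d - dl 0 d) ≤ C * (L : ℝ) ^ (-s))
    (h2 : ∀ (m : ℤ) (g : ℤ → ℂ), FS g → en p (conv L m g) ≤ C * (L : ℝ) ^ (-s) * en p g)
    {b : ℤ → ℝ} (hb : FS b) (m0 : ℤ) :
    ∑ i ∈ range (L ^ 4), en p (berr L (m0 + i * L) b) ≤
      (L : ℝ) ^ 4 * (38 * C * CH w * (L : ℝ) ^ (-s) * En p w b) := by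
  have hp : 0 < p := by linarith
  have hw : 0 < w := by linarith
  refine (sum_le_sum (fun (i : ℕ) _ => block_one hp1 hp2 hw0 hw1 hs hC hL h1 h2 hb (m0 + i * L))).trans ?_
  rw [sum_add_distrib, sum_const, card_range, ← mul_sum, nsmul_eq_mul]
  have k : ∑ i ∈ range (L ^ 4), ∑ n ∈ Ico (m0 + i * L) (m0 + i * L + L), |b n - b (n - 1)| ^ p
      ≤ En p w b := by
    rw [← sum_biUnion]
    · refine le_trans ?_ (diff_le_En hb hp1 hp2 hw hw1)
      exact sum_le_en (hb.sub (hb.shift' 1)) hp _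
    · intro i _ j _ hij
      simp only [Function.onFun]
      rw [disjoint_left]
      intro n h3 h4
      rw [mem_Ico] at h3 h4
      rcases lt_or_gt_of_ne hij with h | h
      · have : ((i : ℤ) + 1) * L ≤ j * L := by
          apply mul_le_mul_of_nonneg_right _ (by positivity)
          exact_mod_cast h
        linarith
      · have : ((j : ℤ) + 1) * L ≤ i * L := by
          apply mul_le_mul_of_nonneg_right _ (by positivity)
          exact_mod_cast h
        linarith
  have hL1 : (1:ℝ) ≤ L := by exact_mod_cast hL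
  have hL0 : (0:ℝ) < L := by linarith
  have hE : 0 ≤ En p w b := En_nonneg hw
  have hCH := CH_ge hw0
  have k2 : (L : ℝ) ^ 2 ≤ (L : ℝ) ^ 4 * (L : ℝ) ^ (-s) := by
    have : (L : ℝ) ^ (-(1:ℝ)) ≤ (L : ℝ) ^ (-s) := Real.rpow_le_rpow_of_exponent_le hL1 (by linarith)
    rw [Real.rpow_neg_one] at this
    calc (L : ℝ) ^ 2 ≤ (L : ℝ) ^ 3 := pow_le_pow_right₀ hL1 (by norm_num)
      _ = (L : ℝ) ^ 4 * (L : ℝ)⁻¹ := by field_simp
      _ ≤ _ := mul_le_mul_of_nonneg_left this (by positivity)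
  have k3 : 16 * C * (L : ℝ) ^ 2 * ∑ i ∈ range (L ^ 4),
      ∑ n ∈ Ico (m0 + i * L) (m0 + i * L + L), |b n - b (n - 1)| ^ p ≤
      16 * C * ((L : ℝ) ^ 4 * (L : ℝ) ^ (-s) * CH w) * En p w b := by
    apply mul_le_mul _ k (sum_nonneg (fun _ _ => sum_nonneg (fun _ _ => by positivity)))
      (by positivity)
    apply mul_le_mul_of_nonneg_left _ (by positivity)
    have : 0 ≤ (L : ℝ) ^ 4 * (L : ℝ) ^ (-s) := by positivity
    nlinarith
  push_cast
  nlinarith

lemma en_ker_dl {p C s : ℝ} (hp1 : 1 ≤ p) (hp2 : p ≤ 2) {L : ℕ}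
    (h2 : ∀ (m : ℤ) (g : ℤ → ℂ), FS g → en p (conv L m g) ≤ C * (L : ℝ) ^ (-s) * en p g) (m : ℤ) :
    en p (ker L m (dl 0)) ≤ 4 * C * (L : ℝ) ^ (-s) := by
  have := en_diff_le (FS_conv L m (FS_dl 0)) hp1 hp2 1
  have h3 := h2 m _ (FS_dl 0)
  rw [en_dl (by linarith), mul_one] at h3
  unfold ker
  linarith

end H555Z.Tr
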