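import Pool.Agent.H555Z.Tr.Seq

set_option autoImplicit false

open Finset Real

namespace H555Z.Tr

/-- the unimodular exponential -/
noncomputable def ex (x : ℝ) : ℂ := Complex.exp (Complex.I * x)

lemma ex_add (x y : ℝ) : ex (x + y) = ex x * ex y := by
  unfold ex
  rw [← Complex.exp_add]
  congr 1
  push_cast
  ring

lemma norm_ex (x : ℝ) : ‖ex x‖ = 1 := Complex.norm_exp_I_mul_ofReal x

lemma conj_ex (x : ℝ) : (starRingEnd ℂ) (ex x) = ex (-x) := by
  unfold ex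
  rw [← Complex.exp_conj]
  congr 1
  simp

lemma ex_zero : ex 0 = 1 := by simp [ex]

lemma ex_int (k : ℤ) : ex (2 * π * k) = 1 := by
  unfold ex
  rw [← Complex.exp_int_mul_two_pi_mul_I k]
  congr 1
  push_cast
  ring

lemma ex_pow (x : ℝ) (n : ℕ) : ex x ^ n = ex (n * x) := by
  unfold ex
  rw [← Complex.exp_nat_mul]
  congr 1
  push_cast
  ring

lemma ex_re (x : ℝ) : (ex x).re = cos x := by
  unfold ex
  rw [mul_comm, Complex.exp_ofReal_mul_I_re]

lemma norm_ex_sub_one_le (x : ℝ) : ‖ex x - 1‖ ≤ |x| := Real.norm_exp_I_mul_ofReal_sub_one_le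

lemma norm_ex_sub_one_le_two (x : ℝ) : ‖ex x - 1‖ ≤ 2 := by
  refine (norm_sub_le _ _).trans ?_
  rw [norm_ex]
  norm_num

lemma norm_ex_sub_one_ge {x : ℝ} (h0 : 0 ≤ x) (h1 : x ≤ π) : 2 / π * x ≤ ‖ex x - 1‖ := by
  unfold ex
  rw [Complex.norm_exp_I_mul_ofReal_sub_one, Real.norm_eq_abs]
  have := Real.mul_le_sin (x := x / 2) (by linarith) (by linarith)
  refine le_trans ?_ (le_abs_self _)
  linarith

/-- the chirp -/
noncomputable def ch (L : ℕ) (t : ℤ) : ℂ := ex (π * (t : ℝ) ^ 2 / L)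

/-- the chirp cut to a window -/
noncomputable def kap (L : ℕ) (t : ℤ) : ℂ := if 0 ≤ t ∧ t < L then ch L t else 0

/-- correlation with the chirp -/
noncomputable def conv (L : ℕ) (m : ℤ) (g : ℤ → ℂ) (d : ℤ) : ℂ :=
  (L : ℂ)⁻¹ * ∑ t ∈ range L, g (d + m + t) * ch L t

/-- aperiodic autocorrelation of the chirp -/
noncomputable def ac (L : ℕ) (j : ℤ) : ℂ :=
  (L : ℂ)⁻¹ * ∑ t ∈ range L, (starRingEnd ℂ) (kap L (j + t)) * ch L t

lemma norm_ch (L : ℕ) (t : ℤ) : ‖ch L t‖ = 1 := norm_ex _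

lemma ac_zero {L : ℕ} (hL : 0 < L) : ac L 0 = 1 := by
  unfold ac
  have : ∀ t ∈ range L, (starRingEnd ℂ) (kap L (0 + t)) * ch L t = 1 := by
    intro t ht
    rw [mem_range] at ht
    have h : (0:ℤ) ≤ 0 + t ∧ (0:ℤ) + t < L := by omega
    rw [kap, if_pos h, zero_add, ch, conj_ex, ← ex_add, neg_add_cancel, ex_zero]
 
  rw [sum_congr rfl this]
  have hLc : (L : ℂ) ≠ 0 := by exact_mod_cast hL.ne'
  simp [hLc]

lemma ac_far {L : ℕ} {j : ℤ} (h : j ∉ Ioo (-(L : ℤ)) L) : ac L j = 0 := by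
  unfold ac
  rw [mem_Ioo] at h
  rw [sum_eq_zero, mul_zero]
  intro t ht
  rw [mem_range] at ht
  have h : ¬ ((0:ℤ) ≤ j + t ∧ j + t < L) := by omega
  rw [kap, if_neg h]
  simp

lemma geo_bound {L e : ℕ} (he0 : 0 < e) (heL : e < L) :
    ‖∑ t ∈ range (L - e), ex (-(2 * π * e / L)) ^ t‖ ≤
      L * min (1 / ((min e (L - e) : ℕ) : ℝ)) (2 * ((min e (L - e) : ℕ) : ℝ) / L) := by
  set μ : ℕ := min e (L - e) with hμ
  have hμ0 : 0 < μ := by omega
  have hμ2 : 2 * μ ≤ L := by omega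
  have hL : (0:ℝ) < L := by exact_mod_cast (show 0 < L by omega)
  have hμ' : (0:ℝ) < μ := by exact_mod_cast hμ0
  have hμ2' : 2 * (μ : ℝ) ≤ L := by exact_mod_cast hμ2
  have hden : 4 * μ / L ≤ ‖ex (-(2 * π * e / L)) - 1‖ := by
    have h1 : ‖ex (-(2 * π * e / L)) - 1‖ = ‖ex (2 * π * μ / L) - 1‖ := by
      rcases le_total e (L - e) with h | h
      · have : μ = e := by omega
        rw [this, ← conj_ex, ← Complex.norm_conj (ex (2 * π * e / L) - 1)]
        simp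
      · have : (μ : ℝ) = L - e := by
          have : μ = L - e := by omega
          rw [this, Nat.cast_sub heL.le]
        rw [this]
        have e1 : 2 * π * ((L : ℝ) - e) / L = -(2 * π * e / L) + 2 * π * ((1 : ℤ) : ℝ) := by
          field_simp
          push_cast
          ring
        rw [e1, ex_add, ex_int, mul_one]
    rw [h1]
    refine le_trans (le_of_eq ?_) (norm_ex_sub_one_ge (by positivity) ?_)
    · field_simp
      ring
    · rw [div_le_iff₀ hL]
      nlinarith [pi_pos]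
  have hden0 : 0 < ‖ex (-(2 * π * e / L)) - 1‖ := lt_of_lt_of_le (by positivity) hden
  have hne : ex (-(2 * π * e / L)) ≠ 1 := by
    intro h
    rw [h] at hden0
    simp at hden0
  rw [geom_sum_eq hne, norm_div, ex_pow]
  have hnum : ex (((L - e : ℕ) : ℝ) * -(2 * π * e / L)) = ex (2 * π * (μ : ℝ) ^ 2 / L) := by
    have h1 : ((L - e : ℕ) : ℝ) * e = (L - μ) * μ := by
      rcases le_total e (L - e) with h | h
      · have : μ = e := by omega
        rw [this, Nat.cast_sub heL.le]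
      · have : μ = L - e := by omega
        rw [this, Nat.cast_sub heL.le]
        ring
    have e1 : ((L - e : ℕ) : ℝ) * -(2 * π * e / L)
        = 2 * π * (μ : ℝ) ^ 2 / L + 2 * π * ((-(μ : ℤ) : ℤ) : ℝ) := by
      have : ((L - e : ℕ) : ℝ) * -(2 * π * e / L) = -(2 * π * (((L - e : ℕ) : ℝ) * e) / L) := by
        ring
      rw [this, h1]
      push_cast
      field_simp
      ring
    rw [e1, ex_add, ex_int, mul_one]
  rw [hnum, div_le_iff₀ hden0]
  have n1 := norm_ex_sub_one_le_two (2 * π * (μ : ℝ) ^ 2 / L)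
  have n2 := norm_ex_sub_one_le (2 * π * (μ : ℝ) ^ 2 / L)
  rw [abs_of_nonneg (by positivity)] at n2
  rcases le_total (1 / (μ : ℝ)) (2 * μ / L) with h | h
  · rw [min_eq_left h]
    calc _ ≤ 2 := n1
      _ ≤ L * (1 / (μ : ℝ)) * (4 * μ / L) := by
          have : L * (1 / (μ : ℝ)) * (4 * μ / L) = 4 := by field_simp
          rw [this]; norm_num
      _ ≤ _ := mul_le_mul_of_nonneg_left hden (by positivity)
  · rw [min_eq_right h]
    calc _ ≤ 2 * π * (μ : ℝ) ^ 2 / L := n2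
      _ ≤ L * (2 * μ / L) * (4 * μ / L) := by
          have : L * (2 * (μ : ℝ) / L) * (4 * μ / L) = 8 * (μ : ℝ) ^ 2 / L := by
            field_simp
            ring
          rw [this]
          apply div_le_div_of_nonneg_right _ hL.le
          nlinarith [pi_le_four, sq_nonneg (μ : ℝ)]
      _ ≤ _ := mul_le_mul_of_nonneg_left hden (by positivity)

lemma ac_pos_eq {L e : ℕ} (heL : e < L) : ‖ac L e‖ =
    ‖∑ t ∈ range (L - e), ex (-(2 * π * e / L)) ^ t‖ / L := by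
  have hL : (0:ℝ) < L := by exact_mod_cast (show 0 < L by omega)
  unfold ac
  rw [norm_mul, norm_inv, Complex.norm_natCast, inv_mul_eq_div]
  congr 1
  have h1 : ∑ t ∈ range L, (starRingEnd ℂ) (kap L (e + t)) * ch L t
      = ∑ t ∈ range (L - e), ex (-(π * (e : ℝ) ^ 2 / L)) * ex (-(2 * π * e / L)) ^ t := by
    symm
    apply sum_subset_zero_on_sdiff
    · intro t ht
      rw [mem_range] at ht ⊢
      omega
    · intro t ht
      rw [mem_sdiff, mem_range, mem_range] at ht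
      have h : ¬ ((0:ℤ) ≤ e + t ∧ (e : ℤ) + t < L) := by omega
      rw [kap, if_neg h]
      simp
    · intro t ht
      rw [mem_range] at ht
      have h : ((0:ℤ) ≤ e + t ∧ (e : ℤ) + t < L) := by omega
      rw [kap, if_pos h, ch, ch, conj_ex, ex_pow, ← ex_add, ← ex_add]
      congr 1
      push_cast
      field_simp
      ring
  rw [h1, ← mul_sum, norm_mul, norm_ex, one_mul]

lemma ac_neg_eq {L e : ℕ} (heL : e < L) : ‖ac L (-(e : ℤ))‖ = ‖ac L e‖ := by
  rw [← Complex.norm_conj (ac L e)]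
  congr 1
  unfold ac
  rw [map_mul, map_sum]
  congr 1
  · simp
  have h1 : ∑ t ∈ range L, (starRingEnd ℂ) (kap L (-(e : ℤ) + t)) * ch L t
      = ∑ t ∈ Ico e L, (starRingEnd ℂ) (ch L (-(e : ℤ) + t)) * ch L t := by
    symm
    apply sum_subset_zero_on_sdiff
    · intro t ht
      rw [mem_Ico] at ht
      rw [mem_range]
      omega
    · intro t ht
      rw [mem_sdiff, mem_range, mem_Ico] at ht
      have h : ¬ ((0:ℤ) ≤ -(e : ℤ) + t ∧ -(e : ℤ) + t < L) := by omega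
      rw [kap, if_neg h]
      simp
    · intro t ht
      rw [mem_Ico] at ht
      have h : ((0:ℤ) ≤ -(e : ℤ) + t ∧ -(e : ℤ) + t < L) := by omega
      rw [kap, if_pos h]
  have h2 : ∑ t ∈ range L, (starRingEnd ℂ) ((starRingEnd ℂ) (kap L (e + t)) * ch L t)
      = ∑ t ∈ range (L - e), (starRingEnd ℂ) (ch L t) * ch L (e + t) := by
    symm
    apply sum_subset_zero_on_sdiff
    · intro t ht
      rw [mem_range] at ht ⊢
      omega
    · intro t ht
      rw [mem_sdiff, mem_range, mem_range] at ht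
      have h : ¬ ((0:ℤ) ≤ e + t ∧ (e : ℤ) + t < L) := by omega
      rw [kap, if_neg h]
      simp
    · intro t ht
      rw [mem_range] at ht
      have h : ((0:ℤ) ≤ e + t ∧ (e : ℤ) + t < L) := by omega
      rw [kap, if_pos h, map_mul, Complex.conj_conj, mul_comm]
  rw [h1, h2, sum_Ico_eq_sum_range]
  apply sum_congr rfl
  intro t _
  push_cast
  rw [show -(e : ℤ) + (e + t) = t by ring]

lemma ac_bound {L : ℕ} {j : ℤ} (hj : j ∈ (Ioo (-(L : ℤ)) L).erase 0) :
    ‖ac L j‖ ≤ min (1 / ((min j.natAbs (L - j.natAbs) : ℕ) : ℝ))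
      (2 * ((min j.natAbs (L - j.natAbs) : ℕ) : ℝ) / L) := by
  rw [mem_erase, mem_Ioo] at hj
  obtain ⟨e, rfl | rfl⟩ := Int.eq_nat_or_neg j
  · have he0 : 0 < e := by omega
    have heL : e < L := by omega
    have hL : (0:ℝ) < L := by exact_mod_cast (show 0 < L by omega)
    rw [Int.natAbs_natCast, ac_pos_eq heL, div_le_iff₀ hL]
    exact (geo_bound he0 heL).trans (le_of_eq (mul_comm _ _))
  · have he0 : 0 < e := by omega
    have heL : e < L := by omega
    have hL : (0:ℝ) < L := by exact_mod_cast (show 0 < L by omega)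
    rw [Int.natAbs_neg, Int.natAbs_natCast, ac_neg_eq heL, ac_pos_eq heL, div_le_iff₀ hL]
    exact (geo_bound he0 heL).trans (le_of_eq (mul_comm _ _))

lemma sum_natAbs_le (L : ℕ) (F : ℕ → ℝ) (hF : ∀ e, 0 ≤ F e) (hs : Summable F) :
    ∑ j ∈ (Ioo (-(L : ℤ)) L).erase 0, F (min j.natAbs (L - j.natAbs)) ≤ 4 * ∑' e, F e := by
  have h1 : ∑ j ∈ (Ioo (-(L : ℤ)) L).erase 0, F (min j.natAbs (L - j.natAbs)) ≤
      2 * ∑ e ∈ range L, F (min e (L - e)) := by
    have hsub : (Ioo (-(L : ℤ)) L).erase 0 ⊆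
        (range L).image (fun e : ℕ => (e : ℤ)) ∪ (range L).image (fun e : ℕ => -(e : ℤ)) := by
      intro j hj
      rw [mem_erase, mem_Ioo] at hj
      rw [mem_union, mem_image, mem_image]
      rcases Int.natAbs_eq j with h | h
      · exact Or.inl ⟨j.natAbs, by rw [mem_range]; omega, h.symm⟩
      · exact Or.inr ⟨j.natAbs, by rw [mem_range]; omega, h.symm⟩
    refine (sum_le_sum_of_subset_of_nonneg hsub (fun _ _ _ => hF _)).trans ?_
    have := sum_union_inter (s₁ := (range L).image (fun e : ℕ => (e : ℤ)))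
      (s₂ := (range L).image (fun e : ℕ => -(e : ℤ)))
      (f := fun j : ℤ => F (min j.natAbs (L - j.natAbs)))
    rw [sum_image (fun a _ b _ h => by simpa using h),
      sum_image (fun a _ b _ h => by simpa using h)] at this
    simp only [Int.natAbs_natCast, Int.natAbs_neg] at this
    have h0 : 0 ≤ ∑ j ∈ (range L).image (fun e : ℕ => (e : ℤ)) ∩
        (range L).image (fun e : ℕ => -(e : ℤ)), F (min j.natAbs (L - j.natAbs)) :=
      sum_nonneg (fun _ _ => hF _)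
    linarith
  have h2 : ∑ e ∈ range L, F (min e (L - e)) ≤ ∑ e ∈ range L, F e + ∑ e ∈ range L, F (L - e) := by
    rw [← sum_add_distrib]
    apply sum_le_sum
    intro e _
    rcases min_choice e (L - e) with h | h <;> rw [h]
    · linarith [hF (L - e)]
    · linarith [hF e]
  have h3 : ∑ e ∈ range L, F e ≤ ∑' e, F e := hs.sum_le_tsum _ (fun _ _ => hF _)
  have h4 : ∑ e ∈ range L, F (L - e) ≤ ∑' e, F e := by
    rw [← sum_image (s := range L) (g := fun e => L - e) (f := F)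
      (fun a ha b hb h => by
        have ha' := mem_range.1 (mem_coe.1 ha)
        have hb' := mem_range.1 (mem_coe.1 hb)
        simp only at h
        omega)]
    exact hs.sum_le_tsum _ (fun _ _ => hF _)
  linarith

lemma FS_ac (L : ℕ) : FS (ac L) := FS.of_finset _ (fun _ h => ac_far h)

lemma min_le_interp {a b s : ℝ} (ha : 0 < a) (hb : 0 < b) (hs0 : 0 ≤ s) (hs1 : s ≤ 1) :
    min a b ≤ a ^ (1 - s) * b ^ s := by
  have hm : 0 < min a b := lt_min ha hb
  calc min a b = (min a b) ^ (1 - s) * (min a b) ^ s := by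
        rw [← Real.rpow_add hm]; simp
    _ ≤ _ := mul_le_mul (Real.rpow_le_rpow hm.le (min_le_left _ _) (by linarith))
        (Real.rpow_le_rpow hm.le (min_le_right _ _) hs0) (by positivity) (by positivity)

/-- the off-peak autocorrelation is small in `ℓ_p` -/
lemma en_ac_le {p s : ℝ} (hp1 : 1 ≤ p) (hp2 : p ≤ 2) (hs0 : 0 < s) (hs : (2 * s - 1) * p < -1) :
    ∃ C : ℝ, 0 < C ∧ ∀ L : ℕ, 0 < L →
      en p (fun d => ac L d - dl 0 d) ≤ C * (L : ℝ) ^ (-s) := by
  have hp : 0 < p := by linarith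
  have hs1 : s ≤ 1 := by nlinarith
  have hsum : Summable (fun e : ℕ => (e : ℝ) ^ ((2 * s - 1) * p)) := Real.summable_nat_rpow.2 hs
  set Z := ∑' e : ℕ, (e : ℝ) ^ ((2 * s - 1) * p) with hZ
  have hZ0 : 0 ≤ Z := tsum_nonneg (fun e => by positivity)
  refine ⟨16 * Z + 1, by positivity, fun L hL => ?_⟩
  have hL' : (1:ℝ) ≤ L := by exact_mod_cast hL
  have hL0 : (0:ℝ) < L := by linarith
  rw [en_eq_sum hp ((Ioo (-(L : ℤ)) L).erase 0) (fun d hd => by
    rw [mem_erase, not_and_or, not_not] at hd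
    rcases hd with h | h
    · rw [h, ac_zero hL]; simp [dl]
    · have : d ≠ 0 := by
        rintro rfl
        exact h (by rw [mem_Ioo]; omega)
      rw [ac_far h]; simp [dl, this])]
  have hb : ∀ j ∈ (Ioo (-(L : ℤ)) L).erase 0, ‖ac L j - dl 0 j‖ ^ p ≤
      4 * (L : ℝ) ^ (-s) * ((min j.natAbs (L - j.natAbs) : ℕ) : ℝ) ^ ((2 * s - 1) * p) := by
    intro j hj
    have h1 := ac_bound hj
    rw [mem_erase, mem_Ioo] at hj
    set μ : ℕ := min j.natAbs (L - j.natAbs) with hμ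
    have hμ0 : (0:ℝ) < μ := by exact_mod_cast (show 0 < μ by omega)
    have h2 : ‖ac L j‖ ≤ 2 * (μ : ℝ) ^ (2 * s - 1) * (L : ℝ) ^ (-s) := by
      refine h1.trans ((min_le_interp (s := s) (by positivity) (by positivity) hs0.le hs1).trans ?_)
      rw [Real.div_rpow (by positivity) hL0.le, Real.div_rpow (by positivity) hμ0.le,
        Real.mul_rpow (by norm_num) hμ0.le, Real.one_rpow, Real.rpow_neg hL0.le]
      have e1 : (μ : ℝ) ^ (2 * s - 1) = (μ : ℝ) ^ s / (μ : ℝ) ^ (1 - s) := by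
        rw [← Real.rpow_sub hμ0]; congr 1; ring
      have e2 : (2:ℝ) ^ s ≤ 2 := by
        calc (2:ℝ) ^ s ≤ 2 ^ (1:ℝ) := Real.rpow_le_rpow_of_exponent_le (by norm_num) hs1
          _ = 2 := Real.rpow_one 2
      rw [e1]
      have : 1 / (μ : ℝ) ^ (1 - s) * (2 ^ s * (μ : ℝ) ^ s / (L : ℝ) ^ s)
          = 2 ^ s * ((μ : ℝ) ^ s / (μ : ℝ) ^ (1 - s) * ((L : ℝ) ^ s)⁻¹) := by ring
      rw [this, mul_assoc]
      exact mul_le_mul_of_nonneg_right e2 (by positivity)
    have h3 : dl 0 j = (0:ℂ) := by simp [dl, hj.1]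
    rw [h3, sub_zero]
    refine (Real.rpow_le_rpow (norm_nonneg _) h2 hp.le).trans ?_
    rw [Real.mul_rpow (by positivity) (by positivity), Real.mul_rpow (by positivity) (by positivity),
      ← Real.rpow_mul hμ0.le, ← Real.rpow_mul hL0.le]
    have e3 : (2:ℝ) ^ p ≤ 4 := by
      calc (2:ℝ) ^ p ≤ 2 ^ (2:ℝ) := Real.rpow_le_rpow_of_exponent_le (by norm_num) hp2
        _ = 4 := by norm_num
    have e4 : (L : ℝ) ^ (-s * p) ≤ (L : ℝ) ^ (-s) :=
      Real.rpow_le_rpow_of_exponent_le hL' (by nlinarith)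
    have e5 : 0 ≤ (μ : ℝ) ^ ((2 * s - 1) * p) := by positivity
    have e6 : 0 ≤ (L : ℝ) ^ (-s * p) := by positivity
    calc _ = (2 ^ p * (L : ℝ) ^ (-s * p)) * (μ : ℝ) ^ ((2 * s - 1) * p) := by ring
      _ ≤ _ := mul_le_mul_of_nonneg_right (mul_le_mul e3 e4 e6 (by norm_num)) e5
  refine (sum_le_sum hb).trans ?_
  rw [← mul_sum]
  have h5 := sum_natAbs_le L (fun e => (e : ℝ) ^ ((2 * s - 1) * p)) (fun e => by positivity) hsum
  have h6 : 0 ≤ (L : ℝ) ^ (-s) := by positivity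
  nlinarith

/-- the total autocorrelation is a small power -/
lemma sum_ac_le {s : ℝ} (hs0 : 0 < s) :
    ∃ C : ℝ, 1 ≤ C ∧ ∀ L : ℕ, 0 < L → ∑' d, ‖ac L d‖ ≤ C * (L : ℝ) ^ s := by
  have hsum : Summable (fun e : ℕ => (e : ℝ) ^ (-1 - s)) := Real.summable_nat_rpow.2 (by linarith)
  set Z := ∑' e : ℕ, (e : ℝ) ^ (-1 - s) with hZ
  have hZ0 : 0 ≤ Z := tsum_nonneg (fun e => by positivity)
  refine ⟨4 * Z + 1, by linarith, fun L hL => ?_⟩
  have hL' : (1:ℝ) ≤ L := by exact_mod_cast hL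
  have hL0 : (0:ℝ) < L := by linarith
  rw [tsum_eq_sum (s := Ioo (-(L : ℤ)) L) (fun d hd => by rw [ac_far hd, norm_zero]),
    ← add_sum_erase _ _ (show (0:ℤ) ∈ Ioo (-(L : ℤ)) L by rw [mem_Ioo]; omega), ac_zero hL,
    norm_one]
  have hb : ∀ j ∈ (Ioo (-(L : ℤ)) L).erase 0, ‖ac L j‖ ≤
      (L : ℝ) ^ s * ((min j.natAbs (L - j.natAbs) : ℕ) : ℝ) ^ (-1 - s) := by
    intro j hj
    have h1 := ac_bound hj
    rw [mem_erase, mem_Ioo] at hj
    set μ : ℕ := min j.natAbs (L - j.natAbs) with hμ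
    have hμ0 : (0:ℝ) < μ := by exact_mod_cast (show 0 < μ by omega)
    have hμL : (μ : ℝ) ≤ L := by exact_mod_cast (show μ ≤ L by omega)
    refine h1.trans ((min_le_left _ _).trans ?_)
    have e1 : 1 / (μ : ℝ) = (μ : ℝ) ^ s * (μ : ℝ) ^ (-1 - s) := by
      rw [← Real.rpow_add hμ0, show s + (-1 - s) = -1 by ring, Real.rpow_neg_one, one_div]
    rw [e1]
    exact mul_le_mul_of_nonneg_right (Real.rpow_le_rpow hμ0.le hμL hs0.le) (by positivity)
  have h4 := sum_le_sum hb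
  rw [← mul_sum] at h4
  have h5 := sum_natAbs_le L (fun e => (e : ℝ) ^ (-1 - s)) (fun e => by positivity) hsum
  have h6 : 1 ≤ (L : ℝ) ^ s := Real.one_le_rpow hL' hs0.le
  nlinarith

lemma FS_conv (L : ℕ) (m : ℤ) {g : ℤ → ℂ} (hg : FS g) : FS (conv L m g) := by
  have h1 : FS (fun d => ∑ t ∈ range L, g (d + m + t) * ch L t) :=
    FS.sum _ (fun t _ => (hg.shift (m + t)).mono (fun d hd => by
      rw [add_assoc, hd, zero_mul]))
  exact h1.mono (fun d hd => by rw [conv, hd, mul_zero])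

lemma FS_kap (L : ℕ) : FS (kap L) :=
  FS.of_finset (Ico 0 (L : ℤ)) (fun d hd => by rw [mem_Ico] at hd; rw [kap, if_neg hd])

lemma tsum_kap (L : ℕ) (f : ℤ → ℂ) :
    ∑' t : ℤ, f t * kap L t = ∑ t ∈ range L, f t * ch L t := by
  rw [tsum_eq_sum (s := (range L).image (fun t : ℕ => (t : ℤ))) (fun d hd => by
    have : ¬ (0 ≤ d ∧ d < L) := by
      intro h
      apply hd
      rw [mem_image]
      exact ⟨d.toNat, by rw [mem_range]; omega, by omega⟩
    rw [kap, if_neg this, mul_zero]), sum_image (fun a _ b _ h => by simpa using h)]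
  apply sum_congr rfl
  intro t ht
  rw [mem_range] at ht
  rw [kap, if_pos (by omega)]

lemma FS.summableC {c : ℤ → ℂ} (h : FS c) : Summable c := by
  obtain ⟨s, hs⟩ := h.exists_finset
  exact summable_of_ne_finset_zero hs

lemma conv_eq_sum (L : ℕ) (m : ℤ) {g : ℤ → ℂ} (s : Finset ℤ) (hs : ∀ d, d ∉ s → g d = 0) (d : ℤ) :
    conv L m g d = (L : ℂ)⁻¹ * ∑ n ∈ s, g n * kap L (n - d - m) := by
  unfold conv
  congr 1
  have e1 : ∑' n, g n * kap L (n - d - m) = ∑ n ∈ s, g n * kap L (n - d - m) :=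
    tsum_eq_sum (fun n hn => by rw [hs n hn, zero_mul])
  rw [← tsum_kap L (fun t => g (d + m + t)), ← e1,
    ← (Equiv.addLeft (d + m)).tsum_eq (fun n => g n * kap L (n - d - m))]
  congr 1
  ext t
  simp only [Equiv.coe_addLeft]
  congr 2
  ring

lemma conv_l2 {L : ℕ} (hL : 0 < L) (m : ℤ) {g : ℤ → ℂ} (hg : FS g) :
    ∑' d, ‖conv L m g d‖ ^ 2 ≤ (∑' d, ‖ac L d‖) / L * ∑' n, ‖g n‖ ^ 2 := by
  obtain ⟨s, hs⟩ := hg.exists_finset
  have hL0 : (0:ℝ) < L := by exact_mod_cast hL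
  have hLc : (L : ℂ) ≠ 0 := by exact_mod_cast hL.ne'
  set A := ∑' d, ‖ac L d‖ with hA
  have hsA : Summable (fun d => ‖ac L d‖) :=
    ((FS_ac L).mono (c' := fun d => ‖ac L d‖) (fun d hd => by simp [hd])).summable
  have hk : ∀ n n' : ℤ, FS (fun d => (starRingEnd ℂ) (kap L (n' - d - m)) * kap L (n - d - m)) := by
    intro n n'
    refine FS.of_finset (Ioc (n - m - L) (n - m)) (fun d hd => ?_)
    rw [mem_Ioc] at hd
    have : ¬ (0 ≤ n - d - m ∧ n - d - m < L) := by omega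
    rw [kap.eq_def L (n - d - m), if_neg this, mul_zero]
  have hcorr : ∀ n n' : ℤ, ∑' d, (starRingEnd ℂ) (kap L (n' - d - m)) * kap L (n - d - m)
      = L * ac L (n' - n) := by
    intro n n'
    unfold ac
    rw [← mul_assoc, mul_inv_cancel₀ hLc, one_mul,
      ← tsum_kap L (fun t => (starRingEnd ℂ) (kap L (n' - n + t))),
      ← (Equiv.subLeft (n - m)).tsum_eq]
    congr 1
    ext t
    simp only [Equiv.subLeft_apply]
    congr 3 <;> ring
  have hsq : ∀ d, ((‖conv L m g d‖ ^ 2 : ℝ) : ℂ) = ∑ n ∈ s, ∑ n' ∈ s,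
      ((L : ℂ)⁻¹ * (L : ℂ)⁻¹ * (g n * (starRingEnd ℂ) (g n'))) *
        ((starRingEnd ℂ) (kap L (n' - d - m)) * kap L (n - d - m)) := by
    intro d
    rw [← Complex.normSq_eq_norm_sq, ← Complex.mul_conj, conv_eq_sum L m s hs, map_mul, map_sum]
    rw [mul_mul_mul_comm, sum_mul_sum, mul_sum]
    apply sum_congr rfl
    intro n _
    rw [mul_sum]
    apply sum_congr rfl
    intro n' _
    simp only [map_mul, map_inv₀, Complex.conj_natCast]
    ring
  have htot : ((∑' d, ‖conv L m g d‖ ^ 2 : ℝ) : ℂ) = ∑ n ∈ s, ∑ n' ∈ s,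
      (L : ℂ)⁻¹ * (g n * (starRingEnd ℂ) (g n')) * ac L (n' - n) := by
    rw [Complex.ofReal_tsum]
    simp only [hsq]
    rw [Summable.tsum_finsetSum (fun n _ => summable_sum (fun n' _ =>
      (hk n n').summableC.mul_left _))]
    apply sum_congr rfl
    intro n _
    rw [Summable.tsum_finsetSum (fun n' _ => (hk n n').summableC.mul_left _)]
    apply sum_congr rfl
    intro n' _
    rw [tsum_mul_left, hcorr]
    field_simp
  have h1 : ∑' d, ‖conv L m g d‖ ^ 2 ≤ ∑ n ∈ s, ∑ n' ∈ s,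
      (L : ℝ)⁻¹ * ((‖g n‖ ^ 2 + ‖g n'‖ ^ 2) / 2 * ‖ac L (n' - n)‖) := by
    refine (le_abs_self _).trans ?_
    rw [← Real.norm_eq_abs, ← Complex.norm_real, htot]
    refine (norm_sum_le _ _).trans (sum_le_sum (fun n _ => (norm_sum_le _ _).trans
      (sum_le_sum (fun n' _ => ?_))))
    rw [norm_mul, norm_mul, norm_mul, norm_inv, Complex.norm_natCast, Complex.norm_conj, mul_assoc]
    apply mul_le_mul_of_nonneg_left _ (by positivity)
    apply mul_le_mul_of_nonneg_right _ (norm_nonneg _)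
    nlinarith [sq_nonneg (‖g n‖ - ‖g n'‖)]
  have h2 : ∀ n, ∑ n' ∈ s, ‖ac L (n' - n)‖ ≤ A := by
    intro n
    rw [← sum_image (s := s) (g := fun n' => n' - n) (f := fun d => ‖ac L d‖)
      (fun a _ b _ h => by simpa using h)]
    exact hsA.sum_le_tsum _ (fun _ _ => norm_nonneg _)
  have h3 : ∀ n', ∑ n ∈ s, ‖ac L (n' - n)‖ ≤ A := by
    intro n'
    rw [← sum_image (s := s) (g := fun n => n' - n) (f := fun d => ‖ac L d‖)
      (fun a _ b _ h => by simpa using h)]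
    exact hsA.sum_le_tsum _ (fun _ _ => norm_nonneg _)
  have h4 : ∑' n, ‖g n‖ ^ 2 = ∑ n ∈ s, ‖g n‖ ^ 2 :=
    tsum_eq_sum (fun n hn => by simp [hs n hn])
  have h5 : ∑ n ∈ s, ∑ n' ∈ s, ‖g n‖ ^ 2 * ‖ac L (n' - n)‖ ≤ A * ∑ n ∈ s, ‖g n‖ ^ 2 := by
    rw [mul_sum]
    apply sum_le_sum
    intro n _
    rw [← mul_sum, mul_comm]
    exact mul_le_mul_of_nonneg_right (h2 n) (by positivity)
  have h6 : ∑ n ∈ s, ∑ n' ∈ s, ‖g n'‖ ^ 2 * ‖ac L (n' - n)‖ ≤ A * ∑ n ∈ s, ‖g n‖ ^ 2 := by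
    rw [sum_comm, mul_sum]
    apply sum_le_sum
    intro n _
    rw [← mul_sum, mul_comm]
    exact mul_le_mul_of_nonneg_right (h3 n) (by positivity)
  have h7 : ∑ n ∈ s, ∑ n' ∈ s,
      (L : ℝ)⁻¹ * ((‖g n‖ ^ 2 + ‖g n'‖ ^ 2) / 2 * ‖ac L (n' - n)‖) =
      (L : ℝ)⁻¹ * ((∑ n ∈ s, ∑ n' ∈ s, ‖g n‖ ^ 2 * ‖ac L (n' - n)‖
        + ∑ n ∈ s, ∑ n' ∈ s, ‖g n'‖ ^ 2 * ‖ac L (n' - n)‖) / 2) := by
    rw [← sum_add_distrib, sum_div, mul_sum]
    apply sum_congr rfl
    intro n _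
    rw [← sum_add_distrib, sum_div, mul_sum]
    apply sum_congr rfl
    intro n' _
    ring
  rw [h4]
  refine h1.trans ?_
  rw [h7, div_eq_inv_mul A, mul_assoc]
  apply mul_le_mul_of_nonneg_left _ (by positivity)
  linarith

lemma tsum_window {F : ℤ → ℝ} (hF : FS F) (c : ℤ) (K : ℕ) :
    ∑' a : ℤ, ∑ j ∈ range K, F (a + c + j) = K * ∑' d, F d := by
  rw [Summable.tsum_finsetSum (fun j _ => by
    simpa only [add_assoc] using (hF.shift (c + j)).summable)]
  have : ∀ j ∈ range K, ∑' a : ℤ, F (a + c + j) = ∑' d, F d := by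
    intro j _
    simpa only [add_assoc, Equiv.coe_addRight] using (Equiv.addRight (c + j)).tsum_eq F
  rw [sum_congr rfl this]
  simp

lemma conv_lp_aux {p : ℝ} (hp1 : 1 ≤ p) (hp2 : p ≤ 2) {L : ℕ} (hL : 0 < L) (m : ℤ) {g : ℤ → ℂ}
    (hg : FS g) : en p (conv L m g) ≤
      2 * ((L : ℝ) ^ (1 - p / 2) * ((∑' d, ‖ac L d‖) / L) ^ (p / 2)) * en p g := by
  have hp : 0 < p := by linarith
  have hL0 : (0:ℝ) < L := by exact_mod_cast hL
  set A := (∑' d, ‖ac L d‖) / L with hA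
  have hA0 : 0 ≤ A := div_nonneg (tsum_nonneg (fun _ => norm_nonneg _)) hL0.le
  set c := (L : ℝ) ^ (1 - p / 2) * A ^ (p / 2) with hc
  have hc0 : 0 ≤ c := by positivity
  have win : ∀ a : ℤ, ∑ j ∈ range L, ‖conv L m g (a + 0 + j)‖ ^ p ≤
      c * ∑ j ∈ range (2 * L), ‖g (a + m + j)‖ ^ p := by
    intro a
    set S := (range (2 * L)).image (fun j : ℕ => a + m + j) with hS
    set ga : ℤ → ℂ := fun n => if n ∈ S then g n else 0 with hga
    have hgaS : ∀ n, n ∉ S → ga n = 0 := fun n hn => by simp only [hga, hn, if_false]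
    have hFga : FS ga := FS.of_finset S hgaS
    have e1 : ∀ j ∈ range L, conv L m g (a + 0 + j) = conv L m ga (a + 0 + j) := by
      intro j hj
      unfold conv
      congr 1
      apply sum_congr rfl
      intro t ht
      rw [mem_range] at hj ht
      have : a + 0 + j + m + t ∈ S := by
        rw [hS, mem_image]
        exact ⟨j + t, by rw [mem_range]; omega, by push_cast; ring⟩
      simp only [hga, this, if_true]
    have hinj : Set.InjOn (fun j : ℕ => a + m + j) (range (2 * L) : Finset ℕ) :=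
      fun x _ y _ h => by simpa using h
    have e2 : ∀ q : ℝ, ∑ n ∈ S, ‖ga n‖ ^ q = ∑ j ∈ range (2 * L), ‖g (a + m + j)‖ ^ q := by
      intro q
      rw [sum_congr rfl (g := fun n => ‖g n‖ ^ q) (fun n hn => by simp only [hga, hn, if_true]),
        hS, sum_image hinj]
    rw [sum_congr rfl (fun j hj => by rw [e1 j hj])]
    set X := ∑ j ∈ range L, ‖conv L m ga (a + 0 + j)‖ ^ p with hX
    have hX0 : 0 ≤ X := sum_nonneg (fun _ _ => by positivity)
    have h1 : X ^ (2 / p) ≤ (L : ℝ) ^ (2 / p - 1) *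
        ∑ j ∈ range L, ‖conv L m ga (a + 0 + j)‖ ^ 2 := by
      have := Real.rpow_sum_le_const_mul_sum_rpow_of_nonneg (range L)
        (f := fun j => ‖conv L m ga (a + 0 + j)‖ ^ p) (p := 2 / p)
        (by rw [le_div_iff₀ hp]; linarith) (fun _ _ => by positivity)
      rw [card_range] at this
      refine this.trans (le_of_eq ?_)
      congr 1
      apply sum_congr rfl
      intro j _
      rw [← Real.rpow_mul (norm_nonneg _), mul_div_cancel₀ _ hp.ne', Real.rpow_two]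
    have h2 : ∑ j ∈ range L, ‖conv L m ga (a + 0 + j)‖ ^ 2 ≤ A * ∑ n ∈ S, ‖ga n‖ ^ (2:ℝ) := by
      have s1 : Summable (fun d => ‖conv L m ga d‖ ^ 2) :=
        ((FS_conv L m hFga).mono (c' := fun d => ‖conv L m ga d‖ ^ 2)
          (fun d hd => by simp [hd])).summable
      rw [← sum_image (s := range L) (g := fun j : ℕ => a + 0 + j)
        (f := fun d => ‖conv L m ga d‖ ^ 2) (fun x _ y _ h => by simpa using h)]
      refine (s1.sum_le_tsum _ (fun _ _ => by positivity)).trans ((conv_l2 hL m hFga).trans ?_)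
      rw [tsum_eq_sum (f := fun n => ‖ga n‖ ^ 2) (s := S) (fun n hn => by simp [hgaS n hn])]
      simp only [Real.rpow_two]
      exact le_rfl
    have h3 : (∑ n ∈ S, ‖ga n‖ ^ (2:ℝ)) ^ (p / 2) ≤ ∑ n ∈ S, ‖ga n‖ ^ p := by
      refine (sum_rpow_le S _ (fun _ => by positivity) (by linarith) (by linarith)).trans
        (le_of_eq ?_)
      apply sum_congr rfl
      intro n _
      rw [← Real.rpow_mul (norm_nonneg _)]
      congr 1
      ring
    have hY0 : 0 ≤ ∑ n ∈ S, ‖ga n‖ ^ (2:ℝ) := sum_nonneg (fun _ _ => by positivity)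
    have h4 : X ≤ ((L : ℝ) ^ (2 / p - 1) * (A * ∑ n ∈ S, ‖ga n‖ ^ (2:ℝ))) ^ (p / 2) := by
      have : X = (X ^ (2 / p)) ^ (p / 2) := by
        rw [← Real.rpow_mul hX0, show 2 / p * (p / 2) = 1 by field_simp, Real.rpow_one]
      rw [this]
      apply Real.rpow_le_rpow (by positivity) _ (by linarith)
      exact h1.trans (mul_le_mul_of_nonneg_left h2 (by positivity))
    rw [Real.mul_rpow (by positivity) (by positivity), Real.mul_rpow hA0 hY0,
      ← Real.rpow_mul hL0.le, show (2 / p - 1) * (p / 2) = 1 - p / 2 by field_simp,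
      ← mul_assoc, ← hc] at h4
    rw [← e2 p]
    exact h4.trans (mul_le_mul_of_nonneg_left h3 hc0)
  have t1 := tsum_window ((FS_conv L m hg).pw hp) 0 L
  have t2 := tsum_window (hg.pw hp) m (2 * L)
  have s1 : Summable (fun a : ℤ => ∑ j ∈ range L, ‖conv L m g (a + 0 + j)‖ ^ p) :=
    summable_sum (fun j _ => by
      simpa only [add_assoc] using (((FS_conv L m hg).pw hp).shift (0 + j)).summable)
  have s2 : Summable (fun a : ℤ => ∑ j ∈ range (2 * L), ‖g (a + m + j)‖ ^ p) :=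
    summable_sum (fun j _ => by
      simpa only [add_assoc] using ((hg.pw hp).shift (m + j)).summable)
  have t3 := Summable.tsum_le_tsum win s1 (s2.mul_left c)
  rw [tsum_mul_left, t1, t2] at t3
  unfold en
  push_cast at t3
  have : (L : ℝ) * ∑' d, ‖conv L m g d‖ ^ p ≤ L * (2 * c * ∑' d, ‖g d‖ ^ p) := by linarith
  exact le_of_mul_le_mul_left this hL0

/-- the two chirp estimates -/
theorem chirp_est {p : ℝ} (hp1 : 1 < p) (hp2 : p ≤ 2) : ∃ s C : ℝ, 0 < s ∧ s ≤ 1 ∧ 1 ≤ C ∧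
    ∀ L : ℕ, 0 < L → en p (fun d => ac L d - dl 0 d) ≤ C * (L : ℝ) ^ (-s) ∧
      ∀ (m : ℤ) (g : ℤ → ℂ), FS g → en p (conv L m g) ≤ C * (L : ℝ) ^ (-s) * en p g := by
  have hp : 0 < p := by linarith
  set s := (p - 1) / (4 * p) with hs
  have hs0 : 0 < s := by rw [hs]; apply div_pos <;> linarith
  have hsp : s * p = (p - 1) / 4 := by rw [hs]; field_simp
  have hs2 : 2 * s ≤ p - 1 := by nlinarith
  obtain ⟨C1, hC1, h1⟩ := en_ac_le hp1.le hp2 hs0 (by nlinarith)
  obtain ⟨C2, hC2, h2⟩ := sum_ac_le hs0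
  refine ⟨s, C1 + 2 * C2, hs0, by linarith, by linarith, fun L hL => ⟨?_, fun m g hg => ?_⟩⟩
  · refine (h1 L hL).trans (mul_le_mul_of_nonneg_right (by linarith) (by positivity))
  · refine (conv_lp_aux hp1.le hp2 hL m hg).trans (mul_le_mul_of_nonneg_right ?_ (en_nonneg _))
    have hL' : (1:ℝ) ≤ L := by exact_mod_cast hL
    have hL0 : (0:ℝ) < L := by linarith
    have hA0 : 0 ≤ ∑' d, ‖ac L d‖ := tsum_nonneg (fun _ => norm_nonneg _)
    have hLs : 1 ≤ (L : ℝ) ^ s := Real.one_le_rpow hL' hs0.le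
    have a1 : (∑' d, ‖ac L d‖) ^ (p / 2) ≤ C2 * (L : ℝ) ^ s := by
      calc _ ≤ (C2 * (L : ℝ) ^ s) ^ (p / 2) := Real.rpow_le_rpow hA0 (h2 L hL) (by linarith)
        _ ≤ (C2 * (L : ℝ) ^ s) ^ (1:ℝ) :=
            Real.rpow_le_rpow_of_exponent_le (by nlinarith) (by linarith)
        _ = _ := Real.rpow_one _
    rw [Real.div_rpow hA0 hL0.le]
    have a2 : (L : ℝ) ^ (1 - p / 2) * ((L : ℝ) ^ s / (L : ℝ) ^ (p / 2)) ≤ (L : ℝ) ^ (-s) := by
      rw [← Real.rpow_sub hL0, ← Real.rpow_add hL0]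
      exact Real.rpow_le_rpow_of_exponent_le hL' (by linarith)
    have a3 : (L : ℝ) ^ (1 - p / 2) * ((∑' d, ‖ac L d‖) ^ (p / 2) / (L : ℝ) ^ (p / 2)) ≤
        C2 * (L : ℝ) ^ (-s) := by
      calc _ ≤ (L : ℝ) ^ (1 - p / 2) * ((C2 * (L : ℝ) ^ s) / (L : ℝ) ^ (p / 2)) := by gcongr
        _ = C2 * ((L : ℝ) ^ (1 - p / 2) * ((L : ℝ) ^ s / (L : ℝ) ^ (p / 2))) := by ring
        _ ≤ _ := mul_le_mul_of_nonneg_left a2 (by linarith)
    have a4 : 0 ≤ (L : ℝ) ^ (-s) := by positivity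
    nlinarith

end H555Z.Tr
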