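import Pool.Agent.H555Z.Tr.Mart

set_option autoImplicit false

open Finset MeasureTheory

namespace H555Z.Tr

/-- the digit in base `Q` at scale `M` -/
noncomputable def dg (M Q : ℕ) (x : ℝ) : ℤ := ⌊((Q * M : ℕ) : ℝ) * x⌋ % Q

lemma meas_floor (G : ℕ) : Measurable (fun x : ℝ => ⌊(G : ℝ) * x⌋) :=
  Int.measurable_floor.comp (measurable_id.const_mul _)

lemma meas_dg (M Q : ℕ) : Measurable (dg M Q) :=
  (measurable_of_countable (fun z : ℤ => z % Q)).comp (meas_floor _)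

lemma dg_nonneg (M : ℕ) {Q : ℕ} (hQ : 0 < Q) (x : ℝ) : 0 ≤ dg M Q x :=
  Int.emod_nonneg _ (by exact_mod_cast hQ.ne')

lemma dg_lt (M : ℕ) {Q : ℕ} (hQ : 0 < Q) (x : ℝ) : dg M Q x < Q :=
  Int.emod_lt_of_pos _ (by exact_mod_cast hQ)

lemma floor_coarse {H G : ℕ} (hG : 0 < G) (h : H ∣ G) {x y : ℝ}
    (hxy : ⌊(G : ℝ) * y⌋ = ⌊(G : ℝ) * x⌋) : ⌊(H : ℝ) * y⌋ = ⌊(H : ℝ) * x⌋ := by
  obtain ⟨c, rfl⟩ := h
  have hc : (c : ℝ) ≠ 0 := by
    have : c ≠ 0 := by
      rintro rfl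
      simp at hG
    exact_mod_cast this
  have e : ∀ z : ℝ, (H : ℝ) * z = (((H * c : ℕ) : ℝ) * z) / c := by
    intro z
    push_cast
    field_simp
  rw [e y, e x, Int.floor_div_natCast, Int.floor_div_natCast, hxy]

lemma floor_of_floor {G : ℕ} (hG : 0 < G) {x y : ℝ}
    (hxy : ⌊(G : ℝ) * y⌋ = ⌊(G : ℝ) * x⌋) : ⌊y⌋ = ⌊x⌋ := by
  simpa using floor_coarse hG (one_dvd G) hxy

lemma dg_coarse {M Q G : ℕ} (hG : 0 < G) (h : Q * M ∣ G) {x y : ℝ}
    (hxy : ⌊(G : ℝ) * y⌋ = ⌊(G : ℝ) * x⌋) : dg M Q y = dg M Q x := by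
  unfold dg
  rw [floor_coarse hG h hxy]

lemma dg_fine {M Q K : ℕ} (hK : 0 < K) (h : K ∣ M) (a : ℤ) (x : ℝ) :
    dg M Q (x - a / K) = dg M Q x := by
  obtain ⟨c, rfl⟩ := h
  unfold dg
  have hK' : (K : ℝ) ≠ 0 := by exact_mod_cast hK.ne'
  have e : ((Q * (K * c) : ℕ) : ℝ) * (x - a / K) =
      ((Q * (K * c) : ℕ) : ℝ) * x - ((Q * (c * a) : ℤ) : ℝ) := by
    push_cast
    field_simp
  rw [e, Int.floor_sub_intCast, Int.sub_mul_emod_self_left]

lemma dg_int (M Q : ℕ) (a : ℤ) (x : ℝ) : dg M Q (x - a) = dg M Q x := by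
  simpa using dg_fine (M := M) (Q := Q) one_pos (one_dvd M) a x

lemma floor_shift {G : ℕ} (hG : 0 < G) (a : ℤ) (x : ℝ) :
    ⌊(G : ℝ) * (x - a / G)⌋ = ⌊(G : ℝ) * x⌋ - a := by
  have hG' : (G : ℝ) ≠ 0 := by exact_mod_cast hG.ne'
  rw [← Int.floor_sub_intCast]
  congr 1
  field_simp

lemma dg_shift {M Q : ℕ} (hM : 0 < M) (hQ : 0 < Q) (a : ℤ) (x : ℝ) :
    dg M Q (x - a / ((Q * M : ℕ) : ℝ)) = (dg M Q x - a) % Q := by
  unfold dg
  rw [floor_shift (by positivity), Int.emod_sub_emod]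

/-- the flip of the binary digit at scale `M` -/
noncomputable def fl (M : ℕ) (x : ℝ) : ℝ :=
  x - ((if dg M 2 x = 0 then -1 else 1 : ℤ) : ℝ) / ((2 * M : ℕ) : ℝ)

lemma floor_fl {M : ℕ} (hM : 0 < M) (x : ℝ) : ⌊(M : ℝ) * fl M x⌋ = ⌊(M : ℝ) * x⌋ := by
  have e : ∀ z : ℝ, (M : ℝ) * z = (((2 * M : ℕ) : ℝ) * z) / (2 : ℕ) := by
    intro z
    push_cast
    ring
  rw [e, e x, Int.floor_div_natCast, Int.floor_div_natCast, fl, floor_shift (by positivity)]
  unfold dg
  split_ifs with h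
  · push_cast at h ⊢
    omega
  · push_cast at h ⊢
    omega

lemma dg_fl {M : ℕ} (hM : 0 < M) (x : ℝ) : dg M 2 (fl M x) = 1 - dg M 2 x := by
  have h0 := dg_nonneg M (Q := 2) (by norm_num) x
  have h1 := dg_lt M (Q := 2) (by norm_num) x
  rw [fl, dg_shift hM (by norm_num)]
  split_ifs with h
  · rw [h]
    rfl
  · push_cast at h1 ⊢
    omega

lemma meas_fl (M : ℕ) : Measurable (fl M) := by
  unfold fl
  refine measurable_id.sub (Measurable.div_const ?_ _)
  exact (measurable_of_countable (fun z : ℤ => ((if z = 0 then -1 else 1 : ℤ) : ℝ))).comp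
    (meas_dg M 2)

lemma mp_fl {M : ℕ} (hM : 0 < M) : MeasurePreserving (fl M) volume volume := by
  refine ⟨meas_fl M, ?_⟩
  ext s hs
  rw [Measure.map_apply (meas_fl M) hs]
  set A : Set ℝ := {x | dg M 2 x = 0} with hA
  have mA : MeasurableSet A := meas_dg M 2 (measurableSet_singleton 0)
  set h : ℝ := 1 / ((2 * M : ℕ) : ℝ) with hh
  have k1 : ∀ x, dg M 2 (x - h) = (dg M 2 x - 1) % 2 := by
    intro x
    have := dg_shift hM (Q := 2) (by norm_num) 1 x
    simpa [hh] using this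
  have k2 : ∀ x, dg M 2 (x + h) = (dg M 2 x + 1) % 2 := by
    intro x
    have := dg_shift hM (Q := 2) (by norm_num) (-1) x
    simpa [hh, neg_div] using this
  have e1 : fl M ⁻¹' s ∩ A = (fun x => x + h) ⁻¹' (s \ A) := by
    ext x
    have h0 := dg_nonneg M (Q := 2) (by norm_num) x
    have h1 := dg_lt M (Q := 2) (by norm_num) x
    simp only [hA, Set.mem_inter_iff, Set.mem_preimage, Set.mem_ofPred_eq, Set.mem_sdiff, k2]
    constructor
    · rintro ⟨h2, h3⟩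
      refine ⟨?_, by omega⟩
      simpa [fl, h3, hh, neg_div] using h2
    · rintro ⟨h2, h3⟩
      have h4 : dg M 2 x = 0 := by push_cast at h1; omega
      refine ⟨?_, h4⟩
      simpa [fl, h4, hh, neg_div] using h2
  have e2 : fl M ⁻¹' s \ A = (fun x => x + -h) ⁻¹' (s ∩ A) := by
    ext x
    have h0 := dg_nonneg M (Q := 2) (by norm_num) x
    have h1 := dg_lt M (Q := 2) (by norm_num) x
    simp only [hA, Set.mem_inter_iff, Set.mem_preimage, Set.mem_ofPred_eq, Set.mem_sdiff,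
      ← sub_eq_add_neg, k1]
    constructor
    · rintro ⟨h2, h3⟩
      refine ⟨?_, by push_cast at h1; omega⟩
      simpa [fl, h3, hh] using h2
    · rintro ⟨h2, h3⟩
      have h4 : dg M 2 x ≠ 0 := by omega
      refine ⟨?_, h4⟩
      simpa [fl, h4, hh] using h2
  rw [← measure_inter_add_sdiff (fl M ⁻¹' s) mA, e1, e2, measure_preimage_add_right,
    measure_preimage_add_right, add_comm, measure_inter_add_sdiff s mA]

/-- Lebesgue measure on the unit interval -/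
noncomputable def P01 : Measure ℝ := volume.restrict (Set.Ico 0 1)

instance : IsProbabilityMeasure P01 := ⟨by simp [P01]⟩

lemma mp_fl01 {M : ℕ} (hM : 0 < M) : MeasurePreserving (fl M) P01 P01 := by
  have h := (mp_fl hM).restrict_preimage (measurableSet_Ico (a := (0:ℝ)) (b := 1))
  have e : fl M ⁻¹' Set.Ico 0 1 = Set.Ico 0 1 := by
    ext x
    have := floor_of_floor hM (floor_fl hM x)
    rw [Set.mem_preimage, ← Int.floor_eq_zero_iff, ← Int.floor_eq_zero_iff, this]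
  rw [e] at h
  exact h

/-- binary digits at a chain of scales -/
noncomputable def digFlips (G : ℕ → ℕ) (h0 : ∀ j, 0 < G j) (hd : ∀ j j', j < j' → 2 * G j ∣ G j') :
    Flips P01 where
  r := fun j x => decide (dg (G j) 2 x = 1)
  T := fun j => fl (G j)
  meas := fun j => (measurable_of_countable (fun z : ℤ => decide (z = 1))).comp (meas_dg _ _)
  mp := fun j => mp_fl01 (h0 j)
  flip := fun j x => by
    have h0' := dg_nonneg (G j) (Q := 2) (by norm_num) x
    have h1 := dg_lt (G j) (Q := 2) (by norm_num) x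
    rw [dg_fl (h0 j)]
    by_cases h : dg (G j) 2 x = 1
    · simp [h]
    · have : dg (G j) 2 x = 0 := by push_cast at h1; omega
      simp [this]
  keep := fun j j' x h => by
    have : dg (G j') 2 (fl (G j) x) = dg (G j') 2 x := by
      rcases lt_or_gt_of_ne h with h | h
      · exact dg_coarse (h0 j) (hd _ _ h) (floor_fl (h0 j) x)
      · exact dg_fine (by have := h0 j; positivity) (hd _ _ h) _ x
    rw [this]

lemma meas_cover {ι : Type*} (s : Finset ι) (a : ι → ℝ) (δ : ℝ) {A : Set ℝ}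
    (h : ∀ x ∈ A, ∃ j ∈ s, a j ≤ x ∧ x < a j + δ) :
    volume A ≤ ENNReal.ofReal (s.card * δ) := by
  have h1 : A ⊆ ⋃ j ∈ s, Set.Ico (a j) (a j + δ) := by
    intro x hx
    obtain ⟨j, hj, h2⟩ := h x hx
    exact Set.mem_biUnion hj h2
  refine (measure_mono h1).trans ((measure_biUnion_finset_le s _).trans (le_of_eq ?_))
  simp only [Real.volume_Ico, add_sub_cancel_left, sum_const, nsmul_eq_mul]
  rw [ENNReal.ofReal_mul (by positivity), ENNReal.ofReal_natCast]

lemma cell_meas {M Q : ℕ} (hM : 0 < M) (hQ : 0 < Q) (i : ℤ) :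
    P01 {x | dg M Q x = i} ≤ ENNReal.ofReal (1 / Q) := by
  have mA : MeasurableSet {x | dg M Q x = i} := meas_dg M Q (measurableSet_singleton i)
  have hM' : (0:ℝ) < M := by exact_mod_cast hM
  have hQ' : (0:ℝ) < Q := by exact_mod_cast hQ
  rw [P01, Measure.restrict_apply mA]
  refine (meas_cover (range M) (fun j => ((j : ℝ) * Q + i) / (Q * M)) (1 / (Q * M)) ?_).trans
    (le_of_eq ?_)
  · rintro x ⟨h1, h2, h3⟩
    simp only [Set.mem_ofPred_eq, dg] at h1
    set z := ⌊((Q * M : ℕ) : ℝ) * x⌋ with hz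
    have z0 : 0 ≤ z := Int.floor_nonneg.2 (by positivity)
    have z1 : z < Q * M := by
      rw [hz, Int.floor_lt]
      push_cast
      nlinarith [mul_pos hQ' hM']
    have hQz : (0:ℤ) < Q := by exact_mod_cast hQ
    have z2 : 0 ≤ z / Q := Int.ediv_nonneg z0 hQz.le
    have z3 : z / Q < M := Int.ediv_lt_of_lt_mul hQz (by linarith)
    have z4 : z / Q * Q + i = z := by
      rw [← h1]
      exact Int.ediv_mul_add_emod z Q
    refine ⟨(z / Q).toNat, by rw [mem_range]; omega, ?_⟩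
    have z5 : (((z / Q).toNat : ℕ) : ℝ) * Q + i = z := by
      have : (((z / Q).toNat : ℕ) : ℤ) * Q + i = z := by rw [Int.toNat_of_nonneg z2, z4]
      exact_mod_cast this
    beta_reduce
    rw [z5, ← add_div, div_le_iff₀ (by positivity), lt_div_iff₀ (by positivity)]
    have f1 := Int.floor_le (((Q * M : ℕ) : ℝ) * x)
    have f2 := Int.lt_floor_add_one (((Q * M : ℕ) : ℝ) * x)
    rw [← hz] at f1 f2
    push_cast at f1 f2
    constructor <;> linarith
  · rw [card_range]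
    congr 1
    field_simp

lemma bad_meas {G : ℕ} (hG : 0 < G) {δ : ℝ} (hδ : 0 ≤ δ) :
    P01 {x | ⌊(G : ℝ) * (x - δ)⌋ ≠ ⌊(G : ℝ) * x⌋} ≤ ENNReal.ofReal (G * δ) := by
  have hG' : (0:ℝ) < G := by exact_mod_cast hG
  have mA : MeasurableSet {x : ℝ | ⌊(G : ℝ) * (x - δ)⌋ ≠ ⌊(G : ℝ) * x⌋} :=
    (measurableSet_eq_fun ((meas_floor G).comp (measurable_id.sub_const δ)) (meas_floor G)).compl
  rw [P01, Measure.restrict_apply mA]
  refine (meas_cover (range G) (fun j => (j : ℝ) / G) δ ?_).trans (le_of_eq ?_)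
  · rintro x ⟨h1, h2, h3⟩
    simp only [Set.mem_ofPred_eq] at h1
    set z := ⌊(G : ℝ) * x⌋ with hz
    have z0 : 0 ≤ z := Int.floor_nonneg.2 (by positivity)
    have z1 : z < G := by
      rw [hz, Int.floor_lt]
      push_cast
      nlinarith
    have z2 : ⌊(G : ℝ) * (x - δ)⌋ ≤ z := Int.floor_le_floor (by nlinarith)
    have z3 : ⌊(G : ℝ) * (x - δ)⌋ < z := lt_of_le_of_ne z2 h1
    rw [Int.floor_lt] at z3
    refine ⟨z.toNat, by rw [mem_range]; omega, ?_⟩
    have z5 : ((z.toNat : ℕ) : ℝ) = z := by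
      have : ((z.toNat : ℕ) : ℤ) = z := Int.toNat_of_nonneg z0
      exact_mod_cast this
    beta_reduce
    rw [z5, div_le_iff₀ hG', ← sub_lt_iff_lt_add, lt_div_iff₀ hG']
    have f1 := Int.floor_le ((G : ℝ) * x)
    rw [← hz] at f1
    constructor <;> linarith
  · rw [card_range]

lemma lint_unit (f : ℝ → ENNReal) :
    ∫⁻ x, f x = ∑' d : ℤ, ∫⁻ x, f (x + d) ∂P01 := by
  have h1 : ∫⁻ x, f x = ∫⁻ x in ⋃ d : ℤ, Set.Ico (d : ℝ) (d + 1), f x := by
    rw [iUnion_Ico_intCast, Measure.restrict_univ]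
  rw [h1, lintegral_iUnion (fun _ => measurableSet_Ico) (Set.pairwise_disjoint_Ico_intCast ℝ)]
  congr 1
  ext d
  have := (measurePreserving_add_right volume (d : ℝ)).setLIntegral_comp_preimage_emb
    (measurableEmbedding_addRight (d : ℝ)) f (Set.Ico (d : ℝ) (d + 1))
  rw [← this, P01]
  congr 2
  ext x
  simp

lemma tensor (χ : ℝ → ENNReal) (hχ : Measurable χ) (hp : ∀ x (d : ℤ), χ (x + d) = χ x)
    (V : ℤ → ENNReal) : ∫⁻ x, χ x * V ⌊x⌋ = (∫⁻ x, χ x ∂P01) * ∑' d, V d := by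
  rw [lint_unit, ← ENNReal.tsum_mul_left]
  congr 1
  ext d
  rw [← lintegral_mul_const _ hχ, P01]
  apply setLIntegral_congr_fun measurableSet_Ico
  intro x hx
  beta_reduce
  rw [hp, Int.floor_add_intCast, Int.floor_eq_zero_iff.2 hx, zero_add]

lemma node_std (n : ℕ) {x : ℝ} (hx : x ∈ Set.Ico (0:ℝ) 1) :
    (node n (fun j => decide (dg (2 ^ j) 2 x = 1)) : ℤ) = 2 ^ n + ⌊((2 ^ n : ℕ) : ℝ) * x⌋ := by
  induction n with
  | zero => simp [node, Int.floor_eq_zero_iff.2 hx]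
  | succ n ih =>
    simp only [node]
    push_cast at ih ⊢
    rw [ih]
    have e : ⌊(2:ℝ) ^ n * x⌋ = ⌊(2:ℝ) ^ (n + 1) * x⌋ / 2 := by
      have := Int.floor_div_natCast ((2:ℝ) ^ (n + 1) * x) 2
      push_cast at this
      rw [← this]
      congr 1
      ring
    have e2 : dg (2 ^ n) 2 x = ⌊(2:ℝ) ^ (n + 1) * x⌋ % 2 := by
      unfold dg
      push_cast
      rw [pow_succ']
    rw [e, e2, pow_succ (2:ℤ)]
    generalize ⌊(2:ℝ) ^ (n + 1) * x⌋ = z
    by_cases h : z % 2 = 1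
    · simp only [h, decide_true, Bool.toNat_true]
      omega
    · simp only [h, decide_false, Bool.toNat_false]
      omega

end H555Z.Tr
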