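import Pool.Agent.H555Z.Tr.Par

set_option autoImplicit false

open Finset MeasureTheory Real
open scoped ENNReal

namespace H555Z.Tr

/-- the smallness constant -/
noncomputable def eps (w : ℝ) : ℝ := 1 / (16 * CH w)

/-- the first part of the generating function -/
noncomputable def f0 (p : ℝ≥0∞) (w : ℝ) : Lp ℝ p (volume : Measure ℝ) :=
  LL p volume (BB p.toReal w (dl 0))

/-- parameters satisfying all the smallness conditions -/
structure Good (p : ℝ≥0∞) [Fact (1 ≤ p)] extends Par where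
  w : ℝ
  C : ℝ
  s : ℝ
  am : ℕ → ℝ
  hp : p ≠ ∞
  hq1 : 1 < p.toReal
  hq2 : p.toReal ≤ 2
  hw0 : 1 / 2 < w
  hw1 : w < 1
  hs : 0 < s
  hs1 : s ≤ 1
  hC : 1 ≤ C
  ch1 : ∀ L : ℕ, 0 < L → en p.toReal (fun d => ac L d - dl 0 d) ≤ C * (L : ℝ) ^ (-s)
  ch2 : ∀ L : ℕ, 0 < L → ∀ (m : ℤ) (g : ℤ → ℂ), FS g →
    en p.toReal (conv L m g) ≤ C * (L : ℝ) ^ (-s) * en p.toReal g
  ham : ∀ k, 0 < am k
  g1 : ∀ k, (am k)⁻¹ ^ p.toReal * (38 * C * CH w * (L k : ℝ) ^ (-s)) ≤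
    (eps w / 2 * (1 / 2) ^ k * (1 / 2) ^ toPar.P k) ^ 2
  g2 : ∀ k, (L k : ℝ) / c k * (6 * toPar.P (k + 1)) ≤
    (eps w * (1 / 2) ^ k * (1 / 2) ^ toPar.P (k + 1)) ^ 2
  g3 : ∀ k (δ : ℝ), |δ| ≤ (L k : ℝ) / c k →
    ‖tr p δ (f0 p w) - f0 p w‖ ≤ eps w * (1 / 2) ^ toPar.P (k + 1)
  g4 : ∀ k, am k ^ p.toReal * En p.toReal w (trap (toPar.P k) (toPar.N k)) ≤
    ((1 / 2) ^ k) ^ 2 * ‖haar p k‖ ^ p.toReal

/-- support in an initial segment of the natural numbers -/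
def Sp (K : ℕ) (b : ℤ → ℝ) : Prop := ∀ d : ℤ, ¬ (0 ≤ d ∧ d < K) → b d = 0

lemma Sp.fs {K : ℕ} {b : ℤ → ℝ} (h : Sp K b) : FS b :=
  FS.of_finset (Ico 0 (K : ℤ)) (fun d hd => h d (by rwa [mem_Ico] at hd))

lemma sum_range_int {E : Type*} [AddCommMonoid E] (K : ℕ) (g : ℤ → E) :
    ∑ n ∈ range K, g n = ∑ n ∈ Ico (0:ℤ) K, g n := by
  apply sum_bij (fun (n : ℕ) _ => (n : ℤ))
  · intro n hn
    rw [mem_range] at hn
    rw [mem_Ico]
    omega
  · intro n _ n' _ h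
    exact_mod_cast h
  · intro n hn
    rw [mem_Ico] at hn
    exact ⟨n.toNat, by rw [mem_range]; omega, by omega⟩
  · intro n _
    rfl

lemma half_pow_le {a b : ℕ} (h : a ≤ b) : ((1:ℝ) / 2) ^ b ≤ (1 / 2) ^ a :=
  pow_le_pow_of_le_one (by norm_num) (by norm_num) h

lemma half_pow_le_one (a : ℕ) : ((1:ℝ) / 2) ^ a ≤ 1 := pow_le_one₀ (by norm_num) (by norm_num)

namespace Good
variable {p : ℝ≥0∞} [Fact (1 ≤ p)] (S : Good p)

lemma hq0 (S : Good p) : 0 < p.toReal := by have := S.hq1; linarith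
lemma hw : 0 < S.w := by have := S.hw0; linarith
lemma CH1 : 1 ≤ CH S.w := CH_ge S.hw0
lemma eps_pos : 0 < eps S.w := by
  have := S.CH1
  unfold eps
  positivity
lemma eps_le : eps S.w ≤ 1 := by
  have := S.CH1
  unfold eps
  rw [div_le_one (by positivity)]
  linarith

lemma mem_BB {b : ℤ → ℝ} (hb : FS b) : MemLp (BB p.toReal S.w b) p volume :=
  memLp_of S.hp (meas_BB _ _ _) (II_BB S.hq1.le S.hq2 S.hw S.hw1 hb).le

/-- the norm of the first part -/
noncomputable def nb (b : ℤ → ℝ) : ℝ := ‖LL p volume (BB p.toReal S.w b)‖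

lemma nb_nonneg (b : ℤ → ℝ) : 0 ≤ S.nb b := norm_nonneg _

lemma nb_pow {b : ℤ → ℝ} (hb : FS b) : S.nb b ^ p.toReal = En p.toReal S.w b :=
  norm_LL_eq S.hp (meas_BB _ _ _) (En_nonneg S.hw) (II_BB S.hq1.le S.hq2 S.hw S.hw1 hb)

lemma abs_le_nb {b : ℤ → ℝ} (hb : FS b) (n : ℤ) : |b n| ≤ CH S.w * S.nb b := by
  apply le_of_rpow_le S.hq1.le S.CH1 (abs_nonneg _) (S.nb_nonneg b)
  rw [S.nb_pow hb]
  exact sup_le_En hb S.hq1.le S.hq2 S.hw0 S.hw1 n

lemma mem_Ψ (k : ℕ) {c : ℕ → ℤ → ℂ} (hc : ∀ i, FS (c i)) : MemLp (S.Ψ k c) p volume :=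
  memLp_of S.hp (S.meas_Ψ k c) (S.II_Ψ S.hq0 k hc)

lemma norm_Ψ (k : ℕ) {c : ℕ → ℤ → ℂ} (hc : ∀ i, FS (c i)) {α β : ℝ} (h0 : 0 < α) (h1 : α ≤ 1)
    (hβ : 0 ≤ β) (h : ∑ i ∈ range (S.R k), en p.toReal (c i) ≤ S.R k * (α ^ 2 * β ^ p.toReal)) :
    ‖LL p volume (S.Ψ k c)‖ ≤ α * β := by
  apply le_of_rpow_le_sq S.hq1.le S.hq2 h0 h1 (norm_nonneg _) hβ
  have hR : (0:ℝ) < S.R k := by exact_mod_cast S.R_pos k
  refine (norm_LL_le S.hp (S.meas_Ψ k c) (div_nonneg (sum_nonneg (fun _ _ => en_nonneg _)) hR.le)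
    (S.II_Ψ S.hq0 k hc)).trans ?_
  rw [div_le_iff₀ hR]
  linarith

/-- size of the correction terms -/
noncomputable def al (k : ℕ) : ℝ := eps S.w / 2 * (1 / 2) ^ k * (1 / 2) ^ S.P k

lemma al_pos (k : ℕ) : 0 < S.al k := by
  have := S.eps_pos
  unfold al
  positivity

lemma al_le (k : ℕ) : S.al k ≤ eps S.w * (1 / 2) ^ k := by
  have h1 := S.eps_pos
  have h2 := half_pow_le_one (S.P k)
  have h3 : 0 < eps S.w * (1 / 2) ^ k := by positivity
  unfold al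
  nlinarith

lemma al_le' (k : ℕ) : S.al k ≤ (1 / 2) ^ k :=
  (S.al_le k).trans (mul_le_of_le_one_left (by positivity) S.eps_le)

lemma al_le_one (k : ℕ) : S.al k ≤ 1 := (S.al_le' k).trans (half_pow_le_one k)

/-- the coefficient sequences of the correction terms -/
noncomputable def cc (k i : ℕ) (d : ℤ) : ℂ :=
  (((S.am k)⁻¹ : ℝ) : ℂ) * ker (S.L k) (S.m k i) (dl 0) d

lemma FS_cc (k i : ℕ) : FS (S.cc k i) :=
  (FS_ker _ _ (FS_dl 0)).mono (fun d hd => by rw [cc, hd, mul_zero])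

lemma norm_am (k : ℕ) : ‖(((S.am k)⁻¹ : ℝ) : ℂ)‖ = (S.am k)⁻¹ := by
  rw [Complex.norm_real, Real.norm_eq_abs, abs_of_pos (inv_pos.2 (S.ham k))]

lemma en_cc (k i : ℕ) : en p.toReal (S.cc k i) ≤ S.al k ^ 2 := by
  refine le_trans ?_ (S.g1 k)
  have h := en_const_mul (p := p.toReal) (((S.am k)⁻¹ : ℝ) : ℂ) (ker (S.L k) (S.m k i) (dl 0))
  rw [S.norm_am] at h
  refine (le_of_eq h).trans (mul_le_mul_of_nonneg_left ?_ (by have := S.ham k; positivity))
  refine (en_ker_dl S.hq1.le S.hq2 (S.ch2 _ (S.hL k)) _).trans ?_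
  have h1 := S.CH1
  have h2 := S.hC
  have h3 : 0 ≤ S.C * (S.L k : ℝ) ^ (-S.s) := by positivity
  nlinarith

lemma norm_of_en (k : ℕ) {c : ℕ → ℤ → ℂ} (hc : ∀ i, FS (c i))
    (h : ∀ i, en p.toReal (c i) ≤ S.al k ^ 2) : ‖LL p volume (S.Ψ k c)‖ ≤ S.al k := by
  have := S.norm_Ψ k hc (S.al_pos k) (S.al_le_one k) zero_le_one (by
    refine (sum_le_card_nsmul _ _ _ (fun i _ => h i)).trans (le_of_eq ?_)
    simp)
  rwa [mul_one] at this

/-- the correction terms -/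
noncomputable def Fk (k : ℕ) : Lp ℝ p (volume : Measure ℝ) := LL p volume (S.Ψ k (S.cc k))

lemma norm_Fk (k : ℕ) : ‖S.Fk k‖ ≤ S.al k := S.norm_of_en k (S.FS_cc k) (S.en_cc k)

lemma summable_Fk : Summable S.Fk :=
  Summable.of_norm_bounded summable_geometric_two (fun k => (S.norm_Fk k).trans (S.al_le' k))

/-- the generating function -/
noncomputable def ff : Lp ℝ p (volume : Measure ℝ) := f0 p S.w + ∑' k, S.Fk k

/-- the translation parameters -/
noncomputable def lam (n : ℕ) : ℝ := ((n : ℤ) : ℝ) + S.δ n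

/-- the translates -/
noncomputable def fs (n : ℕ) : Lp ℝ p (volume : Measure ℝ) := tr p (S.lam n) S.ff

/-- twisted coefficients -/
noncomputable def ct (k : ℕ) (n : ℤ) (i : ℕ) (d : ℤ) : ℂ := S.twf k i n * S.cc k i (d - n)

lemma FS_ct (k : ℕ) (n : ℤ) (i : ℕ) : FS (S.ct k n i) :=
  ((S.FS_cc k i).shift' n).mono (fun d hd => by
    have : S.cc k i (d - n) = 0 := hd
    rw [ct, this, mul_zero])

lemma en_ct (k : ℕ) (n : ℤ) (i : ℕ) : en p.toReal (S.ct k n i) ≤ S.al k ^ 2 := by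
  have h := en_const_mul (p := p.toReal) (S.twf k i n) (fun d => S.cc k i (d - n))
  rw [S.norm_twf, Real.one_rpow, one_mul, en_shift'] at h
  exact (le_of_eq h).trans (S.en_cc k i)

lemma err_k (k n : ℕ) : ‖tr p (S.lam n) (S.Fk k) - LL p volume (S.Ψ k (S.ct k n))‖ ≤
    eps S.w * (1 / 2) ^ k * (1 / 2) ^ n := by
  have he := S.eps_pos
  by_cases hn : n < S.P k
  · refine (norm_sub_le _ _).trans ?_
    rw [norm_tr]
    have h1 := S.norm_Fk k
    have h2 := S.norm_of_en k (S.FS_ct k n) (S.en_ct k n)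
    have h3 : eps S.w * (1 / 2) ^ k * (1 / 2) ^ S.P k ≤ eps S.w * (1 / 2) ^ k * (1 / 2) ^ n :=
      mul_le_mul_of_nonneg_left (half_pow_le hn.le) (by positivity)
    unfold al at h1 h2
    linarith
  have m1 := S.mem_Ψ k (S.FS_cc k)
  have e1 : (fun x => S.Ψ k (S.cc k) (x - S.lam n)) =
      fun x => S.Ψ k (fun i d => S.cc k i (d - n)) (x - S.δ n) := by
    ext x
    rw [← S.Ψ_int, lam]
    congr 1
    ring
  rw [Fk, tr_LL m1, ← LL_sub (memLp_shift m1 _) (S.mem_Ψ k (S.FS_ct k n))]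
  have e2 : (fun x => S.Ψ k (S.cc k) (x - S.lam n) - S.Ψ k (S.ct k n) x) =
      fun x => S.Ψ k (fun i d => S.cc k i (d - n)) (x - S.δ n) - S.Ψ k (S.ct k n) x := by
    ext x
    rw [congrFun e1 x]
  rw [e2]
  by_cases hc : ∃ z : ℕ × ℕ, S.core z.1 z.2 n
  · obtain ⟨⟨k0, i0⟩, hc⟩ := hc
    dsimp only at hc
    have b := S.core_bounds hc
    have hn2 : n < S.P (k0 + 1) := by
      rw [S.P_succ]
      omega
    have hk : k ≤ k0 := by
      by_contra h
      have := S.P_mono (show k0 + 1 ≤ k by omega)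
      omega
    have hP : (1:ℝ) ≤ S.P (k0 + 1) := by exact_mod_cast (show 1 ≤ S.P (k0 + 1) by omega)
    have hLc : (0:ℝ) ≤ (S.L k0 : ℝ) / S.c k0 := by positivity
    have t0 : 0 < eps S.w * (1 / 2) ^ k * (1 / 2) ^ n := by positivity
    have t1 : eps S.w * (1 / 2) ^ k * (1 / 2) ^ n ≤ 1 :=
      mul_le_one₀ (mul_le_one₀ S.eps_le (by positivity) (half_pow_le_one _)) (by positivity)
        (half_pow_le_one _)
    have t2 : (S.L k0 : ℝ) / S.c k0 * (6 * S.P (k0 + 1)) ≤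
        (eps S.w * (1 / 2) ^ k * (1 / 2) ^ n) ^ 2 := by
      refine (S.g2 k0).trans (pow_le_pow_left₀ (by positivity) ?_ 2)
      exact mul_le_mul (mul_le_mul_of_nonneg_left (half_pow_le hk) he.le) (half_pow_le hn2.le)
        (by positivity) (by positivity)
    have t3 : (S.L k0 : ℝ) / S.c k0 ≤ 1 := by
      have : (eps S.w * (1 / 2) ^ k * (1 / 2) ^ n) ^ 2 ≤ 1 := pow_le_one₀ t0.le t1
      nlinarith
    have fc : ∀ i, FS (fun d => S.cc k i (d - n)) := fun i => (S.FS_cc k i).shift' n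
    have h1 := S.II_shift S.hq1.le S.hq2 hc t3 k fc
    rw [S.δ_core hc]
    have h2 := norm_LL_le S.hp (((S.meas_Ψ k _).comp (measurable_id.sub_const _)).sub
      (S.meas_Ψ k _)) (mul_nonneg hLc (mul_nonneg (by norm_num)
        (sum_nonneg (fun _ _ => en_nonneg _)))) h1
    have h3 : ∑ i ∈ range (S.R k), en p.toReal (fun d => S.cc k i (d - n)) ≤ S.P (k0 + 1) := by
      refine (sum_le_card_nsmul _ _ 1 (fun i _ => ?_)).trans ?_
      · rw [en_shift']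
        exact (S.en_cc k i).trans (pow_le_one₀ (S.al_pos k).le (S.al_le_one k))
      · simp only [card_range, nsmul_eq_mul, mul_one]
        exact_mod_cast (S.R_le k).trans (S.P_mono (by omega))
    have h4 := le_of_rpow_le_sq S.hq1.le S.hq2 t0 t1 (norm_nonneg _) zero_le_one (h2.trans (by
      rw [Real.one_rpow, mul_one]
      exact (mul_le_mul_of_nonneg_left (by linarith) hLc).trans t2))
    rw [mul_one] at h4
    exact h4
  · have e3 : S.Ψ k (S.ct k n) = S.Ψ k (fun i d => S.cc k i (d - n)) := by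
      apply S.Ψ_congr
      intro i hi
      ext d
      rw [ct, S.twf_one hi (fun h => hc ⟨(k, i), h⟩), one_mul]
    rw [S.δ_zero hc, e3]
    simp only [sub_zero, sub_self]
    rw [LL_zero, norm_zero]
    positivity

lemma err_0 (n : ℕ) : ‖tr p (S.lam n) (f0 p S.w) - LL p volume (BB p.toReal S.w (dl n))‖ ≤
    eps S.w * (1 / 2) ^ n := by
  have he := S.eps_pos
  have m1 := S.mem_BB (FS_dl 0)
  have e1 : LL p volume (BB p.toReal S.w (dl n)) = tr p ((n : ℤ) : ℝ) (f0 p S.w) := by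
    rw [f0, tr_LL m1]
    simp only [BB_shift]
  have e2 : tr p (S.lam n) (f0 p S.w) = tr p ((n : ℤ) : ℝ) (tr p (S.δ n) (f0 p S.w)) := by
    rw [f0, tr_LL m1, tr_LL m1, tr_LL (memLp_shift m1 _)]
    simp only [lam, sub_sub]
  rw [e1, e2, ← map_sub, norm_tr]
  by_cases hc : ∃ z : ℕ × ℕ, S.core z.1 z.2 n
  · obtain ⟨⟨k0, i0⟩, hc⟩ := hc
    dsimp only at hc
    have b := S.core_bounds hc
    have hn2 : n < S.P (k0 + 1) := by
      rw [S.P_succ]
      omega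
    rw [S.δ_core hc]
    refine (S.g3 k0 _ (by rw [abs_of_nonneg (S.sh_nonneg _ _ _)]; exact S.sh_le hc)).trans ?_
    exact mul_le_mul_of_nonneg_left (half_pow_le hn2.le) he.le
  · rw [S.δ_zero hc, f0, tr_LL m1]
    simp only [sub_zero, sub_self, norm_zero]
    positivity

/-- coefficients of the main terms -/
noncomputable def cm (k : ℕ) (b : ℤ → ℝ) (i : ℕ) (d : ℤ) : ℂ :=
  (((S.am k)⁻¹ : ℝ) : ℂ) * ((b (S.m k i) : ℂ) * (dl 0 d - dl 1 d))

lemma FS_cm (k : ℕ) (b : ℤ → ℝ) (i : ℕ) : FS (S.cm k b i) :=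
  ((FS_dl (E := ℂ) 0).sub (FS_dl 1)).mono (fun d hd => by rw [cm, hd, mul_zero, mul_zero])

lemma err_blk (k : ℕ) {K : ℕ} {b : ℤ → ℝ} (hb : Sp K b) :
    ‖∑ n ∈ range K, b n • LL p volume (S.Ψ k (S.ct k n)) - LL p volume (S.Ψ k (S.cm k b))‖ ≤
      eps S.w * (1 / 2) ^ k * S.nb b := by
  obtain ⟨m1, e1⟩ := LL_lin (p := p) (μ := volume) (range K) (fun n => b n)
    (g := fun n : ℕ => S.Ψ k (S.ct k n)) (fun n _ => S.mem_Ψ k (S.FS_ct k n))
  rw [← e1, ← LL_sub m1 (S.mem_Ψ k (S.FS_cm k b))]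
  have e2 : (fun x => ∑ n ∈ range K, b n * S.Ψ k (S.ct k n) x - S.Ψ k (S.cm k b) x) =
      S.Ψ k (fun i d => (((S.am k)⁻¹ : ℝ) : ℂ) * berr (S.L k) (S.m k i) b d) := by
    ext x
    rw [S.Ψ_lin, S.Ψ_sub]
    congr 1
    ext i d
    rw [berr, mul_sub, cm, ← ker_sum (S.L k) (S.m k i) (g := tw (S.L k) (S.m k i) b) (Ico 0 (K : ℤ))
      (fun n hn => by rw [S.tw_eq, hb n (by rwa [mem_Ico] at hn)]; simp), mul_sum,
      sum_range_int K (fun n => (b n : ℂ) * S.ct k n i d)]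
    congr 1
    apply sum_congr rfl
    intro n _
    rw [S.tw_eq, ct, cc]
    ring
  rw [e2]
  refine (S.norm_Ψ k (fun i => (FS_berr _ _ hb.fs).mono (fun d hd => by rw [hd, mul_zero]))
    (S.al_pos k) (S.al_le_one k) (S.nb_nonneg b) ?_).trans
    (mul_le_mul_of_nonneg_right (S.al_le k) (S.nb_nonneg b))
  simp only [en_const_mul, S.norm_am]
  rw [← mul_sum, S.nb_pow hb.fs]
  have h1 := block_avg S.hq1.le S.hq2 S.hw0 S.hw1 S.hs S.hs1 S.hC (S.hL k) (S.ch1 _ (S.hL k))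
    (S.ch2 _ (S.hL k)) hb.fs ((S.P k : ℤ) + S.N k)
  have h2 : (0:ℝ) ≤ (S.am k)⁻¹ ^ p.toReal := by have := S.ham k; positivity
  refine (mul_le_mul_of_nonneg_left h1 h2).trans ?_
  have h3 : ((S.R k : ℕ) : ℝ) = (S.L k : ℝ) ^ 4 := by
    unfold Par.R
    push_cast
    rfl
  rw [h3, mul_left_comm, ← mul_assoc ((S.am k)⁻¹ ^ p.toReal)]
  exact mul_le_mul_of_nonneg_left (mul_le_mul_of_nonneg_right (S.g1 k) (En_nonneg S.hw))
    (by positivity)

/-- the main part -/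
noncomputable def MM (K : ℕ) (b : ℤ → ℝ) (x : ℝ) : ℝ := ∑ k ∈ range K, S.Ψ k (S.cm k b) x

lemma mem_MM (K : ℕ) (b : ℤ → ℝ) : MemLp (S.MM K b) p volume :=
  (LL_sum (range K) (g := fun k => S.Ψ k (S.cm k b)) (fun k _ => S.mem_Ψ k (S.FS_cm k b))).1

lemma sum_half_le (K : ℕ) : ∑ n ∈ range K, ((1:ℝ) / 2) ^ n ≤ 2 := by
  have := summable_geometric_two.sum_le_tsum (range K) (fun _ _ => by positivity)
  rwa [tsum_geometric_two] at this

theorem main_err {K K' : ℕ} {b : ℤ → ℝ} (hb : Sp K b) (hK : K ≤ S.P K') :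
    ‖∑ n ∈ range K, b n • S.fs n - (LL p volume (BB p.toReal S.w b) + LL p volume (S.MM K' b))‖
      ≤ S.nb b / 2 := by
  have he := S.eps_pos
  have hβ := S.nb_nonneg b
  have hCH := S.CH1
  have hsup := S.abs_le_nb hb.fs
  have gen : ∀ (u v : ℕ → Lp ℝ p (volume : Measure ℝ)) (γ : ℝ), 0 ≤ γ →
      (∀ n, ‖u n - v n‖ ≤ γ * (1 / 2) ^ n) →
      ‖∑ n ∈ range K, b n • u n - ∑ n ∈ range K, b n • v n‖ ≤ 2 * γ * (CH S.w * S.nb b) := by
    intro u v γ hγ h
    rw [← sum_sub_distrib]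
    refine (norm_sum_le _ _).trans ?_
    have : ∀ n ∈ range K, ‖b n • u n - b n • v n‖ ≤ γ * (CH S.w * S.nb b) * (1 / 2) ^ n := by
      intro n _
      rw [← smul_sub, norm_smul, Real.norm_eq_abs]
      refine (mul_le_mul (hsup n) (h n) (norm_nonneg _) (by positivity)).trans (le_of_eq ?_)
      ring
    refine (sum_le_sum this).trans ?_
    rw [← mul_sum]
    refine (mul_le_mul_of_nonneg_left (sum_half_le K) (by positivity)).trans (le_of_eq ?_)
    ring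
  have e0 : LL p volume (BB p.toReal S.w b) =
      ∑ n ∈ range K, b n • LL p volume (BB p.toReal S.w (dl n)) := by
    rw [← (LL_lin (p := p) (μ := volume) (range K) (fun n => b n)
      (g := fun n : ℕ => BB p.toReal S.w (dl n)) (fun n _ => S.mem_BB (FS_dl _))).2]
    congr 1
    ext x
    rw [← BB_lin]
    congr 1
    ext d
    rw [sum_range_int K (fun n => b n * dl n d), sum_eq_single d]
    · simp [dl]
    · intro n _ hn
      simp [dl, hn.symm]
    · intro h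
      rw [hb d (by rwa [mem_Ico] at h), zero_mul]
  have h0 := gen _ _ _ he.le S.err_0
  rw [← e0] at h0
  have s1 : HasSum (fun k => ∑ n ∈ range K, b n • tr p (S.lam n) (S.Fk k))
      (∑ n ∈ range K, b n • tr p (S.lam n) (∑' k, S.Fk k)) :=
    hasSum_sum (fun n _ => (S.summable_Fk.hasSum.mapL (tr p (S.lam n))).const_smul _)
  have s2 : HasSum (fun k => LL p volume (S.Ψ k (S.cm k b))) (LL p volume (S.MM K' b)) := by
    have e : LL p volume (S.MM K' b) = ∑ k ∈ range K', LL p volume (S.Ψ k (S.cm k b)) :=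
      (LL_sum (range K') (g := fun k => S.Ψ k (S.cm k b)) (fun k _ => S.mem_Ψ k (S.FS_cm k b))).2
    rw [e]
    apply hasSum_sum_of_ne_finset_zero
    intro k hk
    rw [mem_range, not_lt] at hk
    have h1 := S.P_mono hk
    have : S.Ψ k (S.cm k b) = fun _ => 0 := by
      ext x
      have h2 : b (S.m k (S.cell k x)) = 0 := by
        apply hb
        have h6 : (0:ℤ) ≤ (S.cell k x : ℤ) * S.L k := by positivity
        unfold Par.m
        omega
      simp [Par.Ψ, cm, h2]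
    rw [this, LL_zero]
  have s3 := s1.sub s2
  have s4 : HasSum (fun k : ℕ => (3 * eps S.w * (CH S.w * S.nb b)) * (1 / 2) ^ k)
      ((3 * eps S.w * (CH S.w * S.nb b)) * 2) := hasSum_geometric_two.mul_left _
  have h1 := s3.norm_le_of_bounded s4 (fun k => by
    have a1 := gen _ _ (eps S.w * (1 / 2) ^ k) (by positivity) (S.err_k k)
    have a2 := S.err_blk k hb
    have a3 := norm_add_le (∑ n ∈ range K, b n • tr p (S.lam n) (S.Fk k) -
      ∑ n ∈ range K, b n • LL p volume (S.Ψ k (S.ct k n)))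
      (∑ n ∈ range K, b n • LL p volume (S.Ψ k (S.ct k n)) - LL p volume (S.Ψ k (S.cm k b)))
    rw [sub_add_sub_cancel] at a3
    have a4 : eps S.w * (1 / 2) ^ k * S.nb b ≤ eps S.w * (1 / 2) ^ k * (CH S.w * S.nb b) :=
      mul_le_mul_of_nonneg_left (le_mul_of_one_le_left hβ hCH) (by positivity)
    linarith)
  have e1 : ∑ n ∈ range K, b n • S.fs n -
      (LL p volume (BB p.toReal S.w b) + LL p volume (S.MM K' b)) =
      (∑ n ∈ range K, b n • tr p (S.lam n) (f0 p S.w) - LL p volume (BB p.toReal S.w b)) +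
      (∑ n ∈ range K, b n • tr p (S.lam n) (∑' k, S.Fk k) - LL p volume (S.MM K' b)) := by
    simp only [fs, ff, map_add, smul_add, sum_add_distrib]
    abel
  rw [e1]
  refine (norm_add_le _ _).trans ?_
  have e2 : eps S.w * CH S.w = 1 / 16 := by
    unfold eps
    field_simp
  have e3 : eps S.w * (CH S.w * S.nb b) = S.nb b / 16 := by
    rw [← mul_assoc, e2]
    ring
  linarith

end Good

end H555Z.Tr
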