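import Mathlib

set_option autoImplicit false

open Finset

namespace H555Z.Tr

/-- weighted two-term power inequality -/
lemma add_rpow_le {p l a b : ℝ} (hp1 : 1 ≤ p) (hp2 : p ≤ 2) (hl0 : 0 < l) (hl1 : l < 1)
    (ha : 0 ≤ a) (hb : 0 ≤ b) : (a + b) ^ p ≤ a ^ p / l + b ^ p / (1 - l) := by
  have hl2 : 0 < 1 - l := by linarith
  have hc := (convexOn_rpow hp1).2 (show a / l ∈ Set.Ici (0:ℝ) from by simp; positivity)
    (show b / (1 - l) ∈ Set.Ici (0:ℝ) from by simp; positivity) hl0.le hl2.le (by ring)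
  simp only [smul_eq_mul] at hc
  have e1 : l * (a / l) + (1 - l) * (b / (1 - l)) = a + b := by field_simp
  rw [e1] at hc
  refine hc.trans ?_
  have key : ∀ (x m : ℝ), 0 ≤ x → 0 < m → m ≤ 1 → m * (x / m) ^ p ≤ x ^ p / m := by
    intro x m hx hm hm1
    rw [Real.div_rpow hx hm.le]
    have h1 : m ^ (2:ℝ) ≤ m ^ p := Real.rpow_le_rpow_of_exponent_ge hm hm1 hp2
    have h2 : m ^ (2:ℝ) = m * m := by rw [Real.rpow_two]; ring
    have h3 : 0 < m ^ p := Real.rpow_pos_of_pos hm p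
    have h4 : 0 ≤ x ^ p := Real.rpow_nonneg hx p
    rw [← mul_div_assoc, div_le_div_iff₀ h3 hm]
    rw [h2] at h1
    nlinarith [mul_le_mul_of_nonneg_left h1 h4]
  have := key a l ha hl0 hl1.le
  have := key b (1 - l) hb hl2 (by linarith)
  linarith

lemma add_rpow_le_two {p a b : ℝ} (hp1 : 1 ≤ p) (hp2 : p ≤ 2)
    (ha : 0 ≤ a) (hb : 0 ≤ b) : (a + b) ^ p ≤ 2 * a ^ p + 2 * b ^ p := by
  have := add_rpow_le (l := 1 / 2) hp1 hp2 (by norm_num) (by norm_num) ha hb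
  norm_num at this
  linarith

lemma norm_add_rpow_le_two {E : Type*} [SeminormedAddCommGroup E] {p : ℝ} (hp1 : 1 ≤ p)
    (hp2 : p ≤ 2) (u v : E) : ‖u + v‖ ^ p ≤ 2 * ‖u‖ ^ p + 2 * ‖v‖ ^ p :=
  (Real.rpow_le_rpow (norm_nonneg _) (norm_add_le u v) (by linarith)).trans
    (add_rpow_le_two hp1 hp2 (norm_nonneg _) (norm_nonneg _))

lemma convex_abs_rpow {p : ℝ} (hp1 : 1 ≤ p) : ConvexOn ℝ Set.univ (fun x : ℝ => |x| ^ p) := by
  refine ⟨convex_univ, ?_⟩
  intro x _ y _ a b ha hb hab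
  have hc := (convexOn_rpow hp1).2 (show |x| ∈ Set.Ici (0:ℝ) from abs_nonneg x)
    (show |y| ∈ Set.Ici (0:ℝ) from abs_nonneg y) ha hb hab
  simp only [smul_eq_mul] at hc ⊢
  refine le_trans ?_ hc
  apply Real.rpow_le_rpow (abs_nonneg _) _ (by linarith)
  calc |a * x + b * y| ≤ |a * x| + |b * y| := abs_add_le _ _
    _ = a * |x| + b * |y| := by rw [abs_mul, abs_mul, abs_of_nonneg ha, abs_of_nonneg hb]

/-- the symmetrised power function -/
noncomputable def gs (p A a t : ℝ) : ℝ := (|A + a * t| ^ p + |A - a * t| ^ p) / 2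

lemma gs_neg (p A a t : ℝ) : gs p A a (-t) = gs p A a t := by
  unfold gs
  rw [mul_neg, ← sub_eq_add_neg, sub_neg_eq_add, add_comm (|A - a * t| ^ p)]

lemma gs_convex {p : ℝ} (hp1 : 1 ≤ p) (A a : ℝ) : ConvexOn ℝ Set.univ (gs p A a) := by
  refine ⟨convex_univ, ?_⟩
  intro x _ y _ u v hu hv huv
  have h1 := (convex_abs_rpow hp1).2 (Set.mem_univ (A + a * x)) (Set.mem_univ (A + a * y)) hu hv huv
  have h2 := (convex_abs_rpow hp1).2 (Set.mem_univ (A - a * x)) (Set.mem_univ (A - a * y)) hu hv huv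
  simp only [smul_eq_mul] at h1 h2 ⊢
  have e1 : u * (A + a * x) + v * (A + a * y) = A + a * (u * x + v * y) := by
    have : A = (u + v) * A := by rw [huv, one_mul]
    linarith
  have e2 : u * (A - a * x) + v * (A - a * y) = A - a * (u * x + v * y) := by
    have : A = (u + v) * A := by rw [huv, one_mul]
    linarith
  rw [e1] at h1
  rw [e2] at h2
  unfold gs
  linarith

lemma gs_mono {p : ℝ} (hp1 : 1 ≤ p) (A a : ℝ) {s t : ℝ} (h : |s| ≤ |t|) :
    gs p A a s ≤ gs p A a t := by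
  by_cases ht : t = 0
  · subst ht
    have : s = 0 := by simpa using h
    rw [this]
  have habs : 0 < |t| := abs_pos.2 ht
  have hg : gs p A a |t| = gs p A a t := by
    rcases abs_choice t with h | h <;> rw [h]
    rw [gs_neg]
  have hc := (gs_convex hp1 A a).2 (Set.mem_univ |t|) (Set.mem_univ (-|t|))
    (show 0 ≤ (1 + s / |t|) / 2 from by
      have : -1 ≤ s / |t| := by
        rw [le_div_iff₀ habs]; have := neg_abs_le s; linarith
      linarith)
    (show 0 ≤ (1 - s / |t|) / 2 from by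
      have : s / |t| ≤ 1 := by
        rw [div_le_iff₀ habs]; have := le_abs_self s; linarith
      linarith) (by ring)
  simp only [smul_eq_mul] at hc
  have e : (1 + s / |t|) / 2 * |t| + (1 - s / |t|) / 2 * -|t| = s := by field_simp; ring
  rw [e, gs_neg, hg] at hc
  linarith

lemma gs_zero (p A a : ℝ) : gs p A a 0 = |A| ^ p := by simp [gs]

/-! ### the Bellman function -/

lemma bell_concave {p δ x y θ : ℝ} (hp1 : 1 < p) (hp2 : p ≤ 2) (hδ : 0 < δ) (hθ : |θ| ≤ 1) :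
    ConcaveOn ℝ Set.univ (fun t : ℝ => (δ + (x + t) ^ 2 + (y + θ * t) ^ 2) ^ (p / 2)
      - (2 / (p - 1)) * (δ + (x + t) ^ 2) ^ (p / 2)) := by
  have hA : ∀ t : ℝ, 0 < δ + (x + t) ^ 2 + (y + θ * t) ^ 2 := fun t => by positivity
  have hB : ∀ t : ℝ, 0 < δ + (x + t) ^ 2 := fun t => by positivity
  have hd1 : ∀ t : ℝ, HasDerivAt (fun t : ℝ => (δ + (x + t) ^ 2 + (y + θ * t) ^ 2) ^ (p / 2)
      - (2 / (p - 1)) * (δ + (x + t) ^ 2) ^ (p / 2))
      (p * ((x + t) + θ * (y + θ * t)) * (δ + (x + t) ^ 2 + (y + θ * t) ^ 2) ^ (p / 2 - 1)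
        - (2 / (p - 1)) * (p * (x + t) * (δ + (x + t) ^ 2) ^ (p / 2 - 1))) t := by
    intro t
    have h1 : HasDerivAt (fun t : ℝ => δ + (x + t) ^ 2 + (y + θ * t) ^ 2)
        (2 * (x + t) + 2 * (y + θ * t) * θ) t := by
      have a1 : HasDerivAt (fun t : ℝ => x + t) 1 t := (hasDerivAt_id t).const_add x
      have a2 : HasDerivAt (fun t : ℝ => y + θ * t) θ t := by
        simpa using ((hasDerivAt_id t).const_mul θ).const_add y
      exact (((a1.pow 2).const_add δ).add (a2.pow 2)).congr_deriv (by simp)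
    have h2 : HasDerivAt (fun t : ℝ => δ + (x + t) ^ 2) (2 * (x + t)) t := by
      have a1 : HasDerivAt (fun t : ℝ => x + t) 1 t := (hasDerivAt_id t).const_add x
      exact ((a1.pow 2).const_add δ).congr_deriv (by simp)
    have h3 := h1.rpow_const (p := p / 2) (Or.inl (hA t).ne')
    have h4 := (h2.rpow_const (p := p / 2) (Or.inl (hB t).ne')).const_mul (2 / (p - 1))
    exact (h3.sub h4).congr_deriv (by ring)
  have hd2 : ∀ t : ℝ, HasDerivAt (fun t : ℝ =>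
      p * ((x + t) + θ * (y + θ * t)) * (δ + (x + t) ^ 2 + (y + θ * t) ^ 2) ^ (p / 2 - 1)
        - (2 / (p - 1)) * (p * (x + t) * (δ + (x + t) ^ 2) ^ (p / 2 - 1)))
      (p * (1 + θ * θ) * (δ + (x + t) ^ 2 + (y + θ * t) ^ 2) ^ (p / 2 - 1)
        + p * (p - 2) * ((x + t) + θ * (y + θ * t)) ^ 2
          * (δ + (x + t) ^ 2 + (y + θ * t) ^ 2) ^ (p / 2 - 1 - 1)
        - (2 / (p - 1)) * (p * (δ + (x + t) ^ 2) ^ (p / 2 - 1)
          + p * (p - 2) * (x + t) ^ 2 * (δ + (x + t) ^ 2) ^ (p / 2 - 1 - 1))) t := by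
    intro t
    have a1 : HasDerivAt (fun t : ℝ => x + t) 1 t := (hasDerivAt_id t).const_add x
    have a2 : HasDerivAt (fun t : ℝ => y + θ * t) θ t := by
      simpa using ((hasDerivAt_id t).const_mul θ).const_add y
    have h1 : HasDerivAt (fun t : ℝ => δ + (x + t) ^ 2 + (y + θ * t) ^ 2)
        (2 * (x + t) + 2 * (y + θ * t) * θ) t := by
      exact (((a1.pow 2).const_add δ).add (a2.pow 2)).congr_deriv (by simp)
    have h2 : HasDerivAt (fun t : ℝ => δ + (x + t) ^ 2) (2 * (x + t)) t := by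
      exact ((a1.pow 2).const_add δ).congr_deriv (by simp)
    have h3 := h1.rpow_const (p := p / 2 - 1) (Or.inl (hA t).ne')
    have h4 := h2.rpow_const (p := p / 2 - 1) (Or.inl (hB t).ne')
    have h5 := ((a1.add (a2.const_mul θ)).const_mul p).mul h3
    have h6 := ((a1.const_mul p).mul h4).const_mul (2 / (p - 1))
    exact (h5.sub h6).congr_deriv (by simp only [Pi.add_apply]; ring)
  apply concaveOn_of_hasDerivWithinAt2_nonpos convex_univ
    (f' := fun t => p * ((x + t) + θ * (y + θ * t)) * (δ + (x + t) ^ 2 + (y + θ * t) ^ 2) ^ (p / 2 - 1)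
        - (2 / (p - 1)) * (p * (x + t) * (δ + (x + t) ^ 2) ^ (p / 2 - 1)))
    (f'' := fun t => p * (1 + θ * θ) * (δ + (x + t) ^ 2 + (y + θ * t) ^ 2) ^ (p / 2 - 1)
        + p * (p - 2) * ((x + t) + θ * (y + θ * t)) ^ 2
          * (δ + (x + t) ^ 2 + (y + θ * t) ^ 2) ^ (p / 2 - 1 - 1)
        - (2 / (p - 1)) * (p * (δ + (x + t) ^ 2) ^ (p / 2 - 1)
          + p * (p - 2) * (x + t) ^ 2 * (δ + (x + t) ^ 2) ^ (p / 2 - 1 - 1)))
  · exact fun t _ => (hd1 t).continuousAt.continuousWithinAt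
  · exact fun t _ => (hd1 t).hasDerivWithinAt
  · exact fun t _ => (hd2 t).hasDerivWithinAt
  · intro t _
    set A := δ + (x + t) ^ 2 + (y + θ * t) ^ 2 with hAdef
    set B := δ + (x + t) ^ 2 with hBdef
    have hA0 : 0 < A := hA t
    have hB0 : 0 < B := hB t
    have hAB : B ≤ A := by rw [hAdef, hBdef]; nlinarith [sq_nonneg (y + θ * t)]
    have k1 : A ^ (p / 2 - 1) ≤ B ^ (p / 2 - 1) :=
      Real.rpow_le_rpow_of_nonpos hB0 hAB (by linarith)
    have k2 : 0 < A ^ (p / 2 - 1 - 1) := Real.rpow_pos_of_pos hA0 _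
    have k3 : 0 < B ^ (p / 2 - 1) := Real.rpow_pos_of_pos hB0 _
    have k3' : 0 < A ^ (p / 2 - 1) := Real.rpow_pos_of_pos hA0 _
    have k4 : B ^ (p / 2 - 1 - 1) = B ^ (p / 2 - 1) / B := Real.rpow_sub_one hB0.ne' _
    have k5 : (x + t) ^ 2 * B ^ (p / 2 - 1 - 1) ≤ B ^ (p / 2 - 1) := by
      rw [k4, ← mul_div_assoc, div_le_iff₀ hB0]
      have : (x + t) ^ 2 ≤ B := by rw [hBdef]; linarith
      nlinarith
    have hθ2 : θ * θ ≤ 1 := by
      have := abs_mul_abs_self θ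
      nlinarith [abs_nonneg θ]
    have hp0 : 0 < p := by linarith
    have t1 : p * (1 + θ * θ) * A ^ (p / 2 - 1) ≤ 2 * p * B ^ (p / 2 - 1) := by
      have : (1 + θ * θ) * A ^ (p / 2 - 1) ≤ 2 * B ^ (p / 2 - 1) := by nlinarith
      nlinarith
    have t2 : p * (p - 2) * ((x + t) + θ * (y + θ * t)) ^ 2 * A ^ (p / 2 - 1 - 1) ≤ 0 := by
      have : 0 ≤ p * (2 - p) * ((x + t) + θ * (y + θ * t)) ^ 2 * A ^ (p / 2 - 1 - 1) := by
        have : 0 ≤ 2 - p := by linarith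
        positivity
      linarith
    have t3 : p * (p - 1) * B ^ (p / 2 - 1) ≤ p * B ^ (p / 2 - 1)
        + p * (p - 2) * (x + t) ^ 2 * B ^ (p / 2 - 1 - 1) := by
      have h7 : 0 ≤ p * (2 - p) := by
        have : 0 ≤ 2 - p := by linarith
        positivity
      nlinarith
    have t4 : 2 * p * B ^ (p / 2 - 1) ≤ (2 / (p - 1)) * (p * B ^ (p / 2 - 1)
        + p * (p - 2) * (x + t) ^ 2 * B ^ (p / 2 - 1 - 1)) := by
      have hp' : 0 < p - 1 := by linarith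
      calc 2 * p * B ^ (p / 2 - 1) = (2 / (p - 1)) * (p * (p - 1) * B ^ (p / 2 - 1)) := by
            field_simp
        _ ≤ _ := mul_le_mul_of_nonneg_left t3 (by positivity)
    linarith

/-- the Bellman function -/
noncomputable def bell (p x y : ℝ) : ℝ := (x ^ 2 + y ^ 2) ^ (p / 2) - (2 / (p - 1)) * |x| ^ p

lemma sq_rpow_half (p x : ℝ) : (x ^ 2) ^ (p / 2) = |x| ^ p := by
  rw [← sq_abs, ← Real.rpow_natCast, ← Real.rpow_mul (abs_nonneg x)]
  congr 1
  push_cast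
  ring

lemma bell_step {p x y h k : ℝ} (hp1 : 1 < p) (hp2 : p ≤ 2) (hk : |k| ≤ |h|) :
    bell p (x + h) (y + k) + bell p (x - h) (y - k) ≤ 2 * bell p x y := by
  obtain ⟨θ, hθ, rfl⟩ : ∃ θ : ℝ, |θ| ≤ 1 ∧ k = θ * h := by
    by_cases hh : h = 0
    · subst hh
      exact ⟨0, by simp, by simpa using hk⟩
    · refine ⟨k / h, ?_, by field_simp⟩
      rw [abs_div, div_le_one (abs_pos.2 hh)]
      exact hk
  have key : ∀ δ : ℝ, 0 < δ →
      ((δ + (x + h) ^ 2 + (y + θ * h) ^ 2) ^ (p / 2) - (2 / (p - 1)) * (δ + (x + h) ^ 2) ^ (p / 2))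
      + ((δ + (x - h) ^ 2 + (y - θ * h) ^ 2) ^ (p / 2) - (2 / (p - 1)) * (δ + (x - h) ^ 2) ^ (p / 2))
      ≤ 2 * ((δ + x ^ 2 + y ^ 2) ^ (p / 2) - (2 / (p - 1)) * (δ + x ^ 2) ^ (p / 2)) := by
    intro δ hδ
    have hc := (bell_concave (x := x) (y := y) hp1 hp2 hδ hθ).2 (Set.mem_univ h) (Set.mem_univ (-h))
      (show (0:ℝ) ≤ 1 / 2 by norm_num) (show (0:ℝ) ≤ 1 / 2 by norm_num) (by norm_num)
    simp only [smul_eq_mul] at hc
    have e : 1 / 2 * h + 1 / 2 * -h = 0 := by ring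
    rw [e] at hc
    simp only [add_zero, mul_zero, mul_neg, ← sub_eq_add_neg] at hc
    linarith
  have hp0 : 0 ≤ p / 2 := by linarith
  have cont : ∀ u v : ℝ, ContinuousAt (fun δ : ℝ => (δ + u ^ 2 + v ^ 2) ^ (p / 2)
      - (2 / (p - 1)) * (δ + u ^ 2) ^ (p / 2)) 0 := by
    intro u v
    have c1 : Continuous (fun δ : ℝ => (δ + u ^ 2 + v ^ 2) ^ (p / 2)) :=
      (by fun_prop : Continuous (fun δ : ℝ => δ + u ^ 2 + v ^ 2)).rpow_const (fun _ => Or.inr hp0)
    have c2 : Continuous (fun δ : ℝ => (δ + u ^ 2) ^ (p / 2)) :=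
      (by fun_prop : Continuous (fun δ : ℝ => δ + u ^ 2)).rpow_const (fun _ => Or.inr hp0)
    exact (c1.sub (c2.const_mul _)).continuousAt
  have l1 := ((cont (x + h) (y + θ * h)).add (cont (x - h) (y - θ * h))).tendsto
  have l2 := ((cont x y).const_mul 2).tendsto
  have l1' := l1.mono_left (nhdsWithin_le_nhds (s := Set.Ioi (0:ℝ)))
  have l2' := l2.mono_left (nhdsWithin_le_nhds (s := Set.Ioi (0:ℝ)))
  have := le_of_tendsto_of_tendsto l1' l2' (by
    filter_upwards [self_mem_nhdsWithin] with δ hδ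
    exact key δ hδ)
  simp only [Pi.add_apply, zero_add, sq_rpow_half] at this
  unfold bell
  linarith

lemma bell_init {p x y : ℝ} (hp1 : 1 < p) (hp2 : p ≤ 2) (h : |y| ≤ |x|) : bell p x y ≤ 0 := by
  unfold bell
  have h1 : x ^ 2 + y ^ 2 ≤ 2 * x ^ 2 := by
    have := sq_le_sq.2 h
    linarith
  have h2 : (x ^ 2 + y ^ 2) ^ (p / 2) ≤ (2 * x ^ 2) ^ (p / 2) :=
    Real.rpow_le_rpow (by positivity) h1 (by linarith)
  rw [Real.mul_rpow (by norm_num) (by positivity), sq_rpow_half] at h2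
  have h3 : (2:ℝ) ^ (p / 2) ≤ 2 ^ (1:ℝ) :=
    Real.rpow_le_rpow_of_exponent_le (by norm_num) (by linarith)
  rw [Real.rpow_one] at h3
  have h4 : (2:ℝ) ≤ 2 / (p - 1) := by
    rw [le_div_iff₀ (by linarith)]; linarith
  have h5 : 0 ≤ |x| ^ p := by positivity
  nlinarith

lemma bell_lower {p x y : ℝ} (hp1 : 1 < p) :
    |y| ^ p - (2 / (p - 1)) * |x| ^ p ≤ bell p x y := by
  unfold bell
  have h2 : (y ^ 2) ^ (p / 2) ≤ (x ^ 2 + y ^ 2) ^ (p / 2) :=
    Real.rpow_le_rpow (by positivity) (by nlinarith [sq_nonneg x]) (by linarith)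
  rw [sq_rpow_half] at h2
  linarith

/-- subadditivity of small powers over finite sums -/
lemma sum_rpow_le {ι : Type*} (s : Finset ι) (f : ι → ℝ) (hf : ∀ i, 0 ≤ f i) {q : ℝ}
    (hq0 : 0 < q) (hq1 : q ≤ 1) : (∑ i ∈ s, f i) ^ q ≤ ∑ i ∈ s, f i ^ q := by
  classical
  induction s using Finset.induction_on with
  | empty => simp [Real.zero_rpow hq0.ne']
  | insert a s ha ih =>
    rw [sum_insert ha, sum_insert ha]
    refine (Real.rpow_add_le_add_rpow (hf a) (sum_nonneg fun i _ => hf i) hq0.le hq1).trans ?_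
    linarith

end H555Z.Tr
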