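import Pool.Agent.H555Z.Tr.Digits

set_option autoImplicit false
set_option linter.unusedSectionVars false

open Finset MeasureTheory
open scoped ENNReal

namespace H555Z.Tr

/-- the class of a function in `L_p` (zero if it is not in `L_p`) -/
noncomputable def LL (p : ℝ≥0∞) (μ : Measure ℝ) (g : ℝ → ℝ) : Lp ℝ p μ := by
  classical
  exact if h : MemLp g p μ then h.toLp g else 0

/-- the integral of the `q`-th power -/
noncomputable def II (q : ℝ) (μ : Measure ℝ) (g : ℝ → ℝ) : ℝ≥0∞ :=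
  ∫⁻ x, ENNReal.ofReal (|g x| ^ q) ∂μ

section api
variable {p : ℝ≥0∞} [hp1 : Fact (1 ≤ p)] {μ : Measure ℝ}

lemma p_ne_zero : p ≠ 0 := (lt_of_lt_of_le zero_lt_one hp1.out).ne'

lemma q_pos (hp : p ≠ ∞) : 0 < p.toReal := ENNReal.toReal_pos p_ne_zero hp

lemma eLp_eq (hp : p ≠ ∞) (g : ℝ → ℝ) :
    eLpNorm g p μ = (II p.toReal μ g) ^ (1 / p.toReal) := by
  rw [eLpNorm_eq_lintegral_rpow_enorm_toReal p_ne_zero hp, II]
  congr 2
  ext x
  rw [Real.enorm_eq_ofReal_abs, ENNReal.ofReal_rpow_of_nonneg (abs_nonneg _) (q_pos hp).le]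

lemma memLp_of (hp : p ≠ ∞) {g : ℝ → ℝ} (hm : Measurable g) {A : ℝ}
    (h : II p.toReal μ g ≤ ENNReal.ofReal A) : MemLp g p μ := by
  refine ⟨hm.aestronglyMeasurable, ?_⟩
  rw [eLp_eq hp]
  exact ENNReal.rpow_lt_top_of_nonneg (by have := q_pos hp; positivity)
    (ne_top_of_le_ne_top ENNReal.ofReal_ne_top h)

omit hp1 in
lemma LL_eq {g : ℝ → ℝ} (h : MemLp g p μ) : LL p μ g = h.toLp g := by
  unfold LL
  rw [dif_pos h]

omit hp1 in
lemma LL_ae {g : ℝ → ℝ} (h : MemLp g p μ) : LL p μ g =ᵐ[μ] g := by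
  rw [LL_eq h]
  exact h.coeFn_toLp

lemma norm_LL (hp : p ≠ ∞) {g : ℝ → ℝ} (h : MemLp g p μ) :
    ‖LL p μ g‖ ^ p.toReal = (II p.toReal μ g).toReal := by
  have hq := q_pos hp
  rw [LL_eq h, Lp.norm_toLp, eLp_eq hp, ← ENNReal.toReal_rpow, ← Real.rpow_mul ENNReal.toReal_nonneg,
    one_div, inv_mul_cancel₀ hq.ne', Real.rpow_one]

lemma norm_LL_le (hp : p ≠ ∞) {g : ℝ → ℝ} (hm : Measurable g) {A : ℝ} (hA : 0 ≤ A)
    (h : II p.toReal μ g ≤ ENNReal.ofReal A) : ‖LL p μ g‖ ^ p.toReal ≤ A := by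
  rw [norm_LL hp (memLp_of hp hm h)]
  exact ENNReal.toReal_le_of_le_ofReal hA h

lemma norm_LL_eq (hp : p ≠ ∞) {g : ℝ → ℝ} (hm : Measurable g) {A : ℝ} (hA : 0 ≤ A)
    (h : II p.toReal μ g = ENNReal.ofReal A) : ‖LL p μ g‖ ^ p.toReal = A := by
  rw [norm_LL hp (memLp_of hp hm h.le), h, ENNReal.toReal_ofReal hA]

omit hp1 in
lemma LL_add {g g' : ℝ → ℝ} (h : MemLp g p μ) (h' : MemLp g' p μ) :
    LL p μ (fun x => g x + g' x) = LL p μ g + LL p μ g' := by
  rw [LL_eq h, LL_eq h', ← MemLp.toLp_add]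
  exact LL_eq (h.add h')

omit hp1 in
lemma LL_sub {g g' : ℝ → ℝ} (h : MemLp g p μ) (h' : MemLp g' p μ) :
    LL p μ (fun x => g x - g' x) = LL p μ g - LL p μ g' := by
  rw [LL_eq h, LL_eq h', ← MemLp.toLp_sub]
  exact LL_eq (h.sub h')

omit hp1 in
lemma LL_smul {g : ℝ → ℝ} (h : MemLp g p μ) (c : ℝ) :
    LL p μ (fun x => c * g x) = c • LL p μ g := by
  rw [LL_eq h, LL_eq (h.const_mul c), ← MemLp.toLp_const_smul]
  rfl

omit hp1 in
lemma LL_zero : LL p μ (fun _ => 0) = 0 := by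
  exact (LL_eq (MemLp.zero)).trans (MemLp.toLp_zero _)

lemma LL_sum {ι : Type*} (s : Finset ι) {g : ι → ℝ → ℝ} (h : ∀ i ∈ s, MemLp (g i) p μ) :
    MemLp (fun x => ∑ i ∈ s, g i x) p μ ∧
      LL p μ (fun x => ∑ i ∈ s, g i x) = ∑ i ∈ s, LL p μ (g i) := by
  classical
  induction s using Finset.induction_on with
  | empty => exact ⟨by simp, by simpa using LL_zero⟩
  | insert a s ha ih =>
    obtain ⟨h1, h2⟩ := ih (fun i hi => h i (mem_insert_of_mem hi))
    have h3 := h a (mem_insert_self _ _)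
    simp only [sum_insert ha]
    exact ⟨h3.add h1, by rw [LL_add h3 h1, h2]⟩

lemma LL_lin {ι : Type*} (s : Finset ι) (a : ι → ℝ) {g : ι → ℝ → ℝ}
    (h : ∀ i ∈ s, MemLp (g i) p μ) :
    MemLp (fun x => ∑ i ∈ s, a i * g i x) p μ ∧
      LL p μ (fun x => ∑ i ∈ s, a i * g i x) = ∑ i ∈ s, a i • LL p μ (g i) := by
  obtain ⟨h1, h2⟩ := LL_sum s (g := fun i x => a i * g i x) (fun i hi => (h i hi).const_mul _)
  refine ⟨h1, ?_⟩
  rw [h2]
  exact sum_congr rfl (fun i hi => LL_smul (h i hi) _)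

lemma LL_mono {g g' : ℝ → ℝ} (h : MemLp g p μ) (h' : MemLp g' p μ) (hh : ∀ x, |g x| ≤ |g' x|) :
    ‖LL p μ g‖ ≤ ‖LL p μ g'‖ := by
  apply Lp.norm_le_norm_of_ae_le
  filter_upwards [LL_ae h, LL_ae h'] with x h1 h2
  rw [h1, h2]
  exact hh x

lemma Bd.memLp {g : ℝ → ℝ} (h : Bd g) [IsFiniteMeasure μ] : MemLp g p μ := by
  obtain ⟨m, C, hC⟩ := h
  exact MemLp.of_bound m.aestronglyMeasurable C (Filter.Eventually.of_forall hC)

omit hp1 in
lemma Bd.II_eq {g : ℝ → ℝ} (h : Bd g) [IsFiniteMeasure μ] {q : ℝ} (hq : 0 ≤ q) :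
    II q μ g = ENNReal.ofReal (∫ x, |g x| ^ q ∂μ) := by
  rw [ofReal_integral_eq_lintegral_ofReal ((h.abs_rpow hq).integrable μ)
    (Filter.Eventually.of_forall (fun x => by positivity)), II]

lemma Bd.norm_LL (hp : p ≠ ∞) {g : ℝ → ℝ} (h : Bd g) [IsFiniteMeasure μ] :
    ‖LL p μ g‖ ^ p.toReal = ∫ x, |g x| ^ p.toReal ∂μ :=
  norm_LL_eq hp h.1 (integral_nonneg (fun x => by positivity)) (h.II_eq (q_pos hp).le)

/-- translation -/
noncomputable def tr (p : ℝ≥0∞) [Fact (1 ≤ p)] (a : ℝ) :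
    Lp ℝ p (volume : Measure ℝ) →L[ℝ] Lp ℝ p (volume : Measure ℝ) :=
  (Lp.compMeasurePreservingₗᵢ ℝ (fun x => x - a)
    (measurePreserving_sub_right volume a)).toContinuousLinearMap

lemma tr_apply (a : ℝ) (f : Lp ℝ p (volume : Measure ℝ)) : tr p a f =
    Lp.compMeasurePreserving (fun x => x - a) (measurePreserving_sub_right volume a) f := rfl

lemma tr_ae (a : ℝ) (f : Lp ℝ p (volume : Measure ℝ)) :
    tr p a f =ᵐ[volume] fun x => f (x - a) :=
  Lp.coeFn_compMeasurePreserving f (measurePreserving_sub_right volume a)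

lemma norm_tr (a : ℝ) (f : Lp ℝ p (volume : Measure ℝ)) : ‖tr p a f‖ = ‖f‖ :=
  Lp.norm_compMeasurePreserving f (measurePreserving_sub_right volume a)

omit hp1 in
lemma memLp_shift {g : ℝ → ℝ} (h : MemLp g p volume) (a : ℝ) :
    MemLp (fun x => g (x - a)) p volume :=
  h.comp_measurePreserving (measurePreserving_sub_right volume a)

lemma tr_LL {g : ℝ → ℝ} (h : MemLp g p volume) (a : ℝ) :
    tr p a (LL p volume g) = LL p volume (fun x => g (x - a)) := by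
  rw [LL_eq h, LL_eq (memLp_shift h a), tr_apply, Lp.toLp_compMeasurePreserving]
  rfl

lemma tr_cont (hp : p ≠ ∞) (f : Lp ℝ p (volume : Measure ℝ)) {ε : ℝ} (hε : 0 < ε) :
    ∃ ω : ℝ, 0 < ω ∧ ∀ δ : ℝ, |δ| ≤ ω → ‖tr p δ f - f‖ ≤ ε := by
  have hc : Continuous (fun z : ℝ => tr p z f) := by
    have := Continuous.compMeasurePreservingLp (p := p) (μ := volume) (ν := volume)
      (f := fun _ : ℝ => f) (g := fun z : ℝ => (⟨fun x => x - z, by fun_prop⟩ : C(ℝ, ℝ)))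
      continuous_const (ContinuousMap.continuous_of_continuous_uncurry _ (by
        change Continuous (fun q : ℝ × ℝ => q.2 - q.1)
        fun_prop)) (fun z => measurePreserving_sub_right volume z) hp
    exact this
  have h0 : tr p 0 f = f := by
    apply Lp.ext
    filter_upwards [tr_ae 0 f] with x hx
    rw [hx, sub_zero]
  obtain ⟨δ, hδ, h⟩ := Metric.continuousAt_iff.1 (hc.continuousAt (x := 0)) ε hε
  refine ⟨δ / 2, by linarith, fun z hz => ?_⟩
  have := h (x := z) (by rw [Real.dist_eq, sub_zero]; linarith)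
  rw [h0, dist_eq_norm] at this
  exact this.le

end api

/-- the standard dyadic digits -/
noncomputable def std : Flips P01 :=
  digFlips (fun j => 2 ^ j) (fun j => by positivity) (fun j j' h => by
    rw [← pow_succ']
    exact pow_dvd_pow 2 h)

/-- the Haar system in `L_p[0,1]` -/
noncomputable def haar (p : ℝ≥0∞) (k : ℕ) : Lp ℝ p P01 := LL p P01 (fun x => phi k (std.dig x))

theorem haar_dense {p : ℝ≥0∞} [Fact (1 ≤ p)] (hp : p ≠ ∞) (f : Lp ℝ p P01) {ε : ℝ} (hε : 0 < ε) :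
    ∃ (K : ℕ) (a : ℕ → ℝ), ‖f - ∑ k ∈ range K, a k • haar p k‖ ≤ ε := by
  obtain ⟨g, hg, g_mem⟩ := (Lp.memLp f).exists_boundedContinuous_eLpNorm_sub_le hp
    (ε := ENNReal.ofReal (ε / 2)) (by simpa using hε)
  have h1 : ‖f - LL p P01 g‖ ≤ ε / 2 := by
    rw [Lp.norm_def]
    apply ENNReal.toReal_le_of_le_ofReal (by linarith)
    refine le_trans (le_of_eq (eLpNorm_congr_ae ?_)) hg
    filter_upwards [Lp.coeFn_sub f (LL p P01 g), LL_ae g_mem] with x h1 h2
    rw [h1, Pi.sub_apply, Pi.sub_apply, h2]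
  have hu := (isCompact_Icc (a := (0:ℝ)) (b := 1)).uniformContinuousOn_of_continuous
    g.continuous.continuousOn
  obtain ⟨δ, hδ, hu⟩ := Metric.uniformContinuousOn_iff.1 hu (ε / 2) (by linarith)
  obtain ⟨n, hn⟩ := exists_pow_lt_of_lt_one hδ (show (1:ℝ) / 2 < 1 by norm_num)
  obtain ⟨a, ha⟩ := haar_repr n (fun v => g (((v : ℝ) - 2 ^ n) / 2 ^ n))
  refine ⟨2 ^ n, a, ?_⟩
  obtain ⟨m1, e1⟩ := LL_lin (p := p) (μ := P01) (range (2 ^ n)) a
    (g := fun k x => phi k (std.dig x)) (fun k _ => (std.bd_phi k).memLp)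
  have h2 : ‖LL p P01 g - ∑ k ∈ range (2 ^ n), a k • haar p k‖ ≤ ε / 2 := by
    unfold haar
    rw [← e1, ← LL_sub g_mem m1]
    refine (Lp.norm_le_of_ae_bound (C := ε / 2) (by linarith) ?_).trans (le_of_eq ?_)
    · filter_upwards [LL_ae (g_mem.sub m1), ae_restrict_mem (μ := volume)
        (measurableSet_Ico (a := (0:ℝ)) (b := 1))] with x h1 hx
      have h1' : LL p P01 (fun x => g x - ∑ i ∈ range (2 ^ n), a i * phi i (std.dig x)) x =
          g x - ∑ i ∈ range (2 ^ n), a i * phi i (std.dig x) := h1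
      rw [h1', ← ha]
      have hz := node_std n hx
      have hz' : ((node n (std.dig x) : ℕ) : ℝ) = 2 ^ n + (⌊((2 ^ n : ℕ) : ℝ) * x⌋ : ℝ) := by
        have : (node n (std.dig x) : ℤ) = 2 ^ n + ⌊((2 ^ n : ℕ) : ℝ) * x⌋ := hz
        exact_mod_cast this
      rw [hz', add_sub_cancel_left, ← dist_eq_norm]
      have f1 := Int.floor_le (((2 ^ n : ℕ) : ℝ) * x)
      have f2 := Int.lt_floor_add_one (((2 ^ n : ℕ) : ℝ) * x)
      have f3 : (0:ℝ) ≤ (⌊((2 ^ n : ℕ) : ℝ) * x⌋ : ℝ) := by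
        have : 0 ≤ ⌊((2 ^ n : ℕ) : ℝ) * x⌋ := Int.floor_nonneg.2 (by have := hx.1; positivity)
        exact_mod_cast this
      set z := (⌊((2 ^ n : ℕ) : ℝ) * x⌋ : ℝ)
      push_cast at f1 f2
      have t0 : (0:ℝ) < 2 ^ n := by positivity
      have g1 : z / 2 ^ n ≤ x := by rw [div_le_iff₀ t0]; linarith
      have g2 : x - z / 2 ^ n < δ := by
        refine lt_trans ?_ hn
        rw [one_div, inv_pow, ← one_div, sub_lt_iff_lt_add, ← add_div, lt_div_iff₀ t0]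
        linarith
      refine (hu x ⟨hx.1, hx.2.le⟩ _ ⟨by positivity, g1.trans hx.2.le⟩ ?_).le
      rw [Real.dist_eq, abs_of_nonneg (by linarith)]
      exact g2
    · have : measureUnivNNReal P01 = 1 := by simp [measureUnivNNReal]
      simp [this]
  have := norm_add_le (f - LL p P01 g) (LL p P01 g - ∑ k ∈ range (2 ^ n), a k • haar p k)
  rw [sub_add_sub_cancel] at this
  linarith

theorem embed {X Y : Type*} [NormedAddCommGroup X] [NormedSpace ℝ X] [CompleteSpace X]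
    [NormedAddCommGroup Y] [NormedSpace ℝ Y] [CompleteSpace Y] (h : ℕ → X) (y : ℕ → Y)
    (hd : ∀ (f : X) (ε : ℝ), 0 < ε → ∃ (K : ℕ) (a : ℕ → ℝ), ‖f - ∑ k ∈ range K, a k • h k‖ ≤ ε)
    (C : ℝ) (h1 : ∀ (K : ℕ) (a : ℕ → ℝ),
      ‖∑ k ∈ range K, a k • y k‖ ≤ C * ‖∑ k ∈ range K, a k • h k‖)
    (h2 : ∀ (K : ℕ) (a : ℕ → ℝ), ‖∑ k ∈ range K, a k • h k‖ ≤ C * ‖∑ k ∈ range K, a k • y k‖)
    (W : Submodule ℝ Y) (hW : IsClosed (W : Set Y)) (hy : ∀ k, y k ∈ W) :
    ∃ Z : Submodule ℝ Y, IsClosed (Z : Set Y) ∧ Z ≤ W ∧ Nonempty (X ≃L[ℝ] Z) := by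
  set e := Finsupp.linearCombination ℝ h with he
  set T := Finsupp.linearCombination ℝ y with hT
  have rep : ∀ a : ℕ →₀ ℝ, ∃ K : ℕ, e a = ∑ k ∈ range K, a k • h k ∧
      T a = ∑ k ∈ range K, a k • y k := by
    intro a
    have hs : a.support ⊆ range (a.support.sup id + 1) := by
      intro i hi
      rw [mem_range]
      have : i ≤ a.support.sup id := le_sup (f := id) hi
      omega
    refine ⟨a.support.sup id + 1, ?_, ?_⟩
    · rw [he, Finsupp.linearCombination_apply,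
        Finsupp.sum_of_support_subset a hs (fun i a => a • h i) (fun _ _ => zero_smul _ _)]
    · rw [hT, Finsupp.linearCombination_apply,
        Finsupp.sum_of_support_subset a hs (fun i a => a • y i) (fun _ _ => zero_smul _ _)]
  have dense : DenseRange e := by
    rw [Metric.denseRange_iff]
    intro f ε hε
    obtain ⟨K, a, ha⟩ := hd f (ε / 2) (by linarith)
    refine ⟨∑ k ∈ range K, Finsupp.single k (a k), ?_⟩
    rw [map_sum, dist_eq_norm]
    simp only [he, Finsupp.linearCombination_single]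
    linarith
  have n1 : ∀ a, ‖T a‖ ≤ C * ‖e a‖ := by
    intro a
    obtain ⟨K, e1, e2⟩ := rep a
    rw [e1, e2]
    exact h1 K a
  set U := T.extendOfNorm e with hU
  have hUe : ∀ a, U (e a) = T a := LinearMap.extendOfNorm_eq dense ⟨C, n1⟩
  have n2 : ∀ x, ‖x‖ ≤ C * ‖U x‖ := by
    intro x
    refine dense.induction_on (p := fun x => ‖x‖ ≤ C * ‖U x‖) x
      (isClosed_le (by fun_prop) (by fun_prop)) (fun a => ?_)
    obtain ⟨K, e1, e2⟩ := rep a
    rw [hUe, e1, e2]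
    exact h2 K a
  have n3 : ∀ x, U x ∈ W := by
    intro x
    refine dense.induction_on (p := fun x => U x ∈ W) x (hW.preimage U.continuous) (fun a => ?_)
    obtain ⟨K, e1, e2⟩ := rep a
    rw [hUe, e2]
    exact W.sum_mem (fun k _ => W.smul_mem _ (hy k))
  have anti : AntilipschitzWith (Real.toNNReal C) U :=
    U.antilipschitz_of_bound (fun x => (n2 x).trans
      (mul_le_mul_of_nonneg_right (Real.le_coe_toNNReal C) (norm_nonneg _)))
  have hcl : IsClosed (Set.range U) := anti.isClosed_range U.uniformContinuous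
  refine ⟨U.range, hcl, ?_, ⟨U.equivRange anti.injective hcl⟩⟩
  rintro _ ⟨x, rfl⟩
  exact n3 x

end H555Z.Tr
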