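import Pool.Agent.H555Z.Tr.Err
import Pool.Agent.Elton955.Grun

set_option autoImplicit false

open Finset MeasureTheory Real
open scoped ENNReal

namespace H555Z.Tr

namespace Par
variable (S : Par)

/-- cosine or sine of the phase -/
noncomputable def cs (k : ℕ) (x : ℝ) : ℝ := (S.uu x * S.ph k (S.cell k x) x).re

lemma cs_eq (k : ℕ) (x : ℝ) : S.cs k x =
    if S.F.r 0 x = true then (if S.F.r 1 x = true then sin (S.th k x) else cos (S.th k x)) else 0 := by
  have e : S.ph k (S.cell k x) x = ex (S.th k x) := rfl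
  unfold cs uu
  rw [e]
  split_ifs
  · unfold ex
    rw [mul_comm Complex.I, Complex.exp_mul_I]
    simp [Complex.sin_ofReal_re, Complex.cos_ofReal_im, Complex.sin_ofReal_im]
  · rw [one_mul, ex_re]
  · simp

lemma bd_sin (k : ℕ) : Bd (fun x => sin (S.th k x)) :=
  ⟨measurable_sin.comp (S.meas_th k), 1, fun _ => abs_sin_le_one _⟩

lemma bd_cos (k : ℕ) : Bd (fun x => cos (S.th k x)) :=
  ⟨measurable_cos.comp (S.meas_th k), 1, fun _ => abs_cos_le_one _⟩

lemma abs_cs (k : ℕ) (x : ℝ) : |S.cs k x| ≤ 1 := by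
  rw [cs_eq]
  split_ifs
  · exact abs_sin_le_one _
  · exact abs_cos_le_one _
  · simp

lemma bd_cs (k : ℕ) : Bd (S.cs k) := by
  refine ⟨?_, 1, S.abs_cs k⟩
  have e : S.cs k = fun x => if S.F.r 0 x = true then
      (if S.F.r 1 x = true then sin (S.th k x) else cos (S.th k x)) else 0 := by
    ext x
    exact S.cs_eq k x
  rw [e]
  exact Measurable.ite (S.F.meas 0 (measurableSet_singleton true))
    (Measurable.ite (S.F.meas 1 (measurableSet_singleton true)) (S.bd_sin k).1 (S.bd_cos k).1)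
    measurable_const

lemma cs_T (k j : ℕ) (x : ℝ) : S.cs k (S.F.drop2.T j x) = S.cs k x := by
  change S.cs k (S.F.T (j + 2) x) = S.cs k x
  rw [cs_eq, cs_eq, S.th_T, S.F.keep _ _ _ (show 0 ≠ j + 2 by omega),
    S.F.keep _ _ _ (show 1 ≠ j + 2 by omega)]

lemma cell_int (k : ℕ) (x : ℝ) (n : ℤ) : S.cell k (x - n) = S.cell k x := by
  unfold cell
  rw [dg_int]

lemma cs_int (k : ℕ) (x : ℝ) (n : ℤ) : S.cs k (x - n) = S.cs k x := by
  unfold cs ph pd
  rw [S.cell_int, S.uu_congr (fun j => S.r_int j x n), dg_int]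

lemma dig_T01 {j : ℕ} (hj : j < 2) (x : ℝ) : S.F.drop2.dig (S.F.T j x) = S.F.drop2.dig x := by
  ext i
  exact S.F.keep _ _ _ (show i + 2 ≠ j by omega)

lemma quarter (c : Bool) {g : ℝ → ℝ} (h : Bd g) (hg : ∀ j, j < 2 → ∀ x, g (S.F.T j x) = g x) :
    ∫ x, (if S.F.r 0 x = true then (if S.F.r 1 x = c then g x else 0) else 0) ∂P01 =
      (∫ x, g x ∂P01) / 4 := by
  rw [S.F.half 0 true (h.ite (q := fun x => S.F.r 1 x = c)
    (S.F.meas 1 (measurableSet_singleton c))) (fun x => by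
    rw [S.F.keep _ _ _ (show 1 ≠ 0 by omega), hg 0 (by omega)]),
    S.F.half 1 c h (hg 1 (by omega))]
  ring

lemma lower {q : ℝ} (hq1 : 1 < q) (hq2 : q ≤ 2) (K : ℕ) (a : ℕ → ℝ) :
    ∫ x, |∑ k ∈ range K, a k * phi k (S.F.drop2.dig x)| ^ q ∂P01 ≤
      8 * (2 / (q - 1)) * ∫ x, |∑ k ∈ range K, a k * S.cs k x * phi k (S.F.drop2.dig x)| ^ q ∂P01 := by
  have hq : 0 < q := by linarith
  have bs : ∀ k, Bd (fun x => a k * sin (S.th k x)) := fun k => (Bd.const _).mul (S.bd_sin k)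
  have bc : ∀ k, Bd (fun x => a k * cos (S.th k x)) := fun k => (Bd.const _).mul (S.bd_cos k)
  have bs2 : ∀ k, Bd (fun x => a k * sin (S.th k x) * sin (S.th k x)) :=
    fun k => (bs k).mul (S.bd_sin k)
  have bc2 : ∀ k, Bd (fun x => a k * cos (S.th k x) * cos (S.th k x)) :=
    fun k => (bc k).mul (S.bd_cos k)
  have hT : ∀ k j x, S.th k (S.F.drop2.T j x) = S.th k x := fun k j x => S.th_T k (j + 2) x
  have c1 := S.F.drop2.cmp hq1 hq2 bs bs2 (fun k j x => by rw [hT]) (fun k j x => by rw [hT])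
    (fun k x => by
      rw [abs_mul (a k * _)]
      exact mul_le_of_le_one_right (abs_nonneg _) (abs_sin_le_one _)) K
  have c2 := S.F.drop2.cmp hq1 hq2 bc bc2 (fun k j x => by rw [hT]) (fun k j x => by rw [hT])
    (fun k x => by
      rw [abs_mul (a k * _)]
      exact mul_le_of_le_one_right (abs_nonneg _) (abs_cos_le_one _)) K
  have i1 := (S.F.drop2.bd_sum bs K).abs_rpow hq.le
  have i2 := (S.F.drop2.bd_sum bc K).abs_rpow hq.le
  have i3 := (S.F.drop2.bd_sum bs2 K).abs_rpow hq.le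
  have i4 := (S.F.drop2.bd_sum bc2 K).abs_rpow hq.le
  have i5 := (S.F.drop2.bd_sum (β := fun k _ => a k) (fun k => Bd.const _) K).abs_rpow hq.le
  have q1 := S.quarter true i1 (fun j hj x => by simp only [S.th_T, S.dig_T01 hj])
  have q2 := S.quarter false i2 (fun j hj x => by simp only [S.th_T, S.dig_T01 hj])
  have j1 := (i1.ite (S.F.meas 1 (measurableSet_singleton true))).ite
    (S.F.meas 0 (measurableSet_singleton true))
  have j2 := (i2.ite (S.F.meas 1 (measurableSet_singleton false))).ite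
    (S.F.meas 0 (measurableSet_singleton true))
  have e : ∫ x, |∑ k ∈ range K, a k * S.cs k x * phi k (S.F.drop2.dig x)| ^ q ∂P01 =
      (∫ x, |∑ k ∈ range K, a k * sin (S.th k x) * phi k (S.F.drop2.dig x)| ^ q ∂P01) / 4 +
      (∫ x, |∑ k ∈ range K, a k * cos (S.th k x) * phi k (S.F.drop2.dig x)| ^ q ∂P01) / 4 := by
    rw [← q1, ← q2]
    refine Eq.trans ?_ (integral_add (j1.integrable P01) (j2.integrable P01))
    congr 1
    ext x
    simp only [cs_eq]
    cases S.F.r 0 x <;> cases S.F.r 1 x <;> simp [Real.zero_rpow hq.ne']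
  have h1 : ∫ x, |∑ k ∈ range K, a k * phi k (S.F.drop2.dig x)| ^ q ∂P01 ≤
      ∫ x, (2 * |∑ k ∈ range K, a k * sin (S.th k x) * sin (S.th k x) * phi k (S.F.drop2.dig x)| ^ q
        + 2 * |∑ k ∈ range K, a k * cos (S.th k x) * cos (S.th k x) *
          phi k (S.F.drop2.dig x)| ^ q) ∂P01 := by
    apply integral_mono (i5.integrable P01)
      (((i3.integrable P01).const_mul 2).add ((i4.integrable P01).const_mul 2))
    intro x
    have := norm_add_rpow_le_two hq1.le hq2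
      (∑ k ∈ range K, a k * sin (S.th k x) * sin (S.th k x) * phi k (S.F.drop2.dig x))
      (∑ k ∈ range K, a k * cos (S.th k x) * cos (S.th k x) * phi k (S.F.drop2.dig x))
    rw [← sum_add_distrib] at this
    simp only [Real.norm_eq_abs] at this
    refine le_trans (le_of_eq ?_) this
    beta_reduce
    congr 2
    apply sum_congr rfl
    intro k _
    have := sin_sq_add_cos_sq (S.th k x)
    linear_combination (-(a k * phi k (S.F.drop2.dig x))) * this
  rw [integral_add ((i3.integrable P01).const_mul 2) ((i4.integrable P01).const_mul 2),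
    integral_const_mul, integral_const_mul] at h1
  rw [e]
  linarith

end Par

namespace Good
variable {p : ℝ≥0∞} [Fact (1 ≤ p)] (S : Good p)

/-- the unconditionality constant -/
noncomputable def cq (p : ℝ≥0∞) : ℝ := 2 / (p.toReal - 1)

lemma cq_ge (S : Good p) : 1 ≤ cq p := by
  have := S.hq1
  have := S.hq2
  unfold cq
  rw [le_div_iff₀ (by linarith)]
  linarith

/-- the random coefficients of the main part -/
noncomputable def be (b : ℤ → ℝ) (k : ℕ) (x : ℝ) : ℝ :=
  (S.am k)⁻¹ * b (S.m k (S.cell k x)) * S.cs k x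

lemma bd_be (b : ℤ → ℝ) (k : ℕ) : Bd (S.be b k) :=
  ((Bd.const _).mul (Bd.index (β := fun i _ => b (S.m k i)) (fun _ => Bd.const _) (S.meas_cell k) _
    (S.cell_lt k))).mul (S.bd_cs k)

lemma be_T (b : ℤ → ℝ) (k j : ℕ) (x : ℝ) : S.be b k (S.F.drop2.T j x) = S.be b k x := by
  unfold be
  rw [S.cs_T]
  change _ * b (S.m k (S.cell k (S.F.T (j + 2) x))) * _ = _
  rw [S.cell_T]

lemma MM_eq (K : ℕ) (b : ℤ → ℝ) (x : ℝ) : S.MM K b x =
    (∑ k ∈ range K, S.be b k x * phi k (S.F.drop2.dig x)) * (dl 0 ⌊x⌋ - dl 1 ⌊x⌋) := by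
  unfold MM
  rw [sum_mul]
  apply sum_congr rfl
  intro k _
  have e : S.cm k b (S.cell k x) ⌊x⌋ =
      (((S.am k)⁻¹ * b (S.m k (S.cell k x)) * (dl 0 ⌊x⌋ - dl 1 ⌊x⌋) : ℝ) : ℂ) := by
    unfold cm dl
    split_ifs <;> simp
  unfold Par.Ψ be Par.cs Par.hr
  rw [e, Complex.re_mul_ofReal]
  ring

/-- the norm of the main part -/
noncomputable def nm (K : ℕ) (b : ℤ → ℝ) : ℝ := ‖LL p volume (S.MM K b)‖

lemma nm_nonneg (K : ℕ) (b : ℤ → ℝ) : 0 ≤ S.nm K b := norm_nonneg _

lemma nm_pow (K : ℕ) (b : ℤ → ℝ) : S.nm K b ^ p.toReal =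
    2 * ∫ x, |∑ k ∈ range K, S.be b k x * phi k (S.F.drop2.dig x)| ^ p.toReal ∂P01 := by
  have hq := S.hq0
  have bd := S.F.drop2.bd_sum (S.bd_be b) K
  have fv : FS (fun d : ℤ => (dl 0 d - dl 1 d : ℝ)) := (FS_dl 0).sub (FS_dl 1)
  have ev : en p.toReal (fun d : ℤ => (dl 0 d - dl 1 d : ℝ)) = 2 := by
    rw [en_eq_sum hq {0, 1} (fun d hd => by
      simp only [mem_insert, mem_singleton, not_or] at hd
      simp [dl, hd.1, hd.2])]
    simp [dl]
    norm_num
  have mm : Measurable (S.MM K b) :=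
    Finset.measurable_sum (range K) (fun k _ => S.meas_Ψ k (S.cm k b))
  apply norm_LL_eq S.hp mm (mul_nonneg (by norm_num) (integral_nonneg (fun x => by positivity)))
  have e : ∀ x, ENNReal.ofReal (|S.MM K b x| ^ p.toReal) =
      ENNReal.ofReal (|∑ k ∈ range K, S.be b k x * phi k (S.F.drop2.dig x)| ^ p.toReal) *
        ENNReal.ofReal (‖(dl 0 ⌊x⌋ - dl 1 ⌊x⌋ : ℝ)‖ ^ p.toReal) := by
    intro x
    rw [MM_eq, abs_mul, Real.mul_rpow (abs_nonneg _) (abs_nonneg _),
      ENNReal.ofReal_mul (by positivity), Real.norm_eq_abs]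
  unfold II
  simp only [e]
  rw [tensor _ (bd.abs_rpow hq.le).1.ennreal_ofReal (fun x d => by
    have e1 : x + d = x - ((-d : ℤ) : ℝ) := by
      push_cast
      ring
    have e2 : S.F.drop2.dig (x - ((-d : ℤ) : ℝ)) = S.F.drop2.dig x := by
      ext j
      exact S.r_int (j + 2) x (-d)
    simp only [e1, e2, be, S.cell_int, S.cs_int])
    (fun d => ENNReal.ofReal (‖(dl 0 d - dl 1 d : ℝ)‖ ^ p.toReal)), ofReal_en hq fv, ev]
  have := bd.II_eq (μ := P01) hq.le
  unfold II at this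
  rw [this, mul_comm, ← ENNReal.ofReal_mul (by norm_num)]

lemma disj (K : ℕ) (b : ℤ → ℝ) (x : ℝ) : BB p.toReal S.w b x = 0 ∨ S.MM K b x = 0 := by
  by_cases h : dg 1 2 x = 1
  · exact Or.inl (BB_half _ _ _ h)
  · right
    have h1 : S.F.r 0 x = false := by
      change decide (dg (S.M 0 0) 2 x = 1) = false
      rw [S.M00]
      simpa using h
    rw [MM_eq]
    simp [be, Par.cs_eq, h1]

theorem two_sided {K K' : ℕ} {b : ℤ → ℝ} (hb : Sp K b) (hK : K ≤ S.P K') :
    ‖∑ n ∈ range K, b n • S.fs n‖ ≤ 2 * (S.nb b + S.nm K' b) ∧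
      S.nb b ≤ 2 * ‖∑ n ∈ range K, b n • S.fs n‖ ∧
      S.nm K' b ≤ 2 * ‖∑ n ∈ range K, b n • S.fs n‖ := by
  have h := S.main_err hb hK
  have m1 := S.mem_BB hb.fs
  have m2 := S.mem_MM K' b
  have a1 : S.nb b ≤ ‖LL p volume (BB p.toReal S.w b) + LL p volume (S.MM K' b)‖ := by
    rw [← LL_add m1 m2]
    refine LL_mono m1 (m1.add m2) (fun x => ?_)
    rcases S.disj K' b x with h | h <;> simp [h]
  have a2 : S.nm K' b ≤ ‖LL p volume (BB p.toReal S.w b) + LL p volume (S.MM K' b)‖ := by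
    rw [← LL_add m1 m2]
    refine LL_mono m2 (m1.add m2) (fun x => ?_)
    rcases S.disj K' b x with h | h <;> simp [h]
  have a3 := norm_add_le (LL p volume (BB p.toReal S.w b)) (LL p volume (S.MM K' b))
  have a4 := abs_le.1 ((abs_norm_sub_norm_le _ _).trans h)
  have a5 := S.nb_nonneg b
  have a6 := S.nm_nonneg K' b
  unfold nb nm at *
  refine ⟨by linarith, by linarith, by linarith⟩

lemma nb_tb {b : ℤ → ℝ} (hb : FS b) (m : ℤ) : S.nb (tb m b) ≤ (1 + CH S.w) * S.nb b := by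
  apply le_of_rpow_le S.hq1.le (by have := S.CH1; linarith) (S.nb_nonneg _) (S.nb_nonneg _)
  rw [S.nb_pow hb, S.nb_pow (hb.tb m)]
  exact En_tb hb S.hq1.le S.hq2 S.hw0 S.hw1 m

lemma nm_tb (K : ℕ) (b : ℤ → ℝ) (m : ℤ) : S.nm K (tb m b) ≤ cq p * S.nm K b := by
  apply le_of_rpow_le S.hq1.le S.cq_ge (S.nm_nonneg _ _) (S.nm_nonneg _ _)
  rw [S.nm_pow, S.nm_pow]
  have := S.F.drop2.cmp S.hq1 S.hq2 (S.bd_be b) (S.bd_be (tb m b)) (S.be_T b) (S.be_T _)
    (fun k x => by
      unfold be tb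
      split_ifs
      · exact le_rfl
      · simp only [mul_zero, zero_mul, abs_zero, abs_nonneg]) K
  unfold cq
  linarith

/-- extension by zero -/
def ext (a : ℕ → ℝ) (K : ℕ) (d : ℤ) : ℝ := if 0 ≤ d ∧ d < K then a d.toNat else 0

lemma Sp_ext (a : ℕ → ℝ) (K : ℕ) : Sp K (ext a K) := fun d hd => by rw [ext, if_neg hd]

theorem trunc (a : ℕ → ℝ) (m n : ℕ) (h : m ≤ n) : ‖∑ i ∈ range m, a i • S.fs i‖ ≤
    (4 * (1 + CH S.w + cq p)) * ‖∑ i ∈ range n, a i • S.fs i‖ := by
  have e1 : ∑ i ∈ range n, a i • S.fs i = ∑ i ∈ range n, ext a n i • S.fs i := by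
    apply sum_congr rfl
    intro i hi
    rw [mem_range] at hi
    rw [ext, if_pos (by omega), Int.toNat_natCast]
  have e2 : ∑ i ∈ range m, a i • S.fs i = ∑ i ∈ range n, tb ((m : ℤ) - 1) (ext a n) i • S.fs i := by
    symm
    rw [← sum_subset (s₁ := range m)]
    · apply sum_congr rfl
      intro i hi
      rw [mem_range] at hi
      rw [tb, if_pos (by omega), ext, if_pos (by omega), Int.toNat_natCast]
    · exact range_subset_range.2 h
    · intro i _ hi
      rw [mem_range] at hi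
      rw [tb, if_neg (by omega), zero_smul]
  have s1 := Sp_ext a n
  have s2 : Sp n (tb ((m : ℤ) - 1) (ext a n)) := fun d hd => by simp [tb, s1 d hd]
  obtain ⟨-, a1, a2⟩ := S.two_sided s1 (S.le_P n)
  obtain ⟨a3, -, -⟩ := S.two_sided s2 (S.le_P n)
  have a4 := S.nb_tb s1.fs ((m : ℤ) - 1)
  have a5 := S.nm_tb n (ext a n) ((m : ℤ) - 1)
  have a6 := mul_le_mul_of_nonneg_left a1 (show 0 ≤ 1 + CH S.w by have := S.CH1; linarith)
  have a7 := mul_le_mul_of_nonneg_left a2 (show 0 ≤ cq p by have := S.cq_ge; linarith)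
  rw [e1, e2]
  linarith

theorem fs_ne (n : ℕ) : S.fs n ≠ 0 := by
  intro h
  have s1 : Sp (n + 1) (dl n) := fun d hd => by
    have : d ≠ n := by omega
    simp [dl, this]
  obtain ⟨-, a1, -⟩ := S.two_sided s1 (S.le_P (n + 1))
  have e : ∑ i ∈ range (n + 1), (dl n (i : ℤ) : ℝ) • S.fs i = 0 := by
    apply sum_eq_zero
    intro i _
    by_cases hi : i = n
    · rw [hi, h, smul_zero]
    · simp [dl, hi]
  rw [e, norm_zero, mul_zero] at a1
  have a2 := S.abs_le_nb s1.fs n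
  have a3 := S.CH1
  simp only [dl, if_true, abs_one] at a2
  have a4 : CH S.w * S.nb (dl n) ≤ 0 := mul_nonpos_of_nonneg_of_nonpos (by linarith) a1
  exact absurd (a2.trans a4) (by norm_num)

/-- the coefficient sequences of the images of the Haar functions -/
noncomputable def yc (k : ℕ) (d : ℤ) : ℝ := S.am k * trap (S.P k) (S.N k) d

lemma Sp_yc {k K : ℕ} (h : S.P (k + 1) ≤ K) : Sp K (S.yc k) := fun d hd => by
  rw [S.P_succ] at h
  rw [yc, trap_zero (S.N_pos k) (by rw [mem_Ico]; omega), mul_zero]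

/-- the images of the Haar functions -/
noncomputable def yy (k : ℕ) : Lp ℝ p (volume : Measure ℝ) :=
  ∑ n ∈ range (S.P (k + 1)), S.yc k n • S.fs n

lemma nb_yc (k : ℕ) : S.nb (S.yc k) ≤ (1 / 2) ^ k * ‖haar p k‖ := by
  apply le_of_rpow_le_sq S.hq1.le S.hq2 (by positivity) (half_pow_le_one k) (S.nb_nonneg _)
    (norm_nonneg _)
  rw [S.nb_pow (S.Sp_yc le_rfl).fs]
  refine le_trans (le_of_eq ?_) (S.g4 k)
  unfold En yc
  rw [← tsum_mul_left]
  congr 1
  ext i
  simp only [← mul_sub]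
  rw [en_const_mul_real, abs_of_pos (S.ham k)]
  ring

lemma norm_haar_sum (S : Good p) (K : ℕ) (a : ℕ → ℝ) : ‖∑ k ∈ range K, a k • haar p k‖ ^ p.toReal =
    ∫ x, |∑ k ∈ range K, a k * phi k (std.dig x)| ^ p.toReal ∂P01 := by
  unfold haar
  rw [← (LL_lin (p := p) (μ := P01) (range K) a
    (g := fun k x => phi k (std.dig x)) (fun k _ => (std.bd_phi k).memLp)).2]
  exact (std.bd_sum (β := fun k _ => a k) (fun k => Bd.const _) K).norm_LL S.hp

lemma coef_le (S : Good p) {K k : ℕ} (hk : k < K) (a : ℕ → ℝ) :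
    |a k| * ‖haar p k‖ ≤ cq p * ‖∑ k ∈ range K, a k • haar p k‖ := by
  have e : ∑ j ∈ range K, (if j = k then a k else 0) • haar p j = a k • haar p k := by
    rw [sum_eq_single k]
    · simp
    · intro j _ hj
      simp [hj]
    · intro h
      exact absurd (mem_range.2 hk) h
  rw [← Real.norm_eq_abs, ← norm_smul, ← e]
  apply le_of_rpow_le S.hq1.le S.cq_ge (norm_nonneg _) (norm_nonneg _)
  rw [S.norm_haar_sum, S.norm_haar_sum]
  exact std.cmp S.hq1 S.hq2 (β := fun k _ => a k) (β' := fun j _ => if j = k then a k else 0)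
    (fun _ => Bd.const _) (fun _ => Bd.const _) (fun _ _ _ => rfl) (fun _ _ _ => rfl)
    (fun j _ => by
      by_cases h : j = k
      · simp [h]
      · simp [h]) K

theorem emb_bounds (K : ℕ) (a : ℕ → ℝ) :
    ‖∑ k ∈ range K, a k • S.yy k‖ ≤ 8 * cq p * ‖∑ k ∈ range K, a k • haar p k‖ ∧
      ‖∑ k ∈ range K, a k • haar p k‖ ≤ 8 * cq p * ‖∑ k ∈ range K, a k • S.yy k‖ := by
  have hc := S.cq_ge
  set b : ℤ → ℝ := fun d => ∑ k ∈ range K, a k * S.yc k d with hb
  have sp : ∀ k ∈ range K, Sp (S.P K) (S.yc k) :=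
    fun k hk => S.Sp_yc (S.P_mono (mem_range.1 hk))
  have s1 : Sp (S.P K) b := fun d hd => sum_eq_zero (fun k hk => by rw [sp k hk d hd, mul_zero])
  have e1 : ∑ k ∈ range K, a k • S.yy k = ∑ n ∈ range (S.P K), b n • S.fs n := by
    simp only [hb, sum_smul]
    rw [sum_comm]
    apply sum_congr rfl
    intro k hk
    rw [yy, smul_sum]
    simp only [smul_smul]
    apply sum_subset (range_subset_range.2 (S.P_mono (show k + 1 ≤ K from mem_range.1 hk)))
    intro n _ hn
    rw [mem_range] at hn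
    rw [S.Sp_yc le_rfl n (by omega), mul_zero, zero_smul]
  have e2 : ∀ x, ∑ k ∈ range K, S.be b k x * phi k (S.F.drop2.dig x) =
      ∑ k ∈ range K, a k * S.cs k x * phi k (S.F.drop2.dig x) := by
    intro x
    apply sum_congr rfl
    intro k hk
    have hcore : S.core k (S.cell k x) (S.m k (S.cell k x)) :=
      ⟨S.cell_lt k x, le_rfl, by have := S.hL k; omega⟩
    have bd := S.core_bounds hcore
    have : b (S.m k (S.cell k x)) = a k * S.am k := by
      rw [hb]
      beta_reduce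
      rw [sum_eq_single k]
      · have b1 : ((S.P k : ℝ) + S.N k) ≤ (S.m k (S.cell k x) : ℝ) := by exact_mod_cast bd.1
        have b2 : (S.m k (S.cell k x) : ℝ) < (S.P k : ℝ) + 2 * S.N k := by exact_mod_cast bd.2
        rw [yc, trap, tz_one (by exact_mod_cast S.N_pos k) (by linarith) (by linarith), mul_one]
      · intro j _ hj
        rw [yc, trap_zero (S.N_pos j), mul_zero, mul_zero]
        rw [mem_Ico]
        rcases lt_or_gt_of_ne hj with h | h
        · have := S.P_mono (show j + 1 ≤ k from h)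
          rw [S.P_succ] at this
          omega
        · have := S.P_mono (show k + 1 ≤ j from h)
          rw [S.P_succ] at this
          omega
      · intro h
        exact absurd hk h
    rw [be, this]
    have := (S.ham k).ne'
    field_simp
  obtain ⟨a1, -, a2⟩ := S.two_sided s1 le_rfl
  set X := ‖∑ k ∈ range K, a k • haar p k‖ with hX
  have hX0 : 0 ≤ X := norm_nonneg _
  have t1 : X ^ p.toReal =
      ∫ x, |∑ k ∈ range K, a k * phi k (S.F.drop2.dig x)| ^ p.toReal ∂P01 := by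
    rw [hX, S.norm_haar_sum]
    exact std.transfer S.F.drop2 _ K a
  have t2 := S.nm_pow K b
  simp only [e2] at t2
  have u1 : S.nm K b ≤ (2 * cq p) * X := by
    apply le_of_rpow_le S.hq1.le (by linarith) (S.nm_nonneg _ _) hX0
    rw [t1, t2]
    have := S.F.drop2.cmp S.hq1 S.hq2 (β := fun k _ => a k) (β' := fun k x => a k * S.cs k x)
      (fun _ => Bd.const _) (fun k => (Bd.const _).mul (S.bd_cs k)) (fun _ _ _ => rfl)
      (fun k j x => by rw [S.cs_T]) (fun k x => by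
        rw [abs_mul]
        exact mul_le_of_le_one_right (abs_nonneg _) (S.abs_cs k x)) K
    unfold cq
    linarith
  have u2 : X ≤ (4 * cq p) * S.nm K b := by
    apply le_of_rpow_le S.hq1.le (by linarith) hX0 (S.nm_nonneg _ _)
    rw [t1, t2]
    have := S.lower S.hq1 S.hq2 K a
    unfold cq
    linarith
  have u3 : S.nb b ≤ 2 * (cq p * X) := by
    have e3 : LL p volume (BB p.toReal S.w b) =
        ∑ k ∈ range K, a k • LL p volume (BB p.toReal S.w (S.yc k)) := by
      rw [← (LL_lin (p := p) (μ := volume) (range K) a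
        (g := fun k => BB p.toReal S.w (S.yc k)) (fun k hk => S.mem_BB (sp k hk).fs)).2]
      congr 1
      ext x
      exact BB_lin _ _ _ _ _ x
    rw [nb, e3]
    refine (norm_sum_le _ _).trans ?_
    have : ∀ k ∈ range K, ‖a k • LL p volume (BB p.toReal S.w (S.yc k))‖ ≤
        cq p * X * (1 / 2) ^ k := by
      intro k hk
      rw [norm_smul, Real.norm_eq_abs]
      have h1 := mul_le_mul_of_nonneg_left (S.nb_yc k) (abs_nonneg (a k))
      have h2 := mul_le_mul_of_nonneg_right (S.coef_le (mem_range.1 hk) a)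
        (show (0:ℝ) ≤ (1 / 2) ^ k by positivity)
      unfold nb at h1
      linarith
    refine (sum_le_sum this).trans ?_
    rw [← mul_sum, mul_comm 2]
    exact mul_le_mul_of_nonneg_left (sum_half_le K) (by positivity)
  rw [e1]
  have a3 := mul_le_mul_of_nonneg_left a2 (show 0 ≤ 4 * cq p by linarith)
  constructor <;> linarith

end Good

theorem exists_good {p : ℝ≥0∞} [Fact (1 ≤ p)] (hp : p ≠ ∞) (hq1 : 1 < p.toReal)
    (hq2 : p.toReal ≤ 2) : Nonempty (Good p) := by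
  have hq : 0 < p.toReal := by linarith
  obtain ⟨s, C, hs, hs1, hC, hch⟩ := chirp_est hq1 hq2
  set t := s / 20 with ht
  have ht0 : 0 < t := by positivity
  have ht1 : t ≤ 1 / 2 := by linarith
  set w : ℝ := 2 ^ (t - 1) with hw
  have hw0 : 1 / 2 < w := by
    have : (2:ℝ) ^ (-1:ℝ) < 2 ^ (t - 1) := Real.rpow_lt_rpow_of_exponent_lt (by norm_num) (by linarith)
    rw [Real.rpow_neg_one] at this
    rw [hw]
    linarith
  have hw1 : w < 1 := Real.rpow_lt_one_of_one_lt_of_neg (by norm_num) (by linarith)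
  have hr1 : (2:ℝ) ^ (-t) < 1 := Real.rpow_lt_one_of_one_lt_of_neg (by norm_num) (by linarith)
  set Ct : ℝ := 6 / (1 - 2 ^ (-t)) with hCt
  have hCt0 : 0 < Ct := div_pos (by norm_num) (by linarith)
  have hCH := CH_ge hw0
  have he : 0 < eps w := by
    unfold eps
    positivity
  set η : ℕ → ℝ := fun k => ((1 / 2) ^ k) ^ 2 * ‖haar p k‖ ^ p.toReal with hη
  have hη0 : ∀ k, 0 < η k := by
    intro k
    have h1 : ‖haar p k‖ ^ p.toReal = ∫ x, |phi k (std.dig x)| ^ p.toReal ∂P01 :=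
      (std.bd_phi k).norm_LL hp
    have h2 := std.phi_pos p.toReal k
    rw [← h1] at h2
    rw [hη]
    positivity
  have hL : ∀ k P : ℕ, ∃ L : ℕ, 0 < L ∧ Ct / η k * (38 * C * CH w) * (L : ℝ) ^ (-(s / 2)) ≤
      (eps w / 2 * (1 / 2) ^ k * (1 / 2) ^ P) ^ 2 := by
    intro k P
    have h1 := ((tendsto_rpow_neg_atTop (show 0 < s / 2 by positivity)).comp
      tendsto_natCast_atTop_atTop).const_mul (Ct / η k * (38 * C * CH w))
    rw [mul_zero] at h1
    have h2 := h1.eventually (ge_mem_nhds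
      (show 0 < (eps w / 2 * (1 / 2) ^ k * (1 / 2) ^ P) ^ 2 by positivity))
    obtain ⟨L, h3, h4⟩ := ((Filter.eventually_gt_atTop 0).and h2).exists
    exact ⟨L, h3, h4⟩
  have hc : ∀ k P L : ℕ, ∃ c : ℕ, 0 < c ∧ (L : ℝ) / c * (6 * P) ≤
      (eps w * (1 / 2) ^ k * (1 / 2) ^ P) ^ 2 ∧ ∀ δ : ℝ, |δ| ≤ (L : ℝ) / c →
        ‖tr p δ (f0 p w) - f0 p w‖ ≤ eps w * (1 / 2) ^ P := by
    intro k P L
    obtain ⟨ω, hω, h0⟩ := tr_cont hp (f0 p w) (show 0 < eps w * (1 / 2) ^ P by positivity)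
    have h1 := tendsto_const_div_atTop_nhds_zero_nat (L : ℝ)
    have h2 := h1.mul_const (6 * (P : ℝ))
    rw [zero_mul] at h2
    have h3 := h2.eventually (ge_mem_nhds
      (show 0 < (eps w * (1 / 2) ^ k * (1 / 2) ^ P) ^ 2 by positivity))
    have h4 := h1.eventually (ge_mem_nhds hω)
    obtain ⟨c, h5, h6, h7⟩ := ((Filter.eventually_gt_atTop 0).and (h3.and h4)).exists
    exact ⟨c, h5, h6, fun δ hδ => h0 δ (hδ.trans h7)⟩
  choose fL hfL using hL
  choose fc hfc using hc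
  let Ps : ℕ → ℕ := fun k => Nat.rec 0 (fun k P => P + 3 * fL k P ^ 5) k
  let S : Par := ⟨fun k => fL k (Ps k), fun k => fc k (Ps (k + 1)) (fL k (Ps k)),
    fun k => (hfL k _).1, fun k => (hfc k _ _).1⟩
  have hP : ∀ k, S.P k = Ps k := by
    intro k
    induction k with
    | zero => rfl
    | succ k ih =>
      change S.P k + _ = Ps k + _
      rw [ih]
  have hN : ∀ k, (0:ℝ) < S.N k := fun k => by exact_mod_cast S.N_pos k
  have hA : ∀ k, 0 < η k / (Ct * (S.N k : ℝ) ^ (2 * t)) := fun k => by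
    have := hη0 k
    have := hN k
    positivity
  have hAq : ∀ k, ((η k / (Ct * (S.N k : ℝ) ^ (2 * t))) ^ (1 / p.toReal)) ^ p.toReal =
      η k / (Ct * (S.N k : ℝ) ^ (2 * t)) := fun k => by
    rw [← Real.rpow_mul (hA k).le, one_div, inv_mul_cancel₀ hq.ne', Real.rpow_one]
  refine ⟨{ S with
    w := w, C := C, s := s
    am := fun k => (η k / (Ct * (S.N k : ℝ) ^ (2 * t))) ^ (1 / p.toReal)
    hp := hp, hq1 := hq1, hq2 := hq2, hw0 := hw0, hw1 := hw1, hs := hs, hs1 := hs1, hC := hC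
    ch1 := fun L hL => (hch L hL).1
    ch2 := fun L hL => (hch L hL).2
    ham := fun k => Real.rpow_pos_of_pos (hA k) _
    g1 := fun k => ?_
    g2 := fun k => ?_
    g3 := fun k => ?_
    g4 := fun k => ?_ }⟩
  · rw [hP]
    refine le_trans (le_of_eq ?_) (hfL k (Ps k)).2
    rw [Real.inv_rpow (Real.rpow_pos_of_pos (hA k) _).le, hAq]
    have hL0 : (0:ℝ) < S.L k := by exact_mod_cast S.hL k
    have e1 : (S.N k : ℝ) ^ (2 * t) = (S.L k : ℝ) ^ (s / 2) := by
      unfold Par.N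
      push_cast
      rw [← Real.rpow_natCast, ← Real.rpow_mul hL0.le]
      congr 1
      rw [ht]
      push_cast
      ring
    have e2 : (S.L k : ℝ) ^ (-(s / 2)) = (S.L k : ℝ) ^ (s / 2) * (S.L k : ℝ) ^ (-s) := by
      rw [← Real.rpow_add hL0]
      congr 1
      ring
    change _ = Ct / η k * (38 * C * CH w) * (S.L k : ℝ) ^ (-(s / 2))
    rw [e1, e2]
    have := (hη0 k).ne'
    field_simp
  · rw [hP]
    exact (hfc k _ _).2.1
  · intro δ hδ
    rw [hP]
    exact (hfc k _ _).2.2 δ hδ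
  · change _ * En p.toReal w (trap (S.P k) (S.N k)) ≤ η k
    rw [hAq]
    refine (mul_le_mul_of_nonneg_left (En_trap hq1.le hq2 ht0 ht1 (S.N_pos k)) (hA k).le).trans
      (le_of_eq ?_)
    have := hN k
    rw [← hCt]
    field_simp

theorem final (p : ℝ≥0∞) [Fact (1 ≤ p)] (h1 : 1 < p) (h2 : p ≤ 2) :
    ∃ (f : Lp ℝ p (volume : Measure ℝ)) (lam : ℕ → ℝ) (g : ℕ → Lp ℝ p (volume : Measure ℝ)),
      (∀ i, g i =ᵐ[volume] fun x => f (x - lam i)) ∧
      (∀ y ∈ (Submodule.span ℝ (Set.range g)).topologicalClosure, ∃! a : ℕ → ℝ,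
        Filter.Tendsto (fun n => ∑ i ∈ range n, a i • g i) Filter.atTop (nhds y)) ∧
      ∃ Z : Submodule ℝ (Lp ℝ p (volume : Measure ℝ)), IsClosed (Z : Set (Lp ℝ p (volume : Measure ℝ))) ∧
        Z ≤ (Submodule.span ℝ (Set.range g)).topologicalClosure ∧
        Nonempty (Lp ℝ p (volume.restrict (Set.Icc (0:ℝ) 1)) ≃L[ℝ] Z) := by
  have hp : p ≠ ∞ := ne_top_of_le_ne_top (by norm_num) h2
  have hq1 : 1 < p.toReal := by
    have := (ENNReal.toReal_lt_toReal (by norm_num) hp).2 h1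
    simpa using this
  have hq2 : p.toReal ≤ 2 := by
    have := ENNReal.toReal_mono (by norm_num) h2
    simpa using this
  obtain ⟨S⟩ := exists_good hp hq1 hq2
  refine ⟨S.ff, S.lam, S.fs, fun i => tr_ae _ _, ?_, ?_⟩
  · exact Elton955.Grun.grunblum S.fs S.fs_ne _ S.trunc
  · have e : volume.restrict (Set.Icc (0:ℝ) 1) = P01 :=
      (Measure.restrict_congr_set Ico_ae_eq_Icc).symm
    rw [e]
    refine embed (haar p) S.yy (fun f ε hε => haar_dense hp f hε) (8 * Good.cq p)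
      (fun K a => (S.emb_bounds K a).1) (fun K a => (S.emb_bounds K a).2) _
      (Submodule.isClosed_topologicalClosure _) (fun k => ?_)
    apply Submodule.le_topologicalClosure
    exact Submodule.sum_mem _ (fun n _ => Submodule.smul_mem _ _ (Submodule.subset_span ⟨n, rfl⟩))

end H555Z.Tr
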