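import Pool.Agent.H555Z.Tr.Ineq

set_option autoImplicit false

open Finset MeasureTheory

namespace H555Z.Tr

/-- position in the binary tree after reading `j` digits -/
def node : ℕ → (ℕ → Bool) → ℕ
  | 0, _ => 1
  | j + 1, r => 2 * node j r + (r j).toNat

/-- sign of a digit -/
def sg (b : Bool) : ℝ := if b then -1 else 1

/-- the Haar functions of the digits, normalised in the sup norm -/
noncomputable def phi (k : ℕ) (r : ℕ → Bool) : ℝ :=
  if k = 0 then 1 else if node (Nat.log 2 k) r = k then sg (r (Nat.log 2 k)) else 0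

/-- Haar sums as martingales -/
noncomputable def hs (n : ℕ) (a : ℕ → ℝ) (r : ℕ → Bool) : ℝ :=
  a 0 + ∑ j ∈ range n, a (node j r) * sg (r j)

lemma abs_sg (b : Bool) : |sg b| = 1 := by cases b <;> simp [sg]

lemma sg_not (b : Bool) : sg (!b) = - sg b := by cases b <;> simp [sg]

lemma abs_phi_le (k : ℕ) (r : ℕ → Bool) : |phi k r| ≤ 1 := by
  unfold phi
  split_ifs
  · simp
  · rw [abs_sg]
  · simp

lemma node_bounds (j : ℕ) (r : ℕ → Bool) : 2 ^ j ≤ node j r ∧ node j r < 2 ^ (j + 1) := by
  induction j with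
  | zero => simp [node]
  | succ j ih =>
    have : (r j).toNat ≤ 1 := Bool.toNat_le _
    simp only [node, pow_succ] at ih ⊢
    omega

lemma node_congr {j : ℕ} {r r' : ℕ → Bool} (h : ∀ i, i < j → r i = r' i) :
    node j r = node j r' := by
  induction j with
  | zero => rfl
  | succ j ih =>
    simp only [node]
    rw [ih (fun i hi => h i (by omega)), h j (by omega)]

lemma hs_succ (n : ℕ) (a : ℕ → ℝ) (r : ℕ → Bool) :
    hs (n + 1) a r = hs n a r + a (node n r) * sg (r n) := by
  unfold hs
  rw [sum_range_succ, add_assoc]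

lemma hs_congr {n : ℕ} (a : ℕ → ℝ) {r r' : ℕ → Bool} (h : ∀ i, i < n → r i = r' i) :
    hs n a r = hs n a r' := by
  unfold hs
  congr 1
  apply sum_congr rfl
  intro j hj
  rw [mem_range] at hj
  rw [node_congr (fun i hi => h i (by omega)), h j hj]

lemma hs_eq_sum (n : ℕ) (a : ℕ → ℝ) (r : ℕ → Bool) :
    hs n a r = ∑ k ∈ range (2 ^ n), a k * phi k r := by
  induction n with
  | zero => simp [hs, phi]
  | succ n ih =>
    have hle : 2 ^ n ≤ 2 ^ (n + 1) := Nat.pow_le_pow_right (by norm_num) (by omega)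
    rw [hs_succ, ih, ← sum_range_add_sum_Ico _ hle]
    congr 1
    have hb := node_bounds n r
    have hpos : 0 < 2 ^ n := by positivity
    rw [sum_eq_single (node n r)]
    · have hl : Nat.log 2 (node n r) = n := Nat.log_eq_of_pow_le_of_lt_pow hb.1 hb.2
      have h0 : node n r ≠ 0 := by omega
      simp [phi, h0, hl]
    · intro k hk hne
      rw [mem_Ico] at hk
      have hl : Nat.log 2 k = n := Nat.log_eq_of_pow_le_of_lt_pow hk.1 hk.2
      have h0 : k ≠ 0 := by omega
      simp [phi, h0, hl, hne.symm]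
    · intro h
      exact absurd (mem_Ico.2 hb) h

lemma sum_eq_hs (K : ℕ) (a : ℕ → ℝ) (r : ℕ → Bool) :
    ∑ k ∈ range K, a k * phi k r = hs K (fun k => if k < K then a k else 0) r := by
  rw [hs_eq_sum]
  symm
  rw [← sum_subset (s₁ := range K)]
  · apply sum_congr rfl
    intro k hk
    rw [if_pos (mem_range.1 hk)]
  · intro k hk
    rw [mem_range] at hk ⊢
    exact hk.trans (Nat.lt_two_pow_self)
  · intro k _ hk
    rw [mem_range] at hk
    rw [if_neg hk, zero_mul]

lemma haar_repr (n : ℕ) (g : ℕ → ℝ) :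
    ∃ a : ℕ → ℝ, ∀ r, g (node n r) = ∑ k ∈ range (2 ^ n), a k * phi k r := by
  simp only [← hs_eq_sum]
  induction n generalizing g with
  | zero => exact ⟨fun _ => g 1, fun r => by simp [hs, node]⟩
  | succ n ih =>
    obtain ⟨a, ha⟩ := ih (fun v => (g (2 * v) + g (2 * v + 1)) / 2)
    refine ⟨fun v => if v < 2 ^ n then a v else (g (2 * v) - g (2 * v + 1)) / 2, fun r => ?_⟩
    rw [hs_succ]
    have e : hs n (fun v => if v < 2 ^ n then a v else (g (2 * v) - g (2 * v + 1)) / 2) r =
        hs n a r := by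
      rw [hs_eq_sum, hs_eq_sum]
      apply sum_congr rfl
      intro k hk
      rw [if_pos (mem_range.1 hk)]
    rw [e, ← ha r, if_neg (not_lt.2 (node_bounds n r).1)]
    simp only [node]
    cases r n
    · simp [sg]
      ring
    · simp [sg]
      ring

lemma exists_node (k : ℕ) (hk : k ≠ 0) : ∃ j r, node j r = k := by
  induction k using Nat.strong_induction_on with
  | _ k ih =>
    by_cases h1 : k = 1
    · exact ⟨0, fun _ => false, by simp [node, h1]⟩
    · obtain ⟨j, r, h⟩ := ih (k / 2) (by omega) (by omega)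
      refine ⟨j + 1, Function.update r j (decide (k % 2 = 1)), ?_⟩
      simp only [node]
      rw [node_congr (r' := r) (fun i hi => Function.update_of_ne (by omega) _ _), h,
        Function.update_self]
      by_cases h2 : k % 2 = 1
      · simp only [h2, decide_true, Bool.toNat_true]
        omega
      · simp only [h2, decide_false, Bool.toNat_false]
        omega

lemma exists_phi_ne (k : ℕ) : ∃ r, phi k r ≠ 0 := by
  by_cases hk : k = 0
  · exact ⟨fun _ => false, by simp [phi, hk]⟩
  · obtain ⟨j, r, h⟩ := exists_node k hk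
    have hb := node_bounds j r
    rw [h] at hb
    have hl : Nat.log 2 k = j := Nat.log_eq_of_pow_le_of_lt_pow hb.1 hb.2
    refine ⟨r, ?_⟩
    simp only [phi, hk, hl, h, if_true, if_false]
    intro h0
    have := abs_sg (r j)
    rw [h0] at this
    simp at this

/-- Haar sums as functions of the node -/
noncomputable def hv : ℕ → (ℕ → ℝ) → ℕ → ℝ
  | 0, a, _ => a 0
  | n + 1, a, v => hv n a (v / 2) + a (v / 2) * sg (decide (v % 2 = 1))

lemma hs_eq_hv (n : ℕ) (a : ℕ → ℝ) (r : ℕ → Bool) : hs n a r = hv n a (node n r) := by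
  induction n with
  | zero => simp [hs, hv]
  | succ n ih =>
    have key : ∀ (v : ℕ) (c : Bool), (2 * v + c.toNat) / 2 = v ∧
        decide ((2 * v + c.toNat) % 2 = 1) = c := by
      intro v c
      rcases c with _ | _
      · simp
      · simp only [Bool.toNat_true, decide_eq_true_eq]
        omega
    rw [hs_succ, ih]
    have e : hv (n + 1) a (node (n + 1) r) = hv n a ((2 * node n r + (r n).toNat) / 2) +
      a ((2 * node n r + (r n).toNat) / 2) * sg (decide ((2 * node n r + (r n).toNat) % 2 = 1)) := rfl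
    rw [e, (key _ _).2, (key _ _).1]

/-- the average over level `n` of the tree -/
noncomputable def avg : ℕ → (ℕ → ℝ) → ℝ
  | 0, g => g 1
  | n + 1, g => avg n (fun v => (g (2 * v) + g (2 * v + 1)) / 2)

lemma avg_pos (n : ℕ) (g : ℕ → ℝ) (hg : ∀ v, 0 ≤ g v) (r : ℕ → Bool) (h : 0 < g (node n r)) :
    0 < avg n g := by
  induction n generalizing g with
  | zero => exact h
  | succ n ih =>
    apply ih
    · intro v
      have := hg (2 * v)
      have := hg (2 * v + 1)
      linarith
    · have a1 := hg (2 * node n r)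
      have a2 := hg (2 * node n r + 1)
      simp only [node] at h
      revert h
      cases r n
      · simp only [Bool.toNat_false, add_zero]
        intro h
        linarith
      · simp only [Bool.toNat_true]
        intro h
        linarith

section Bd
variable {Ω : Type*} [MeasurableSpace Ω]

/-- bounded measurable functions -/
def Bd (g : Ω → ℝ) : Prop := Measurable g ∧ ∃ C, ∀ x, |g x| ≤ C

lemma Bd.const (c : ℝ) : Bd (fun _ : Ω => c) := ⟨measurable_const, |c|, fun _ => le_rfl⟩

lemma Bd.add {g g' : Ω → ℝ} (h : Bd g) (h' : Bd g') : Bd (fun x => g x + g' x) := by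
  obtain ⟨m, C, hC⟩ := h
  obtain ⟨m', C', hC'⟩ := h'
  exact ⟨m.add m', C + C', fun x => (abs_add_le _ _).trans (add_le_add (hC x) (hC' x))⟩

lemma Bd.mul {g g' : Ω → ℝ} (h : Bd g) (h' : Bd g') : Bd (fun x => g x * g' x) := by
  obtain ⟨m, C, hC⟩ := h
  obtain ⟨m', C', hC'⟩ := h'
  refine ⟨m.mul m', C * C', fun x => ?_⟩
  rw [abs_mul]
  exact mul_le_mul (hC x) (hC' x) (abs_nonneg _) ((abs_nonneg _).trans (hC x))

lemma Bd.comp {g : Ω → ℝ} (h : Bd g) {f : ℝ → ℝ} (hf : Continuous f) : Bd (fun x => f (g x)) := by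
  obtain ⟨m, C, hC⟩ := h
  obtain ⟨D, hD⟩ := (isCompact_Icc (a := -C) (b := C)).exists_bound_of_continuousOn hf.continuousOn
  exact ⟨hf.measurable.comp m, D, fun x => hD (g x) (abs_le.1 (hC x))⟩

lemma Bd.sum {ι : Type*} (s : Finset ι) {g : ι → Ω → ℝ} (h : ∀ i ∈ s, Bd (g i)) :
    Bd (fun x => ∑ i ∈ s, g i x) := by
  classical
  induction s using Finset.induction_on with
  | empty => simpa using Bd.const 0
  | insert a s ha ih =>
    simp only [sum_insert ha]
    exact (h a (mem_insert_self _ _)).add (ih (fun i hi => h i (mem_insert_of_mem hi)))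

lemma Bd.ite {g : Ω → ℝ} (h : Bd g) {q : Ω → Prop} [DecidablePred q]
    (hq : MeasurableSet {x | q x}) : Bd (fun x => if q x then g x else 0) := by
  obtain ⟨m, C, hC⟩ := h
  refine ⟨Measurable.ite hq m measurable_const, C, fun x => ?_⟩
  beta_reduce
  split_ifs
  · exact hC x
  · simpa using (abs_nonneg _).trans (hC x)

lemma Bd.index {β : ℕ → Ω → ℝ} (h : ∀ k, Bd (β k)) {κ : Ω → ℕ} (hκ : Measurable κ) (K : ℕ)
    (hK : ∀ x, κ x < K) : Bd (fun x => β (κ x) x) := by
  have e : (fun x => β (κ x) x) = fun x => ∑ k ∈ range K, if κ x = k then β k x else 0 := by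
    ext x
    rw [sum_ite_eq]
    simp [hK x]
  rw [e]
  exact Bd.sum _ (fun k _ => (h k).ite (hκ (measurableSet_singleton k)))

lemma Bd.abs_rpow {g : Ω → ℝ} (h : Bd g) {p : ℝ} (hp : 0 ≤ p) : Bd (fun x => |g x| ^ p) :=
  h.comp (f := fun y => |y| ^ p) (continuous_abs.rpow_const (fun _ => Or.inr hp))

lemma Bd.integrable {g : Ω → ℝ} (h : Bd g) (P : Measure Ω) [IsFiniteMeasure P] :
    Integrable g P := by
  obtain ⟨m, C, hC⟩ := h
  exact Integrable.of_bound m.aestronglyMeasurable C (Filter.Eventually.of_forall hC)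

lemma Bd.bell {g g' : Ω → ℝ} (h : Bd g) (h' : Bd g') {p : ℝ} (hp : 0 ≤ p) :
    Bd (fun x => bell p (g x) (g' x)) := by
  have h1 := ((h.mul h).add (h'.mul h')).comp (f := fun y => y ^ (p / 2))
    (continuous_id.rpow_const (fun _ => Or.inr (by linarith)))
  have h2 := (Bd.const (-(2 / (p - 1)))).mul (h.abs_rpow hp)
  have h3 := h1.add h2
  convert h3 using 2 with x
  unfold Tr.bell
  ring_nf

lemma Bd.precomp {Ω' : Type*} [MeasurableSpace Ω'] {g : Ω → ℝ} (h : Bd g) {T : Ω' → Ω}
    (hT : Measurable T) : Bd (fun x => g (T x)) := by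
  obtain ⟨m, C, hC⟩ := h
  exact ⟨m.comp hT, C, fun x => hC _⟩

end Bd

/-- a sequence of binary digits, each of which can be flipped by a measure preserving map -/
structure Flips {Ω : Type*} [MeasurableSpace Ω] (P : Measure Ω) where
  r : ℕ → Ω → Bool
  T : ℕ → Ω → Ω
  meas : ∀ j, Measurable (r j)
  mp : ∀ j, MeasurePreserving (T j) P P
  flip : ∀ j x, r j (T j x) = !r j x
  keep : ∀ j j' x, j' ≠ j → r j' (T j x) = r j' x

namespace Flips
variable {Ω : Type*} [MeasurableSpace Ω] {P : Measure Ω} (F : Flips P)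

/-- forget the first two digits -/
def drop2 : Flips P where
  r := fun j => F.r (j + 2)
  T := fun j => F.T (j + 2)
  meas := fun _ => F.meas _
  mp := fun _ => F.mp _
  flip := fun _ _ => F.flip _ _
  keep := fun _ _ _ h => F.keep _ _ _ (by omega)

/-- the digit sequence of a point -/
def dig (x : Ω) : ℕ → Bool := fun j => F.r j x

lemma meas_node (j : ℕ) : Measurable (fun x => node j (F.dig x)) := by
  induction j with
  | zero => exact measurable_const
  | succ j ih =>
    simp only [node]
    exact (ih.const_mul 2).add ((measurable_of_countable Bool.toNat).comp (F.meas j))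

lemma bd_sg (j : ℕ) : Bd (fun x => sg (F.dig x j)) :=
  ⟨(measurable_of_countable sg).comp (F.meas j), 1, fun _ => (abs_sg _).le⟩

lemma bd_node (j : ℕ) (g : ℕ → ℝ) : Bd (fun x => g (node j (F.dig x))) :=
  Bd.index (β := fun k _ => g k) (fun _ => Bd.const _) (F.meas_node j) _
    (fun _ => (node_bounds j _).2)

lemma bd_hs {β : ℕ → Ω → ℝ} (h : ∀ k, Bd (β k)) (n : ℕ) :
    Bd (fun x => hs n (fun k => β k x) (F.dig x)) :=
  (h 0).add (Bd.sum _ (fun j _ => (Bd.index h (F.meas_node j) _
    (fun _ => (node_bounds j _).2)).mul (F.bd_sg j)))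

lemma bd_phi (k : ℕ) : Bd (fun x => phi k (F.dig x)) := by
  unfold phi
  by_cases h : k = 0
  · simp only [h, if_true]
    exact Bd.const 1
  · simp only [h, if_false]
    exact (F.bd_sg _).ite (F.meas_node _ (measurableSet_singleton k))

lemma bd_sum {β : ℕ → Ω → ℝ} (h : ∀ k, Bd (β k)) (K : ℕ) :
    Bd (fun x => ∑ k ∈ range K, β k x * phi k (F.dig x)) :=
  Bd.sum _ (fun k _ => (h k).mul (F.bd_phi k))

lemma int_flip (j : ℕ) {g : Ω → ℝ} (h : Bd g) : ∫ x, g (F.T j x) ∂P = ∫ x, g x ∂P := by
  have := integral_map (μ := P) (F.mp j).measurable.aemeasurable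
    (f := g) h.1.aestronglyMeasurable
  rw [(F.mp j).map_eq] at this
  exact this.symm

lemma int_sym [IsFiniteMeasure P] (j : ℕ) {g : Ω → ℝ} (h : Bd g) :
    2 * ∫ x, g x ∂P = ∫ x, (g x + g (F.T j x)) ∂P := by
  rw [integral_add (h.integrable P) ((h.precomp (F.mp j).measurable).integrable P), F.int_flip j h]
  ring

lemma half [IsFiniteMeasure P] (j : ℕ) (c : Bool) {g : Ω → ℝ} (h : Bd g)
    (hg : ∀ x, g (F.T j x) = g x) :
    ∫ x, (if F.r j x = c then g x else 0) ∂P = (∫ x, g x ∂P) / 2 := by
  have h1 : Bd (fun x => if F.r j x = c then g x else 0) :=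
    h.ite (F.meas j (measurableSet_singleton c))
  have h2 := F.int_sym j h1
  have e : (fun x => (if F.r j x = c then g x else 0) +
      (if F.r j (F.T j x) = c then g (F.T j x) else 0)) = g := by
    ext x
    rw [F.flip, hg]
    cases F.r j x <;> cases c <;> simp
  rw [e] at h2
  linarith

lemma dig_T {j i : ℕ} (x : Ω) (h : i < j) : F.dig (F.T j x) i = F.dig x i :=
  F.keep _ _ _ (by omega)

lemma int_node [IsProbabilityMeasure P] (n : ℕ) (g : ℕ → ℝ) :
    ∫ x, g (node n (F.dig x)) ∂P = avg n g := by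
  induction n generalizing g with
  | zero => simp [node, avg]
  | succ n ih =>
    have h2 := F.int_sym n (F.bd_node (n + 1) g)
    simp only [avg]
    rw [← ih]
    have e : (fun x => g (node (n + 1) (F.dig x)) + g (node (n + 1) (F.dig (F.T n x)))) =
        fun x => 2 * ((g (2 * node n (F.dig x)) + g (2 * node n (F.dig x) + 1)) / 2) := by
      ext x
      simp only [node]
      rw [node_congr (r := F.dig (F.T n x)) (r' := F.dig x) (fun i hi => F.dig_T x hi)]
      have : F.dig (F.T n x) n = !F.dig x n := F.flip _ _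
      rw [this]
      cases F.dig x n
      · simp
        ring
      · simp
        ring
    rw [e, integral_const_mul] at h2
    linarith

theorem transfer [IsProbabilityMeasure P] {Ω' : Type*} [MeasurableSpace Ω'] {P' : Measure Ω'}
    [IsProbabilityMeasure P'] (F' : Flips P') (p : ℝ) (K : ℕ) (a : ℕ → ℝ) :
    ∫ x, |∑ k ∈ range K, a k * phi k (F.dig x)| ^ p ∂P =
      ∫ x, |∑ k ∈ range K, a k * phi k (F'.dig x)| ^ p ∂P' := by
  simp only [sum_eq_hs, hs_eq_hv]
  rw [F.int_node K (fun v => |hv K _ v| ^ p), F'.int_node K (fun v => |hv K _ v| ^ p)]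

theorem phi_pos [IsProbabilityMeasure P] (p : ℝ) (k : ℕ) :
    0 < ∫ x, |phi k (F.dig x)| ^ p ∂P := by
  have e : ∀ r, phi k r = ∑ j ∈ range (k + 1), (if j = k then 1 else 0) * phi j r := by
    intro r
    rw [sum_eq_single k] <;> simp +contextual
  simp only [e, sum_eq_hs, hs_eq_hv]
  rw [F.int_node (k + 1) (fun v => |hv (k + 1) _ v| ^ p)]
  obtain ⟨r, hr⟩ := exists_phi_ne k
  refine avg_pos _ _ (fun v => by positivity) r ?_
  rw [e, sum_eq_hs, hs_eq_hv] at hr
  exact Real.rpow_pos_of_pos (abs_pos.2 hr) _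

theorem cmp [IsFiniteMeasure P] {p : ℝ} (hp1 : 1 < p) (hp2 : p ≤ 2) {β β' : ℕ → Ω → ℝ}
    (h : ∀ k, Bd (β k)) (h' : ∀ k, Bd (β' k)) (hT : ∀ k j x, β k (F.T j x) = β k x)
    (hT' : ∀ k j x, β' k (F.T j x) = β' k x) (hle : ∀ k x, |β' k x| ≤ |β k x|) (K : ℕ) :
    ∫ x, |∑ k ∈ range K, β' k x * phi k (F.dig x)| ^ p ∂P ≤
      (2 / (p - 1)) * ∫ x, |∑ k ∈ range K, β k x * phi k (F.dig x)| ^ p ∂P := by
  have hp : 0 ≤ p := by linarith
  have main : ∀ {β β' : ℕ → Ω → ℝ}, (∀ k, Bd (β k)) → (∀ k, Bd (β' k)) →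
      (∀ k j x, β k (F.T j x) = β k x) → (∀ k j x, β' k (F.T j x) = β' k x) →
      (∀ k x, |β' k x| ≤ |β k x|) → ∀ n : ℕ,
      ∫ x, bell p (hs n (fun k => β k x) (F.dig x)) (hs n (fun k => β' k x) (F.dig x)) ∂P ≤ 0 := by
    intro β β' h h' hT hT' hle n
    induction n with
    | zero =>
      apply integral_nonpos
      intro x
      simp only [hs, range_zero, sum_empty, add_zero]
      exact bell_init hp1 hp2 (hle 0 x)
    | succ n ih =>
      have b1 := (F.bd_hs h (n + 1)).bell (F.bd_hs h' (n + 1)) hp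
      have b0 := (F.bd_hs h n).bell (F.bd_hs h' n) hp
      have h2 := F.int_sym n b1
      have h3 : ∫ x, (bell p (hs (n + 1) (fun k => β k x) (F.dig x))
          (hs (n + 1) (fun k => β' k x) (F.dig x)) + bell p (hs (n + 1) (fun k => β k (F.T n x))
          (F.dig (F.T n x))) (hs (n + 1) (fun k => β' k (F.T n x)) (F.dig (F.T n x)))) ∂P ≤
          ∫ x, 2 * bell p (hs n (fun k => β k x) (F.dig x))
            (hs n (fun k => β' k x) (F.dig x)) ∂P := by
        apply integral_mono ((b1.add (b1.precomp (F.mp n).measurable)).integrable P)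
          (((Bd.const 2).mul b0).integrable P)
        intro x
        simp only [hT, hT', hs_succ]
        have e1 := fun a => hs_congr (n := n) a (r := F.dig (F.T n x)) (r' := F.dig x)
          (fun i hi => F.dig_T x hi)
        have e2 : F.dig (F.T n x) n = !F.dig x n := F.flip _ _
        rw [e1, e1, node_congr (r := F.dig (F.T n x)) (r' := F.dig x) (fun i hi => F.dig_T x hi),
          e2, sg_not, mul_neg, mul_neg, ← sub_eq_add_neg, ← sub_eq_add_neg]
        apply bell_step hp1 hp2
        rw [abs_mul, abs_mul]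
        exact mul_le_mul_of_nonneg_right (hle _ _) (abs_nonneg _)
      rw [integral_const_mul] at h3
      linarith
  have k1 : ∀ {β : ℕ → Ω → ℝ}, (∀ k, Bd (β k)) → ∀ k, Bd (fun x => if k < K then β k x else 0) := by
    intro β h k
    by_cases hk : k < K
    · simpa only [hk, if_true] using h k
    · simpa only [hk, if_false] using Bd.const 0
  have m := main (β := fun k x => if k < K then β k x else 0)
    (β' := fun k x => if k < K then β' k x else 0) (k1 h) (k1 h')
    (fun k j x => by rw [hT]) (fun k j x => by rw [hT'])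
    (fun k x => by split_ifs; exacts [hle k x, le_rfl]) K
  simp only [← sum_eq_hs] at m
  have b1 := (F.bd_sum h K).abs_rpow hp
  have b2 := (F.bd_sum h' K).abs_rpow hp
  have m2 : ∫ x, (|∑ k ∈ range K, β' k x * phi k (F.dig x)| ^ p -
      (2 / (p - 1)) * |∑ k ∈ range K, β k x * phi k (F.dig x)| ^ p) ∂P ≤ 0 := by
    refine le_trans (integral_mono ((b2.integrable P).sub ((b1.integrable P).const_mul _))
      (((F.bd_sum h K).bell (F.bd_sum h' K) hp).integrable P) (fun x => bell_lower hp1)) m
  rw [integral_sub (b2.integrable P) ((b1.integrable P).const_mul _), integral_const_mul] at m2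
  linarith

end Flips

end H555Z.Tr
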