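import Pool.Agent.H555Z.Tr.Bfun
import Pool.Agent.H555Z.Tr.Block

set_option autoImplicit false

open Finset MeasureTheory Real
open scoped ENNReal

namespace H555Z.Tr

/-- the free parameters of the construction -/
structure Par where
  L : ℕ → ℕ
  c : ℕ → ℕ
  hL : ∀ k, 0 < L k
  hc : ∀ k, 0 < c k

namespace Par
variable (S : Par)

/-- number of cells -/
def R (k : ℕ) : ℕ := S.L k ^ 4
/-- width of the trapezoid -/
def N (k : ℕ) : ℕ := S.L k ^ 5
/-- starting point of a group -/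
def P : ℕ → ℕ
  | 0 => 0
  | k + 1 => P k + 3 * S.L k ^ 5
/-- common multiple of the bases -/
def B (k : ℕ) : ℕ := 2 * S.L k * S.R k
/-- ratio of consecutive scales -/
def st (k : ℕ) : ℕ := S.B k * S.c k
/-- first scale of a group -/
def G : ℕ → ℕ
  | 0 => 1
  | k + 1 => G k * S.st k ^ (S.R k + 2)
/-- the scales -/
def M (k s : ℕ) : ℕ := S.G k * S.st k ^ s
/-- the resolutions -/
def H (k s : ℕ) : ℕ := S.B k * S.M k s
/-- starting point of a block -/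
def m (k i : ℕ) : ℤ := ((S.P k : ℤ) + S.N k) + i * S.L k

lemma R_pos (k : ℕ) : 0 < S.R k := pow_pos (S.hL k) _
lemma N_pos (k : ℕ) : 0 < S.N k := pow_pos (S.hL k) _
lemma B_pos (k : ℕ) : 0 < S.B k := by
  have := S.hL k
  have := S.R_pos k
  unfold B
  positivity
lemma st_pos (k : ℕ) : 0 < S.st k := Nat.mul_pos (S.B_pos k) (S.hc k)
lemma G_pos (k : ℕ) : 0 < S.G k := by
  induction k with
  | zero => exact one_pos
  | succ k ih => exact Nat.mul_pos ih (pow_pos (S.st_pos k) _)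
lemma M_pos (k s : ℕ) : 0 < S.M k s := Nat.mul_pos (S.G_pos k) (pow_pos (S.st_pos k) _)
lemma H_pos (k s : ℕ) : 0 < S.H k s := Nat.mul_pos (S.B_pos k) (S.M_pos k s)
lemma P_succ (k : ℕ) : S.P (k + 1) = S.P k + 3 * S.N k := rfl
lemma RL (k : ℕ) : S.R k * S.L k = S.N k := by
  unfold R N
  ring
lemma P_mono {k k' : ℕ} (h : k ≤ k') : S.P k ≤ S.P k' :=
  monotone_nat_of_le_succ (fun k => by rw [P_succ]; omega) h
lemma le_P (k : ℕ) : k ≤ S.P k := by
  induction k with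
  | zero => omega
  | succ k ih =>
    have := S.N_pos k
    rw [P_succ]
    omega
lemma R_le (k : ℕ) : S.R k ≤ S.P (k + 1) := by
  have h := S.RL k
  have : S.R k ≤ S.R k * S.L k := Nat.le_mul_of_pos_right _ (S.hL k)
  rw [P_succ]
  omega
lemma M00 : S.M 0 0 = 1 := by simp [M, G]
lemma H_c (k s : ℕ) : S.H k s * S.c k = S.M k (s + 1) := by
  unfold H M
  rw [pow_succ, st]
  ring

lemma G_dvd {k k' : ℕ} (h : k ≤ k') : S.G k ∣ S.G k' := by
  induction k', h using Nat.le_induction with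
  | base => exact dvd_rfl
  | succ k' _ ih => exact ih.trans (Dvd.intro _ rfl)

lemma M_dvd (k : ℕ) {s s' : ℕ} (h : s ≤ s') : S.M k s ∣ S.M k s' :=
  Nat.mul_dvd_mul_left _ (pow_dvd_pow _ h)

lemma H_dvd_M {k s k' s' : ℕ} (hs : s ≤ S.R k + 1) (h : k < k' ∨ (k = k' ∧ s < s')) :
    S.H k s ∣ S.M k' s' := by
  have h1 : S.H k s ∣ S.M k (s + 1) := Dvd.intro _ (S.H_c k s)
  rcases h with h | ⟨rfl, h⟩
  · have h2 : S.M k (s + 1) ∣ S.G (k + 1) := S.M_dvd k (s' := S.R k + 2) (by omega)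
    exact h1.trans (h2.trans ((S.G_dvd h).trans (Dvd.intro _ rfl)))
  · exact h1.trans (S.M_dvd k h)

lemma H_dvd_H {k s k' s' : ℕ} (hs : s ≤ S.R k + 1) (h : k < k' ∨ (k = k' ∧ s < s' + 1)) :
    S.H k s ∣ S.H k' s' := by
  rcases h with h | ⟨rfl, h⟩
  · exact (S.H_dvd_M hs (Or.inl h)).trans (Dvd.intro_left _ rfl)
  · exact Nat.mul_dvd_mul_left _ (S.M_dvd k (by omega))

lemma two_dvd (k : ℕ) : 2 ∣ S.B k := ⟨S.L k * S.R k, by unfold B; ring⟩
lemma R_dvd (k : ℕ) : S.R k ∣ S.B k := Dvd.intro_left _ rfl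
lemma L_dvd (k : ℕ) : 2 * S.L k ∣ S.B k := Dvd.intro _ rfl

lemma keep {k0 s0 Q0 Hs : ℕ} (hs0 : s0 ≤ S.R k0 + 1) (hQ0 : Q0 ∣ S.B k0) (hHs : 0 < Hs)
    (hH : ∀ k s, s ≤ S.R k + 1 → (k < k0 ∨ (k = k0 ∧ s < s0)) → S.H k s ∣ Hs) (a : ℤ) (x : ℝ)
    (hx : ⌊(Hs : ℝ) * (x - a / ((Q0 * S.M k0 s0 : ℕ) : ℝ))⌋ = ⌊(Hs : ℝ) * x⌋) {k s Q : ℕ}
    (hs : s ≤ S.R k + 1) (hQ : Q ∣ S.B k) (hne : ¬ (k = k0 ∧ s = s0)) :
    dg (S.M k s) Q (x - a / ((Q0 * S.M k0 s0 : ℕ) : ℝ)) = dg (S.M k s) Q x := by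
  by_cases h : k < k0 ∨ (k = k0 ∧ s < s0)
  · exact dg_coarse hHs ((Nat.mul_dvd_mul_right hQ _).trans (hH k s hs h)) hx
  · have h1 : k0 < k ∨ (k0 = k ∧ s0 < s) := by omega
    exact dg_fine (Nat.mul_pos (Nat.pos_of_dvd_of_pos hQ0 (S.B_pos k0)) (S.M_pos _ _))
      ((Nat.mul_dvd_mul_right hQ0 _).trans (S.H_dvd_M hs0 h1)) a x

/-- the binary digits of the construction -/
noncomputable def F : Flips P01 :=
  digFlips (fun j => S.M j 0) (fun j => S.M_pos j 0) (fun j _ h =>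
    (Nat.mul_dvd_mul_right (S.two_dvd j) _).trans (S.H_dvd_M (by omega) (Or.inl h)))

/-- the cell digit -/
noncomputable def cell (k : ℕ) (x : ℝ) : ℕ := (dg (S.M k 1) (S.R k) x).toNat

/-- the phase digit -/
noncomputable def pd (k i : ℕ) (x : ℝ) : ℤ := dg (S.M k (i + 2)) (2 * S.L k) x

/-- the phase -/
noncomputable def ph (k i : ℕ) (x : ℝ) : ℂ := ex (π * (S.pd k i x : ℝ) / S.L k)

/-- selects the real part or the imaginary part -/
noncomputable def uu (x : ℝ) : ℂ :=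
  if S.F.r 0 x = true then (if S.F.r 1 x = true then -Complex.I else 1) else 0

/-- the Haar functions of the sparse digits -/
noncomputable def hr (k : ℕ) (x : ℝ) : ℝ := phi k (S.F.drop2.dig x)

/-- the basic building block -/
noncomputable def Ψ (k : ℕ) (c : ℕ → ℤ → ℂ) (x : ℝ) : ℝ :=
  (S.uu x * S.ph k (S.cell k x) x * c (S.cell k x) ⌊x⌋).re * S.hr k x

lemma cell_lt (k : ℕ) (x : ℝ) : S.cell k x < S.R k := by
  have h0 := dg_nonneg (S.M k 1) (S.R_pos k) x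
  have h1 := dg_lt (S.M k 1) (S.R_pos k) x
  unfold cell
  omega

lemma meas_cell (k : ℕ) : Measurable (S.cell k) :=
  (measurable_of_countable Int.toNat).comp (meas_dg _ _)

lemma norm_ph (k i : ℕ) (x : ℝ) : ‖S.ph k i x‖ = 1 := norm_ex _

lemma norm_uu (x : ℝ) : ‖S.uu x‖ ≤ 1 := by
  unfold uu
  split_ifs <;> simp

lemma meas_pc (k : ℕ) : Measurable (fun x => S.pd k (S.cell k x) x) := by
  have h0 : ∀ i, Measurable (S.pd k i) := fun i => meas_dg (S.M k (i + 2)) (2 * S.L k)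
  have h : Measurable (fun z : ℕ × ℝ => S.pd k z.1 z.2) :=
    measurable_from_prod_countable_right (fun i => h0 i)
  exact Measurable.comp (g := fun z : ℕ × ℝ => S.pd k z.1 z.2) (f := fun x => (S.cell k x, x)) h
    ((S.meas_cell k).prodMk measurable_id')

lemma meas_Ψ (k : ℕ) (c : ℕ → ℤ → ℂ) : Measurable (S.Ψ k c) := by
  have h1 := (measurable_of_countable (fun z : (Bool × Bool) × (ℤ × ℕ × ℤ) =>
    ((if z.1.1 = true then (if z.1.2 = true then -Complex.I else 1) else 0) *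
      ex (π * (z.2.1 : ℝ) / S.L k) * c z.2.2.1 z.2.2.2).re)).comp
    (((S.F.meas 0).prodMk (S.F.meas 1)).prodMk ((S.meas_pc k).prodMk
      ((S.meas_cell k).prodMk Int.measurable_floor)))
  exact h1.mul (S.F.drop2.bd_phi k).1

lemma abs_Ψ (k : ℕ) (c : ℕ → ℤ → ℂ) (x : ℝ) : |S.Ψ k c x| ≤ ‖c (S.cell k x) ⌊x⌋‖ := by
  unfold Ψ
  rw [abs_mul]
  have h1 := abs_phi_le k (S.F.drop2.dig x)
  have h2 : |(S.uu x * S.ph k (S.cell k x) x * c (S.cell k x) ⌊x⌋).re| ≤ ‖c (S.cell k x) ⌊x⌋‖ := by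
    refine (Complex.abs_re_le_norm _).trans ?_
    rw [norm_mul, norm_mul, norm_ph, mul_one]
    exact mul_le_of_le_one_left (norm_nonneg _) (S.norm_uu x)
  exact (mul_le_of_le_one_right (abs_nonneg _) h1).trans h2

lemma II_Ψ {q : ℝ} (hq : 0 < q) (k : ℕ) {c : ℕ → ℤ → ℂ} (hc : ∀ i, FS (c i)) :
    II q volume (S.Ψ k c) ≤ ENNReal.ofReal ((∑ i ∈ range (S.R k), en q (c i)) / S.R k) := by
  have mA : ∀ i : ℕ, MeasurableSet {x | dg (S.M k 1) (S.R k) x = i} :=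
    fun i => meas_dg _ _ (measurableSet_singleton _)
  have e : ∀ x, ENNReal.ofReal (|S.Ψ k c x| ^ q) ≤ ∑ i ∈ range (S.R k),
      {x | dg (S.M k 1) (S.R k) x = i}.indicator (fun _ => (1 : ℝ≥0∞)) x *
        ENNReal.ofReal (‖c i ⌊x⌋‖ ^ q) := by
    intro x
    refine le_trans ?_ (single_le_sum (f := fun i : ℕ => {x | dg (S.M k 1) (S.R k) x = i}.indicator
      (fun _ => (1 : ℝ≥0∞)) x * ENNReal.ofReal (‖c i ⌊x⌋‖ ^ q)) (fun _ _ => zero_le)
      (mem_range.2 (S.cell_lt k x)))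
    have h1 : x ∈ {y | dg (S.M k 1) (S.R k) y = (S.cell k x : ℕ)} := by
      have h0 := dg_nonneg (S.M k 1) (S.R_pos k) x
      simp only [Set.mem_ofPred_eq, cell]
      omega
    rw [Set.indicator_of_mem h1, one_mul]
    exact ENNReal.ofReal_le_ofReal (Real.rpow_le_rpow (abs_nonneg _) (S.abs_Ψ k c x) hq.le)
  refine (lintegral_mono e).trans ?_
  rw [lintegral_finsetSum (f := fun (i : ℕ) (x : ℝ) => {x | dg (S.M k 1) (S.R k) x = i}.indicator
      (fun _ => (1 : ℝ≥0∞)) x * ENNReal.ofReal (‖c i ⌊x⌋‖ ^ q)) _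
      (fun i _ => (measurable_const.indicator (mA i)).mul
        ((measurable_of_countable (fun d => ENNReal.ofReal (‖c i d‖ ^ q))).comp
          Int.measurable_floor)), sum_div,
    ENNReal.ofReal_sum_of_nonneg (fun i _ => div_nonneg (en_nonneg _) (by positivity))]
  apply sum_le_sum
  intro i _
  rw [tensor _ (measurable_const.indicator (mA i)) (fun x d => by
    have := dg_int (S.M k 1) (S.R k) (-d) x
    simp only [Int.cast_neg, sub_neg_eq_add] at this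
    simp only [Set.indicator, Set.mem_ofPred_eq, this]) (fun d => ENNReal.ofReal (‖c i d‖ ^ q)),
    lint_ind (mA i), ofReal_en hq (hc i), div_eq_mul_one_div, mul_comm (en q (c i)),
    ENNReal.ofReal_mul (by positivity)]
  exact mul_le_mul_left (cell_meas (S.M_pos k 1) (S.R_pos k) i) _

lemma Ψ_lin {ι : Type*} (k : ℕ) (s : Finset ι) (a : ι → ℝ) (c : ι → ℕ → ℤ → ℂ) (x : ℝ) :
    ∑ n ∈ s, a n * S.Ψ k (c n) x = S.Ψ k (fun i d => ∑ n ∈ s, (a n : ℂ) * c n i d) x := by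
  unfold Ψ
  rw [mul_sum, Complex.re_sum, sum_mul]
  apply sum_congr rfl
  intro n _
  rw [mul_left_comm (S.uu x * _), Complex.re_ofReal_mul]
  ring

lemma Ψ_sub (k : ℕ) (c c' : ℕ → ℤ → ℂ) (x : ℝ) :
    S.Ψ k c x - S.Ψ k c' x = S.Ψ k (fun i d => c i d - c' i d) x := by
  unfold Ψ
  rw [mul_sub, Complex.sub_re, sub_mul]

lemma Ψ_congr (k : ℕ) {c c' : ℕ → ℤ → ℂ} (h : ∀ i, i < S.R k → c i = c' i) :
    S.Ψ k c = S.Ψ k c' := by
  ext x
  unfold Ψ
  rw [h _ (S.cell_lt k x)]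

lemma r_int (j : ℕ) (x : ℝ) (n : ℤ) : S.F.r j (x - n) = S.F.r j x := by
  change decide (dg _ 2 (x - n) = 1) = decide (dg _ 2 x = 1)
  rw [dg_int]

lemma uu_congr {x y : ℝ} (h : ∀ j, S.F.r j y = S.F.r j x) : S.uu y = S.uu x := by
  unfold uu
  rw [h, h]

lemma hr_congr (k : ℕ) {x y : ℝ} (h : ∀ j, S.F.r j y = S.F.r j x) : S.hr k y = S.hr k x := by
  unfold hr
  congr 1
  ext j
  exact h (j + 2)

lemma Ψ_int (k : ℕ) (c : ℕ → ℤ → ℂ) (x : ℝ) (n : ℤ) :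
    S.Ψ k c (x - n) = S.Ψ k (fun i d => c i (d - n)) x := by
  have h1 : S.cell k (x - n) = S.cell k x := by
    unfold cell
    rw [dg_int]
  have h2 : ∀ i, S.ph k i (x - n) = S.ph k i x := by
    intro i
    unfold ph pd
    rw [dg_int]
  unfold Ψ
  rw [h1, h2, S.uu_congr (fun j => S.r_int j x n), S.hr_congr k (fun j => S.r_int j x n),
    Int.floor_sub_intCast]

lemma cell_T (k j : ℕ) (x : ℝ) : S.cell k (S.F.T j x) = S.cell k x := by
  unfold cell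
  congr 1
  exact S.keep (k0 := j) (s0 := 0) (by omega) (S.two_dvd j) (S.M_pos j 0)
    (fun k s hs h => S.H_dvd_M hs h) _ x (floor_fl (S.M_pos j 0) x) (by omega) (S.R_dvd k)
    (by omega)

lemma pd_T (k j : ℕ) {i : ℕ} (hi : i < S.R k) (x : ℝ) : S.pd k i (S.F.T j x) = S.pd k i x :=
  S.keep (k0 := j) (s0 := 0) (by omega) (S.two_dvd j) (S.M_pos j 0)
    (fun k s hs h => S.H_dvd_M hs h) _ x (floor_fl (S.M_pos j 0) x) (by omega) (S.L_dvd k)
    (by omega)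

/-- the phase at the cell of the point -/
noncomputable def th (k : ℕ) (x : ℝ) : ℝ := π * (S.pd k (S.cell k x) x : ℝ) / S.L k

lemma th_T (k j : ℕ) (x : ℝ) : S.th k (S.F.T j x) = S.th k x := by
  unfold th
  rw [S.cell_T, S.pd_T k j (S.cell_lt k x)]

lemma meas_th (k : ℕ) : Measurable (S.th k) :=
  (measurable_of_countable (fun z : ℤ => π * (z : ℝ) / S.L k)).comp (S.meas_pc k)

/-- membership in a block -/
def core (k i : ℕ) (n : ℤ) : Prop := i < S.R k ∧ S.m k i ≤ n ∧ n < S.m k i + S.L k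

lemma core_bounds {k i : ℕ} {n : ℤ} (h : S.core k i n) :
    (S.P k : ℤ) + S.N k ≤ n ∧ n < (S.P k : ℤ) + 2 * S.N k := by
  obtain ⟨h1, h2, h3⟩ := h
  unfold m at h2 h3
  have h4 : ((i : ℤ) + 1) * S.L k ≤ S.R k * S.L k := by
    apply mul_le_mul_of_nonneg_right _ (by positivity)
    exact_mod_cast h1
  have h5 : (S.R k : ℤ) * S.L k = S.N k := by exact_mod_cast S.RL k
  have h6 : (0:ℤ) ≤ i * S.L k := by positivity
  constructor <;> linarith

lemma core_unique {k i k' i' : ℕ} {n : ℤ} (h : S.core k i n) (h' : S.core k' i' n) :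
    k = k' ∧ i = i' := by
  have b := S.core_bounds h
  have b' := S.core_bounds h'
  have hk : k = k' := by
    by_contra hne
    rcases lt_or_gt_of_ne hne with h1 | h1
    · have := S.P_mono (show k + 1 ≤ k' from h1)
      rw [P_succ] at this
      omega
    · have := S.P_mono (show k' + 1 ≤ k from h1)
      rw [P_succ] at this
      omega
  subst hk
  refine ⟨rfl, ?_⟩
  obtain ⟨-, h2, h3⟩ := h
  obtain ⟨-, h2', h3'⟩ := h'
  unfold m at h2 h3 h2' h3'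
  by_contra hne
  rcases lt_or_gt_of_ne hne with h1 | h1
  · have : ((i : ℤ) + 1) * S.L k ≤ i' * S.L k := by
      apply mul_le_mul_of_nonneg_right _ (by positivity)
      exact_mod_cast h1
    linarith
  · have : ((i' : ℤ) + 1) * S.L k ≤ i * S.L k := by
      apply mul_le_mul_of_nonneg_right _ (by positivity)
      exact_mod_cast h1
    linarith

/-- the shift inside a block -/
noncomputable def sh (k i : ℕ) (n : ℤ) : ℝ :=
  (((n - S.m k i) ^ 2 : ℤ) : ℝ) / ((2 * S.L k * S.M k (i + 2) : ℕ) : ℝ)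

open Classical in
/-- the small perturbations of the integers -/
noncomputable def δ (n : ℤ) : ℝ :=
  if h : ∃ z : ℕ × ℕ, S.core z.1 z.2 n then S.sh h.choose.1 h.choose.2 n else 0

lemma δ_core {k i : ℕ} {n : ℤ} (h : S.core k i n) : S.δ n = S.sh k i n := by
  have h1 : ∃ z : ℕ × ℕ, S.core z.1 z.2 n := ⟨(k, i), h⟩
  unfold δ
  rw [dif_pos h1]
  obtain ⟨e1, e2⟩ := S.core_unique h1.choose_spec h
  rw [e1, e2]

lemma δ_zero {n : ℤ} (h : ¬ ∃ z : ℕ × ℕ, S.core z.1 z.2 n) : S.δ n = 0 := by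
  unfold δ
  rw [dif_neg h]

lemma sh_nonneg (k i : ℕ) (n : ℤ) : 0 ≤ S.sh k i n := by
  unfold sh
  positivity

lemma H_sh {k i : ℕ} {n : ℤ} (h : S.core k i n) :
    S.H k (i + 1) * S.sh k i n ≤ (S.L k : ℝ) / S.c k := by
  obtain ⟨-, h2, h3⟩ := h
  have hL : (0:ℝ) < S.L k := by exact_mod_cast S.hL k
  have hc : (0:ℝ) < S.c k := by exact_mod_cast S.hc k
  have hH : (0:ℝ) < S.H k (i + 1) := by exact_mod_cast S.H_pos k (i + 1)
  have h4 : (n - S.m k i) ^ 2 ≤ (S.L k : ℤ) ^ 2 := pow_le_pow_left₀ (by omega) (by omega) 2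
  have h5 : (((n - S.m k i) ^ 2 : ℤ) : ℝ) ≤ (S.L k : ℝ) ^ 2 := by exact_mod_cast h4
  unfold sh
  rw [← S.H_c k (i + 1)]
  generalize (((n - S.m k i) ^ 2 : ℤ) : ℝ) = t at h5 ⊢
  push_cast
  rw [← mul_div_assoc, div_le_div_iff₀ (by positivity) hc]
  have : 0 ≤ (S.H k (i + 1) : ℝ) * S.c k := by positivity
  nlinarith [mul_le_mul_of_nonneg_left h5 this, mul_nonneg this (sq_nonneg (S.L k : ℝ))]

lemma sh_le {k i : ℕ} {n : ℤ} (h : S.core k i n) : S.sh k i n ≤ (S.L k : ℝ) / S.c k := by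
  refine le_trans ?_ (S.H_sh h)
  have hH : (1:ℝ) ≤ S.H k (i + 1) := by exact_mod_cast S.H_pos k (i + 1)
  exact le_mul_of_one_le_left (S.sh_nonneg k i n) hH

/-- the twisting factor -/
noncomputable def twf (k i : ℕ) (n : ℤ) : ℂ :=
  if S.m k i ≤ n ∧ n < S.m k i + S.L k then (starRingEnd ℂ) (ch (S.L k) (n - S.m k i)) else 1

lemma norm_twf (k i : ℕ) (n : ℤ) : ‖S.twf k i n‖ = 1 := by
  unfold twf
  split_ifs
  · rw [Complex.norm_conj, norm_ch]
  · simp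

lemma tw_eq (k i : ℕ) (b : ℤ → ℝ) (n : ℤ) :
    tw (S.L k) (S.m k i) b n = (b n : ℂ) * S.twf k i n := by
  unfold tw twf
  split_ifs <;> simp

lemma twf_one {k i : ℕ} {n : ℤ} (hi : i < S.R k) (h : ¬ S.core k i n) : S.twf k i n = 1 := by
  unfold twf
  rw [if_neg (fun h1 => h ⟨hi, h1⟩)]

lemma Ψ_shift {k0 i0 : ℕ} {n : ℤ} (h : S.core k0 i0 n) (k : ℕ) (c : ℕ → ℤ → ℂ) {x : ℝ}
    (hx : ⌊(S.H k0 (i0 + 1) : ℝ) * (x - S.sh k0 i0 n)⌋ = ⌊(S.H k0 (i0 + 1) : ℝ) * x⌋) :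
    S.Ψ k c (x - S.sh k0 i0 n) = S.Ψ k (fun i d => S.twf k i n * c i d) x := by
  have hi0 := h.1
  have kp : ∀ {k s Q : ℕ}, s ≤ S.R k + 1 → Q ∣ S.B k → ¬ (k = k0 ∧ s = i0 + 2) →
      dg (S.M k s) Q (x - S.sh k0 i0 n) = dg (S.M k s) Q x := fun hs hQ hne =>
    S.keep (k0 := k0) (s0 := i0 + 2) (by omega) (S.L_dvd k0) (S.H_pos k0 (i0 + 1))
      (fun k s hs h => S.H_dvd_H hs h) _ x hx hs hQ hne
  have h0 : ∀ j, S.F.r j (x - S.sh k0 i0 n) = S.F.r j x := by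
    intro j
    change decide (dg _ 2 (x - S.sh k0 i0 n) = 1) = decide (dg _ 2 x = 1)
    rw [kp (by omega) (S.two_dvd j) (by omega)]
  have h1 : S.cell k (x - S.sh k0 i0 n) = S.cell k x := by
    unfold cell
    rw [kp (by omega) (S.R_dvd k) (by omega)]
  have h2 : ∀ i, i < S.R k → S.ph k i (x - S.sh k0 i0 n) = S.ph k i x * S.twf k i n := by
    intro i hi
    by_cases hc : k = k0 ∧ i = i0
    · obtain ⟨rfl, rfl⟩ := hc
      have hL := S.hL k
      have hL' : (S.L k : ℝ) ≠ 0 := by exact_mod_cast hL.ne'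
      unfold ph twf pd sh
      rw [if_pos h.2, dg_shift (S.M_pos _ _) (by omega), ch, conj_ex, ← ex_add, Int.emod_def]
      generalize (dg (S.M k (i + 2)) (2 * S.L k) x - (n - S.m k i) ^ 2) / ((2 * S.L k : ℕ) : ℤ) = z
      rw [← mul_one (ex (_ + _)), ← ex_int (-z), ← ex_add]
      congr 1
      push_cast
      field_simp
      ring
    · have h3 : ¬ S.core k i n := fun h4 => hc (S.core_unique h4 h)
      rw [S.twf_one hi h3, mul_one]
      unfold ph pd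
      rw [kp (by omega) (S.L_dvd k) (by omega)]
  unfold Ψ
  rw [h1, h2 _ (S.cell_lt k x), S.uu_congr h0, S.hr_congr k h0,
    floor_of_floor (S.H_pos k0 (i0 + 1)) hx]
  congr 2
  ring

lemma II_shift {q : ℝ} (hq1 : 1 ≤ q) (hq2 : q ≤ 2) {k0 i0 : ℕ} {n : ℤ} (h : S.core k0 i0 n)
    (h1 : (S.L k0 : ℝ) / S.c k0 ≤ 1) (k : ℕ) {c : ℕ → ℤ → ℂ} (hc : ∀ i, FS (c i)) :
    II q volume (fun x => S.Ψ k c (x - S.sh k0 i0 n) - S.Ψ k (fun i d => S.twf k i n * c i d) x) ≤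
      ENNReal.ofReal ((S.L k0 : ℝ) / S.c k0 * (6 * ∑ i ∈ range (S.R k), en q (c i))) := by
  have hq : 0 < q := by linarith
  set δ := S.sh k0 i0 n with hδ
  have hδ0 : 0 ≤ δ := S.sh_nonneg _ _ _
  have hδ1 : δ ≤ 1 := (S.sh_le h).trans h1
  set A : Set ℝ := {x | ⌊(S.H k0 (i0 + 1) : ℝ) * (x - δ)⌋ ≠ ⌊(S.H k0 (i0 + 1) : ℝ) * x⌋} with hA
  have mA : MeasurableSet A := (measurableSet_eq_fun
    ((meas_floor _).comp (measurable_id.sub_const δ)) (meas_floor _)).compl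
  set v : ℤ → ℝ := fun d => ∑ i ∈ range (S.R k), (4 * ‖c i d‖ ^ q + 2 * ‖c i (d - 1)‖ ^ q) with hv
  have hv0 : ∀ d, 0 ≤ v d := fun d => sum_nonneg (fun i _ => by positivity)
  have fv : ∀ i, FS (fun d => 4 * ‖c i d‖ ^ q + 2 * ‖c i (d - 1)‖ ^ q) := fun i =>
    ((hc i).pw hq).two (((hc i).shift' 1).pw hq) (fun d h1 h2 => by
      rw [h1, h2]
      ring)
  have sv : ∑' d, v d = 6 * ∑ i ∈ range (S.R k), en q (c i) := by
    rw [hv, Summable.tsum_finsetSum (fun i _ => (fv i).summable), mul_sum]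
    apply sum_congr rfl
    intro i _
    rw [(((hc i).summable_pw hq).mul_left 4).tsum_add
      ((((hc i).shift' 1).summable_pw hq).mul_left 2), tsum_mul_left, tsum_mul_left]
    have := en_shift' (p := q) (c i) 1
    unfold en at this ⊢
    rw [this]
    ring
  have e : ∀ x, ENNReal.ofReal (|S.Ψ k c (x - δ) - S.Ψ k (fun i d => S.twf k i n * c i d) x| ^ q) ≤
      A.indicator (fun _ => (1 : ℝ≥0∞)) x * ENNReal.ofReal (v ⌊x⌋) := by
    intro x
    by_cases hx : x ∈ A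
    · rw [Set.indicator_of_mem hx, one_mul]
      apply ENNReal.ofReal_le_ofReal
      have a1 := norm_add_rpow_le_two hq1 hq2 (S.Ψ k c (x - δ))
        (- S.Ψ k (fun i d => S.twf k i n * c i d) x)
      rw [← sub_eq_add_neg, norm_neg, Real.norm_eq_abs, Real.norm_eq_abs, Real.norm_eq_abs] at a1
      have a2 := Real.rpow_le_rpow (abs_nonneg _) (S.abs_Ψ k c (x - δ)) hq.le
      have a3 := Real.rpow_le_rpow (abs_nonneg _)
        (S.abs_Ψ k (fun i d => S.twf k i n * c i d) x) hq.le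
      rw [norm_mul, norm_twf, one_mul] at a3
      have a4 : ‖c (S.cell k x) ⌊x⌋‖ ^ q ≤ ∑ i ∈ range (S.R k), ‖c i ⌊x⌋‖ ^ q :=
        single_le_sum (f := fun i => ‖c i ⌊x⌋‖ ^ q) (fun i _ => by positivity)
          (mem_range.2 (S.cell_lt k x))
      have a5 : ‖c (S.cell k (x - δ)) ⌊x - δ⌋‖ ^ q ≤
          ∑ i ∈ range (S.R k), (‖c i ⌊x⌋‖ ^ q + ‖c i (⌊x⌋ - 1)‖ ^ q) := by
        refine le_trans ?_ (single_le_sum (f := fun i => ‖c i ⌊x⌋‖ ^ q + ‖c i (⌊x⌋ - 1)‖ ^ q)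
          (fun i _ => by positivity) (mem_range.2 (S.cell_lt k (x - δ))))
        have f1 : ⌊x - δ⌋ ≤ ⌊x⌋ := Int.floor_le_floor (by linarith)
        have f2 : ⌊x⌋ - 1 ≤ ⌊x - δ⌋ := by
          rw [← Int.floor_sub_one]
          exact Int.floor_le_floor (by linarith)
        have n1 : 0 ≤ ‖c (S.cell k (x - δ)) ⌊x⌋‖ ^ q := by positivity
        have n2 : 0 ≤ ‖c (S.cell k (x - δ)) (⌊x⌋ - 1)‖ ^ q := by positivity
        rcases (show ⌊x - δ⌋ = ⌊x⌋ ∨ ⌊x - δ⌋ = ⌊x⌋ - 1 by omega) with h5 | h5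
        · rw [h5]
          linarith
        · rw [h5]
          linarith
      have a6 : v ⌊x⌋ = 2 * ∑ i ∈ range (S.R k), (‖c i ⌊x⌋‖ ^ q + ‖c i (⌊x⌋ - 1)‖ ^ q) +
          2 * ∑ i ∈ range (S.R k), ‖c i ⌊x⌋‖ ^ q := by
        rw [hv, mul_sum, mul_sum, ← sum_add_distrib]
        apply sum_congr rfl
        intro i _
        ring
      linarith
    · have hx' : ⌊(S.H k0 (i0 + 1) : ℝ) * (x - δ)⌋ = ⌊(S.H k0 (i0 + 1) : ℝ) * x⌋ := by
        simpa [hA] using hx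
      rw [S.Ψ_shift h k c hx', sub_self, abs_zero, Real.zero_rpow hq.ne', ENNReal.ofReal_zero]
      exact zero_le
  refine (lintegral_mono e).trans ?_
  rw [tensor _ (measurable_const.indicator mA) (fun x d => by
    have e1 : (S.H k0 (i0 + 1) : ℝ) * (x + d - δ) =
        (S.H k0 (i0 + 1) : ℝ) * (x - δ) + ((S.H k0 (i0 + 1) * d : ℤ) : ℝ) := by
      push_cast
      ring
    have e2 : (S.H k0 (i0 + 1) : ℝ) * (x + d) =
        (S.H k0 (i0 + 1) : ℝ) * x + ((S.H k0 (i0 + 1) * d : ℤ) : ℝ) := by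
      push_cast
      ring
    simp only [Set.indicator, hA, Set.mem_ofPred_eq, e1, e2, Int.floor_add_intCast, ne_eq,
      add_left_inj]) (fun d => ENNReal.ofReal (v d)), lint_ind mA,
    ← ENNReal.ofReal_tsum_of_nonneg hv0 (FS.sum _ (fun i _ => fv i)).summable, sv,
    ENNReal.ofReal_mul (p := (S.L k0 : ℝ) / S.c k0) (by positivity)]
  apply mul_le_mul_left
  exact (bad_meas (S.H_pos k0 (i0 + 1)) hδ0).trans (ENNReal.ofReal_le_ofReal (S.H_sh h))

end Par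

end H555Z.Tr
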